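import Pool.Agent.R932.PO.All
import Pool.Agent.R932.OP.SymB
import Pool.Agent.R932.OP.OrthA

/-!
# Project PO: the final theorem, Tate classes are Hodge classes
-/

set_option autoImplicit false
set_option linter.unusedSectionVars false
set_option linter.style.haveILetI false

open Matrix Polynomial Filter Topology NumberField IsDedekindDomain
open Pool.Agent.Y142.ZO Pool.Agent.Y142.ZI Pool.Agent.Y142.ZS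
open Pool.Agent.R932.OP Pool.Agent.R932.EV

namespace Pool.Agent.R932.PO

theorem Fits.map {κ : Kind} {F F' : Type} [Field F] [Field F'] (f : F →+* F') {N : ℕ}
    {J : Matrix (Fin N) (Fin N) F} (h : Fits κ J) : Fits κ (J.map f) := by
  have h1 : (J.map f)ᵀ = (Jᵀ).map f := rfl
  cases κ with
  | sym =>
    refine ⟨?_, h.2⟩
    rw [h1, h.1]
    ext p q
    simp
  | odd =>
    refine ⟨?_, h.2⟩
    rw [h1, h.1]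
  | even =>
    refine ⟨?_, h.2⟩
    rw [h1, h.1]

theorem det_map_ne {F F' : Type} [Field F] [Field F'] (f : F →+* F') {N : ℕ}
    {J : Matrix (Fin N) (Fin N) F} (h : J.det ≠ 0) : (J.map f).det ≠ 0 := by
  have h1 : (J.map f).det = f J.det := by
    rw [RingHom.map_det]
    rfl
  rw [h1]
  exact fun h2 => h ((map_eq_zero f).1 h2)

section
variable {K : Type} [Field K] [NumberField K] {ι : Type} [Fintype ι] [DecidableEq ι] {N w : ι → ℕ}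
  {S : Set (HeightOneSpectrum (𝓞 K))} {P : ι → HeightOneSpectrum (𝓞 K) → ℚ[X]} {kd : ι → Kind}

/-- the form over the `ℓ`-adic numbers -/
noncomputable abbrev JL (J : ∀ i, Matrix (Fin (N i)) (Fin (N i)) ℚ) (ℓ : ℕ) [Fact ℓ.Prime] (i : ι) :
    Matrix (Fin (N i)) (Fin (N i)) ℚ_[ℓ] :=
  (J i).map (algebraMap ℚ ℚ_[ℓ])

/-- **the final theorem** -/
theorem final_mt (hS : S.Finite) (J : ∀ i, Matrix (Fin (N i)) (Fin (N i)) ℚ)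
    (hfit : ∀ i, Fits (kd i) (J i)) (hdet : ∀ i, (J i).det ≠ 0) (hw : ∀ i, (J i)ᵀ = J i → w i = 0)
    (κ : ∀ (ℓ : ℕ) [Fact ℓ.Prime], GK K →* ℚ_[ℓ]) (hκc : ∀ (ℓ : ℕ) [Fact ℓ.Prime], Continuous (κ ℓ))
    (hκ : ∀ (ℓ : ℕ) [Fact ℓ.Prime], ∀ v ∉ S, (ℓ : 𝓞 K) ∉ v.asIdeal → ∀ σ : GK K, IsFrobenius v σ →
      κ ℓ σ⁻¹ = (Ideal.absNorm v.asIdeal : ℚ_[ℓ]))
    (ρ : ∀ (i : ι) (ℓ : ℕ) [Fact ℓ.Prime], GK K →* Matrix (Fin (N i)) (Fin (N i)) ℚ_[ℓ])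
    (hρc : ∀ (i : ι) (ℓ : ℕ) [Fact ℓ.Prime], Continuous (ρ i ℓ))
    (hmult : ∀ (i : ι) (ℓ : ℕ) [Fact ℓ.Prime] (g : GK K),
      Sim (JL J ℓ i) (ρ i ℓ g) (κ ℓ g ^ w i))
    (hfrob : ∀ (i : ι) (ℓ : ℕ) [Fact ℓ.Prime], ∀ v ∉ S, (ℓ : 𝓞 K) ∉ v.asIdeal → ∀ σ : GK K,
      IsFrobenius v σ → (ρ i ℓ σ⁻¹).charpoly = (P i v).map (algebraMap ℚ ℚ_[ℓ]))
    (ℓ₀ : ℕ) [hℓ₀ : Fact ℓ₀.Prime] (hal : ∀ i, Allows (kd i) (N i) ℓ₀ (JL J ℓ₀ i))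
    (hT4 : ∀ a : Fin 4 → ι, a 0 = a 1 → a 2 = a 3 → ∀ j, ∑ t, w (a t) = 2 * j → ∀ T,
      IsTate (fun i => ρ i ℓ₀) (κ ℓ₀) a j T → Killed (JL J ℓ₀) a T)
    (hS2 : ∀ i, Semi2 ℓ₀ (ρ i ℓ₀))
    (hns : ∀ i, ∃ v ∉ S, (ℓ₀ : 𝓞 K) ∉ v.asIdeal ∧ ∀ n : ℕ, 0 < n →
      ∃ x : ℂ, aeval x (P i v) = 0 ∧ x ^ (2 * n) ≠ (((Ideal.absNorm v.asIdeal : ℚ) ^ w i : ℚ) : ℂ) ^ n) :
    Y142.ZI.DensityZero {ℓ | ∃ _ : Fact ℓ.Prime,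
      ¬ ∀ (k : ℕ) (a : Fin k → ι) (j : ℕ), ∑ t, w (a t) = 2 * j → ∀ T,
        IsTate (fun i => ρ i ℓ) (κ ℓ) a j T ↔ Killed (JL J ℓ) a T} ∧
    ∀ (ℓ : ℕ) [Fact ℓ.Prime], (∀ i, SS (ρ i ℓ)) →
      (∀ a : Fin 2 → ι, a 0 = a 1 → ∀ j, ∑ t, w (a t) = 2 * j → ∀ T,
        IsTate (fun i => ρ i ℓ) (κ ℓ) a j T → Killed (JL J ℓ) a T) →
      ∀ (k : ℕ) (a : Fin k → ι) (j : ℕ), ∑ t, w (a t) = 2 * j → ∀ T,
        IsTate (fun i => ρ i ℓ) (κ ℓ) a j T ↔ Killed (JL J ℓ) a T := by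
  have hdetL : ∀ (ℓ : ℕ) [Fact ℓ.Prime] (i : ι), (JL J ℓ i).det ≠ 0 := fun ℓ _ i =>
    det_map_ne (algebraMap ℚ ℚ_[ℓ]) (hdet i)
  have hfitL : ∀ (ℓ : ℕ) [Fact ℓ.Prime] (i : ι), Fits (kd i) (JL J ℓ i) := fun ℓ _ i =>
    (hfit i).map (algebraMap ℚ ℚ_[ℓ])
  have hform : ∀ (ℓ : ℕ) [Fact ℓ.Prime] (i : ι), IsForm (JL J ℓ i) := fun ℓ _ i =>
    (hfitL ℓ i).isForm (hdetL ℓ i)
  have hsymL : ∀ (ℓ : ℕ) [Fact ℓ.Prime] (i : ι), (JL J ℓ i)ᵀ = JL J ℓ i → w i = 0 := by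
    intro ℓ _ i h
    refine hw i ?_
    ext p q
    have h1 := congrFun (congrFun h p) q
    exact (algebraMap ℚ ℚ_[ℓ]).injective h1
  have hsys : ∀ (i : ι) (ℓ : ℕ) [Fact ℓ.Prime], Sys (MonoidHom.id (GK K)) (kd i) (N i) ℓ (ρ i ℓ)
      (JL J ℓ i) S (P i) (fun v => (Ideal.absNorm v.asIdeal : ℚ) ^ w i) := by
    intro i ℓ _
    refine ⟨hρc i ℓ, hfitL ℓ i, hdetL ℓ i, fun γ => ⟨κ ℓ γ ^ w i, hmult i ℓ γ, fun h => ?_⟩, ?_⟩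
    · rw [hsymL ℓ i h, pow_zero]
    · intro v hv hvℓ σ hσ
      refine ⟨hfrob i ℓ v hv hvℓ σ hσ, ?_⟩
      have h1 : Sim (JL J ℓ i) (ρ i ℓ σ⁻¹) (κ ℓ σ⁻¹ ^ w i) := hmult i ℓ σ⁻¹
      rw [hκ ℓ v hv hvℓ σ hσ] at h1
      show (ρ i ℓ σ⁻¹)ᵀ * JL J ℓ i * ρ i ℓ σ⁻¹ = (((Ideal.absNorm v.asIdeal : ℚ) ^ w i : ℚ) : ℚ_[ℓ]) •
        JL J ℓ i
      rw [Rat.cast_pow, Rat.cast_natCast]
      exact h1
  have hsim : ∀ (ℓ : ℕ) [Fact ℓ.Prime] (i : ι) (g : GK K), ∃ c, Sim (JL J ℓ i) (ρ i ℓ g) c :=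
    fun ℓ _ i g => ⟨_, hmult i ℓ g⟩
  -- the prime `ℓ₀`
  have hone : ∀ i X, SpLie (JL J ℓ₀ i) X → IsTangent ℓ₀ (ρ i ℓ₀) X := by
    intro i
    obtain ⟨v, hvS, hvℓ, hnv⟩ := hns i
    obtain ⟨σ, hσ⟩ := Pool.Agent.W401.Frob.exists_frob v
    have hN2 : 2 ≤ N i := by
      rcases (hfitL ℓ₀ i).symm with h | h
      · rcases (hform ℓ₀ i).1 with h' | h'
        · have := h'.2
          omega
        · obtain ⟨k, hk⟩ := even_of_alt h' (hdetL ℓ₀ i)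
          have := (hfit i).pos
          omega
      · obtain ⟨k, hk⟩ := even_of_alt h (hdetL ℓ₀ i)
        have := (hfit i).pos
        omega
    have h4 : Tate4 ℓ₀ (ρ i ℓ₀) (JL J ℓ₀ i) := by
      refine tate4_of (ρ := fun i => ρ i ℓ₀) (J := JL J ℓ₀) (κ := κ ℓ₀) (w := w) i (hform ℓ₀ i)
        (hfit i).pos (hmult i ℓ₀) fun T hT => ?_
      refine hT4 (fun _ => i) rfl rfl (2 * w i) ?_ T hT
      rw [Finset.sum_const, Finset.card_univ, Fintype.card_fin, smul_eq_mul]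
      ring
    obtain ⟨ε, hε, hJε⟩ : ∃ ε : ℚ_[ℓ₀], (ε = 1 ∨ ε = -1) ∧ (JL J ℓ₀ i)ᵀ = ε • JL J ℓ₀ i := by
      rcases (hfitL ℓ₀ i).symm with h | h
      · exact ⟨1, Or.inl rfl, by rw [one_smul]; exact h⟩
      · exact ⟨-1, Or.inr rfl, by rw [neg_one_smul]; exact h⟩
    refine full_of_tate4 Y708.ZO.t Y497.ZO.log Y497.ZO.pow (hρc i ℓ₀) hN2 hε hJε (hdetL ℓ₀ i)
      (hsim ℓ₀ i) h4 (hS2 i) (σ₀ := σ⁻¹) fun n c hn => ?_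
    exact nonscalar (hfit i).pos (hdetL ℓ₀ i) (hfrob i ℓ₀ v hvS hvℓ σ hσ)
      ((hsys i ℓ₀).2.2.2.2 v hvS hvℓ σ hσ).2 hnv n c hn
  have hfull : ∀ X, (∀ i, SpLie (JL J ℓ₀ i) (X i)) →
      JTan ℓ₀ (fun i => (ρ i ℓ₀).comp (MonoidHom.id (GK K))) X := by
    refine joint_full jlie jlift gour (pair jlie jlift) (ρ := fun i => ρ i ℓ₀)
      (fun i => hρc i ℓ₀) (hform ℓ₀) (hsim ℓ₀) hone ?_
    intro i j hij Θ h1 h2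
    refine pair_of (ρ := fun i => ρ i ℓ₀) (J := JL J ℓ₀) (κ := κ ℓ₀) (w := w) i j hij (hform ℓ₀ i)
      (hform ℓ₀ j) (hmult i ℓ₀) (hmult j ℓ₀) (fun T hT => ?_) Θ h1 h2
    refine hT4 _ rfl rfl (w i + w j) ?_ T hT
    rw [Fin.sum_univ_four]
    show w i + w i + w j + w j = 2 * (w i + w j)
    ring
  have hsev := several tasks (s := MonoidHom.id (GK K)) continuous_id hS ρ (fun i ℓ _ => JL J ℓ i)
    hsys ℓ₀ hal hfull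
  have hconc : ∀ (ℓ : ℕ) [Fact ℓ.Prime],
      (∀ X, (∀ i, SpLie (JL J ℓ i) (X i)) → JTan ℓ (fun i => ρ i ℓ) X) →
      ∀ (k : ℕ) (a : Fin k → ι) (j : ℕ), ∑ t, w (a t) = 2 * j → ∀ T,
        IsTate (fun i => ρ i ℓ) (κ ℓ) a j T ↔ Killed (JL J ℓ) a T := by
    intro ℓ _ hf k a j hj T
    constructor
    · intro hT
      exact killed_of_tate (fun i => hρc i ℓ) (hform ℓ) hf hT
    · intro hT
      exact ht jlift ℓ ι N (GK K) (fun i => ρ i ℓ) (fun i => hρc i ℓ) (JL J ℓ) (hform ℓ)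
        (fun i => (hfit i).pos) (κ ℓ) (hκc ℓ) w (fun i g => hmult i ℓ g) k a j hj T hT
  constructor
  · refine Y142.ZI.DensityZero.mono hsev.1 ?_
    rintro ℓ ⟨hp, hno⟩
    exact ⟨hp, fun h => hno (hconc ℓ h)⟩
  · intro ℓ _ hss hT2
    refine hconc ℓ (hsev.2 ℓ hss fun i => ?_)
    refine sc_of (ρ := fun i => ρ i ℓ) (J := JL J ℓ) (κ := κ ℓ) (w := w) i (hform ℓ i) (hfit i).pos
      (hmult i ℓ) fun T hT => ?_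
    refine hT2 (fun _ => i) rfl (w i) ?_ T hT
    rw [Finset.sum_const, Finset.card_univ, Fintype.card_fin, smul_eq_mul]

end

end Pool.Agent.R932.PO
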