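import Pool.Agent.R932.PO.JLieA

set_option autoImplicit false

/-!
# Joint tangent vectors of finitely many representations: lifting
-/

open Matrix Filter Topology Pool.Agent.Y142.ZO

namespace Pool.Agent.R932.PO.JL

open Pool.Agent.Y497.ZO (Mt Aj nmul npow step coef_norm inv_pow_le bound exists_lim aj_zero
  exists_open lR_pos l_ne)

attribute [local instance] Matrix.normedAddCommGroup Matrix.normedSpace

section
variable {ℓ : ℕ} [Fact ℓ.Prime] {N : ℕ}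

local instance ultra' : IsUltrametricDist (Mt ℓ N) :=
  inferInstanceAs (IsUltrametricDist (Fin N → Fin N → ℚ_[ℓ]))

theorem step_sq (B : Mt ℓ N) (h0 : ‖Aj B 0‖ ≤ 1) (j : ℕ) :
    ‖Aj B (j + 1) - Aj B j‖ ≤ ‖Aj B 0‖ ^ 2 := by
  have hb : ‖Aj B j‖ ≤ ‖Aj B 0‖ := bound B h0 le_rfl j
  rw [step, add_sub_cancel_left]
  refine IsUltrametricDist.norm_sum_le_of_forall_le_of_nonneg (by positivity) fun m _ => ?_
  rw [norm_smul]
  have h1 : ‖Aj B j ^ (m + 2)‖ ≤ ‖Aj B 0‖ ^ 2 := by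
    rw [show m + 2 = (m + 1) + 1 by ring, pow_succ, sq]
    exact (nmul _ _).trans (mul_le_mul (npow _ hb h0 (m + 1) (by omega)) hb (norm_nonneg _)
      (norm_nonneg _))
  calc _ ≤ 1 * ‖Aj B 0‖ ^ 2 :=
        mul_le_mul ((coef_norm _ j m).trans (inv_pow_le _)) h1 (norm_nonneg _) zero_le_one
    _ = _ := one_mul _

theorem lim_sq (B : Mt ℓ N) (h0 : ‖Aj B 0‖ ≤ 1) (A : Mt ℓ N) (hA : Tendsto (Aj B) atTop (𝓝 A)) :
    ‖A - Aj B 0‖ ≤ ‖Aj B 0‖ ^ 2 := by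
  have h1 : ∀ j, ‖Aj B j - Aj B 0‖ ≤ ‖Aj B 0‖ ^ 2 := by
    intro j
    induction j with
    | zero => rw [sub_self, norm_zero]; positivity
    | succ j ih =>
      have e : Aj B (j + 1) - Aj B 0 = (Aj B (j + 1) - Aj B j) + (Aj B j - Aj B 0) := by abel
      rw [e]
      exact (IsUltrametricDist.norm_add_le_max _ _).trans (max_le (step_sq B h0 j) ih)
  exact le_of_tendsto (hA.sub_const _).norm (Eventually.of_forall h1)

end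

section fam

variable {ℓ : ℕ} [Fact ℓ.Prime] {ι : Type} [Fintype ι] {N : ι → ℕ} {G : Type} [Group G]
  [TopologicalSpace G] [IsTopologicalGroup G] [CompactSpace G]
  (ρ : ∀ i, G →* Matrix (Fin (N i)) (Fin (N i)) ℚ_[ℓ])

theorem jlift_core (hρ : ∀ i, Continuous (ρ i)) (i : ι)
    (X : Matrix (Fin (N i)) (Fin (N i)) ℚ_[ℓ]) (hX : IsTangent ℓ (ρ i) X) :
    ∃ Y : ∀ i, Matrix (Fin (N i)) (Fin (N i)) ℚ_[ℓ], (∃ σ : ℕ → G, ∀ i,
      Tendsto (fun n : ℕ => ((ℓ : ℚ_[ℓ]) ^ n)⁻¹ • (ρ i (σ n) - 1)) atTop (𝓝 (Y i))) ∧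
      Y i = X := by
  classical
  obtain ⟨𝔤, h𝔤, -, -⟩ := jlie_core ρ
  have hU : ∀ j, ∃ U : Subgroup G, IsOpen (U : Set G) ∧
      ∀ σ ∈ U, ‖ρ j σ - 1‖ ≤ ((ℓ : ℝ) ^ 2)⁻¹ := fun j =>
    exists_open G (ρ j) (hρ j) _ (inv_pos.2 (pow_pos lR_pos 2)) (inv_pow_le 2)
  choose U hUo hUn using hU
  have hVo : IsOpen ((⨅ j, U j : Subgroup G) : Set G) := by
    rw [Subgroup.coe_iInf]
    exact isOpen_iInter_of_finite hUo
  obtain ⟨σ, hσ⟩ := hX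
  have hone : Tendsto (fun n => ρ i (σ n)) atTop (𝓝 1) := Pool.Agent.R932.tendsto_one hσ
  have h1 := Pool.Agent.R932.eventually_mem (hρ i) hVo hone
  have h2 : ∀ᶠ n in atTop, ∃ A : Matrix (Fin (N i)) (Fin (N i)) ℚ_[ℓ],
      A ∈ 𝔤.map (LinearMap.proj i) ∧
      ‖A - Aj (ρ i (σ n)) 0‖ ≤ ‖Aj (ρ i (σ n)) 0‖ ^ 2 := by
    filter_upwards [h1] with n hn
    obtain ⟨u, hu, hun⟩ := hn
    have huj : ∀ j, ‖Aj (ρ j u) 0‖ ≤ 1 := fun j => aj_zero (ρ j u) (by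
      rw [mul_one]
      exact hUn j u (Subgroup.mem_iInf.1 hu j))
    have hlim : ∀ j, ∃ A, Tendsto (Aj (ρ j u)) atTop (𝓝 A) := fun j => exists_lim _ (huj j)
    choose A hA using hlim
    refine ⟨A i, ⟨A, (h𝔤 A).2 ⟨fun n => u ^ (ℓ ^ (n - 2)), fun j => ?_⟩, rfl⟩, ?_⟩
    · refine (tendsto_add_atTop_iff_nat (f := fun n : ℕ => ((ℓ : ℚ_[ℓ]) ^ n)⁻¹ •
        (ρ j (u ^ (ℓ ^ (n - 2))) - 1)) 2).1 ?_
      refine (hA j).congr fun n => ?_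
      unfold Aj
      rw [Nat.add_sub_cancel, map_pow]
    · rw [← hun]
      exact lim_sq _ (huj i) _ (hA i)
  obtain ⟨A, hA⟩ := h2.choice
  have hcl : IsClosed ((𝔤.map (LinearMap.proj i) :
      Submodule ℚ_[ℓ] (Matrix (Fin (N i)) (Fin (N i)) ℚ_[ℓ])) :
      Set (Matrix (Fin (N i)) (Fin (N i)) ℚ_[ℓ])) := Submodule.closed_of_finiteDimensional _
  -- the rescaled first approximation is the difference quotient
  have hD : ∀ n : ℕ, (((ℓ : ℚ_[ℓ]) ^ n)⁻¹ * (ℓ : ℚ_[ℓ]) ^ 2) • Aj (ρ i (σ n)) 0 =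
      ((ℓ : ℚ_[ℓ]) ^ n)⁻¹ • (ρ i (σ n) - 1) := by
    intro n
    unfold Aj
    rw [smul_smul, pow_zero, pow_one, zero_add, mul_assoc,
      mul_inv_cancel₀ (pow_ne_zero 2 l_ne), mul_one]
  have hB : Tendsto (fun n => Aj (ρ i (σ n)) 0) atTop (𝓝 0) := by
    have h3 : Tendsto (fun n => ((ℓ : ℚ_[ℓ]) ^ 2)⁻¹ • (ρ i (σ n) - 1)) atTop
        (𝓝 (((ℓ : ℚ_[ℓ]) ^ 2)⁻¹ • ((1 : Matrix (Fin (N i)) (Fin (N i)) ℚ_[ℓ]) - 1))) :=
      (hone.sub_const 1).const_smul _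
    rw [sub_self, smul_zero] at h3
    refine h3.congr fun n => ?_
    unfold Aj
    rw [pow_zero, pow_one, zero_add]
  have hE : Tendsto (fun n => (((ℓ : ℚ_[ℓ]) ^ n)⁻¹ * (ℓ : ℚ_[ℓ]) ^ 2) • (A n - Aj (ρ i (σ n)) 0))
      atTop (𝓝 0) := by
    refine squeeze_zero_norm' (a := fun n => ‖((ℓ : ℚ_[ℓ]) ^ n)⁻¹ • (ρ i (σ n) - 1)‖ *
      ‖Aj (ρ i (σ n)) 0‖) ?_ ?_
    · filter_upwards [hA] with n hn
      rw [norm_smul, ← hD n, norm_smul, mul_assoc]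
      refine mul_le_mul_of_nonneg_left ?_ (norm_nonneg _)
      rw [← sq]
      exact hn.2
    · have h3 := hσ.norm.mul hB.norm
      rw [norm_zero, mul_zero] at h3
      exact h3
  have hfin : Tendsto (fun n => (((ℓ : ℚ_[ℓ]) ^ n)⁻¹ * (ℓ : ℚ_[ℓ]) ^ 2) • A n) atTop (𝓝 X) := by
    have h3 := hE.add hσ
    rw [zero_add] at h3
    refine h3.congr fun n => ?_
    rw [← hD n, ← smul_add, sub_add_cancel]
  have hmem := hcl.mem_of_tendsto hfin (hA.mono fun n hn => Submodule.smul_mem _ _ hn.1)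
  obtain ⟨Y, hY, hYX⟩ := hmem
  exact ⟨Y, (h𝔤 Y).1 hY, hYX⟩

end fam

end Pool.Agent.R932.PO.JL
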