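import Pool.Agent.R932.PO.Stm
import Pool.Agent.R932.PO.JLieB

set_option autoImplicit false

/-!
# Joint tangent vectors: tasks JLIE and JLIFT
-/

namespace Pool.Agent.R932.PO

theorem jlie : S_JLIE := fun _ _ _ _ _ _ _ ρ => JL.jlie_core ρ

theorem jlift : S_JLIFT := fun _ _ _ _ _ _ _ _ _ _ ρ hρ i X hX => JL.jlift_core ρ hρ i X hX

end Pool.Agent.R932.PO
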