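import Pool.Agent.R932.PO.Stm
import Pool.Agent.R932.ProdD

set_option autoImplicit false
set_option linter.unusedVariables false

/-!
# Task EQV: no equivariant map
-/

open Matrix Polynomial Filter Topology
open scoped Pointwise Kronecker
open Pool.Agent.Y142.ZO (IsTangent)
open Pool.Agent.Y142.ZS (Sim SpLie)
open Pool.Agent.Y177.SU (up up_mul up_one)

namespace Pool.Agent.R932.PO

namespace Eqv

section alg
variable {F : Type} [Field F] [CharZero F] {N : ℕ}

/-- the centre of the Lie algebra of a form is zero -/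
theorem central_zero {J Z : Matrix (Fin N) (Fin N) F} (hJ : IsForm J)
    (hZ : Zᵀ * J + J * Z = 0) (hc : ∀ X, Xᵀ * J + J * X = 0 → X * Z = Z * X) : Z = 0 := by
  obtain ⟨hJ, hdet⟩ := hJ
  have hu : IsUnit J.det := isUnit_iff_ne_zero.2 hdet
  have key : ∀ K : Matrix (Fin N) (Fin N) F, (J⁻¹ * K)ᵀ * J + J * (J⁻¹ * K) = 0 →
      K * Z = -(Zᵀ * K) := by
    intro K hK
    have h1 := hc _ hK
    have h2 : J * (J⁻¹ * K * Z) = K * Z := by
      rw [mul_assoc, Matrix.mul_nonsing_inv_cancel_left _ _ hu]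
    have h3 : J * (Z * (J⁻¹ * K)) = -(Zᵀ * K) := by
      have h4 : J * Z = -(Zᵀ * J) := by rw [eq_neg_iff_add_eq_zero, add_comm]; exact hZ
      rw [← mul_assoc, h4, neg_mul, mul_assoc, Matrix.mul_nonsing_inv_cancel_left _ _ hu]
    rw [← h2, h1, h3]
  have htr : ∀ K : Matrix (Fin N) (Fin N) F, (J⁻¹ * K)ᵀ * J = (Jᵀ * (J⁻¹ * K))ᵀ := by
    intro K
    rw [Matrix.transpose_mul Jᵀ, Matrix.transpose_transpose]
  rcases hJ with ⟨hJ, h5⟩ | hJ
  · have key2 : ∀ i j : Fin N, (Matrix.single i j (1 : F) - Matrix.single j i 1) * Z =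
        -(Zᵀ * (Matrix.single i j (1 : F) - Matrix.single j i 1)) := by
      intro i j
      apply key
      rw [htr, hJ, Matrix.mul_nonsing_inv_cancel_left _ _ hu]
      simp
    have key3 : ∀ i j a b : Fin N, (if i = a then Z j b else 0) - (if j = a then Z i b else 0) =
        -((if j = b then Z i a else 0) - (if i = b then Z j a else 0)) := by
      intro i j a b
      have h := congrFun (congrFun (key2 i j) a) b
      rw [Matrix.sub_mul, Matrix.mul_sub, Matrix.sub_apply, Matrix.neg_apply, Matrix.sub_apply] at h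
      simpa [Matrix.mul_apply, Matrix.single_apply, Matrix.transpose_apply, ite_and] using h
    have hoff : ∀ i a : Fin N, i ≠ a → Z i a = 0 := by
      intro i a hia
      obtain ⟨j, hj1, hj2⟩ : ∃ j : Fin N, j ≠ i ∧ j ≠ a := by
        have hcard : ({i, a} : Finset (Fin N)).card < (Finset.univ : Finset (Fin N)).card := by
          rw [Finset.card_univ, Fintype.card_fin]
          exact lt_of_le_of_lt Finset.card_le_two (by omega)
        obtain ⟨j, -, hj⟩ := Finset.exists_mem_notMem_of_card_lt_card hcard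
        simp only [Finset.mem_insert, Finset.mem_singleton, not_or] at hj
        exact ⟨j, hj⟩
      have h := key3 i j a j
      rw [if_neg hia, if_neg hj2, if_pos rfl, if_neg hj1.symm] at h
      simpa using h
    have hdiag : ∀ i j : Fin N, i ≠ j → Z j j = -Z i i := by
      intro i j hij
      have h := key3 i j i j
      rw [if_pos rfl, if_neg hij.symm, if_pos rfl, if_neg hij] at h
      simpa using h
    ext i a
    by_cases hia : i = a
    · subst hia
      obtain ⟨j, hj⟩ : ∃ j : Fin N, j ≠ i := by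
        have : Nontrivial (Fin N) := Fin.nontrivial_iff_two_le.2 (by omega)
        exact exists_ne i
      obtain ⟨k, hk1, hk2⟩ : ∃ k : Fin N, k ≠ i ∧ k ≠ j := by
        have hcard : ({i, j} : Finset (Fin N)).card < (Finset.univ : Finset (Fin N)).card := by
          rw [Finset.card_univ, Fintype.card_fin]
          exact lt_of_le_of_lt Finset.card_le_two (by omega)
        obtain ⟨j, -, hj⟩ := Finset.exists_mem_notMem_of_card_lt_card hcard
        simp only [Finset.mem_insert, Finset.mem_singleton, not_or] at hj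
        exact ⟨j, hj⟩
      have h1 := hdiag i j hj.symm
      have h2 := hdiag j k hk2.symm
      have h3 := hdiag k i hk1
      rw [h2, h1, neg_neg] at h3
      have h4 : Z i i + Z i i = 0 := by
        nth_rw 1 [h3]; ring
      have h5 : (2 : F) * Z i i = 0 := by rw [two_mul]; exact h4
      simpa using h5
    · exact hoff i a hia
  · have key3 : ∀ i a b : Fin N, (if i = a then Z i b else 0) = -(if i = b then Z i a else 0) := by
      intro i a b
      have h := congrFun (congrFun (key (Matrix.single i i (1 : F)) (by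
        rw [htr, hJ, neg_mul, Matrix.mul_nonsing_inv_cancel_left _ _ hu]
        simp)) a) b
      rw [Matrix.neg_apply] at h
      simpa [Matrix.mul_apply, Matrix.single_apply, Matrix.transpose_apply, ite_and] using h
    ext i a
    by_cases hia : i = a
    · subst hia
      have h := key3 i i i
      rw [if_pos rfl] at h
      have h5 : (2 : F) * Z i i = 0 := by
        rw [two_mul]; nth_rw 1 [h]; ring
      simpa using h5
    · have h := key3 i a i
      rw [if_neg hia, if_pos rfl] at h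
      have h5 : Z i a = 0 := by simpa using h
      simpa using h5

end alg

section roots
variable {Ω : Type} [Field Ω] [IsAlgClosed Ω] {M : ℕ}

/-- eigenvalues of a conjugation: `Φ h = z h Φ` -/
theorem quot_root {h Φ : Matrix (Fin M) (Fin M) Ω} {z : Ω} (hz : z ≠ 0) (hΦ : Φ ≠ 0)
    (hc : Φ * h = z • (h * Φ)) :
    ∃ a b : Ω, h.charpoly.IsRoot a ∧ h.charpoly.IsRoot b ∧ z * b = a := by
  have hs : SemiconjBy Φ h (z • h) := by
    show Φ * h = z • h * Φ
    rw [hc, smul_mul_assoc]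
  have hp : ∀ p : Polynomial Ω, Φ * aeval h p = aeval (z • h) p * Φ := by
    intro p
    rw [aeval_eq_sum_range, aeval_eq_sum_range, Finset.mul_sum, Finset.sum_mul]
    refine Finset.sum_congr rfl fun i _ => ?_
    rw [mul_smul_comm, smul_mul_assoc, (hs.pow_right i).eq]
  have h1 := hp h.charpoly
  rw [Matrix.aeval_self_charpoly, mul_zero] at h1
  have h2 : ¬ IsUnit (aeval (z • h) h.charpoly) := by
    intro hu
    apply hΦ
    have := hu.mul_right_eq_zero.1 h1.symm
    exact this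
  have hprod : (Multiset.map (fun x => X - C x) h.charpoly.roots).prod = h.charpoly := by
    exact (IsAlgClosed.splits h.charpoly).eq_prod_roots_of_monic (Matrix.charpoly_monic h) |>.symm
  obtain ⟨k, hk, hk0⟩ := spectrum.exists_mem_of_not_isUnit_aeval_prod
    (p := h.charpoly) (a := z • h) (by rw [hprod]; exact h2)
  refine ⟨k, k / z, hk0, ?_, by field_simp⟩
  have h3 : k / z ∈ spectrum Ω h := by
    have h4 := spectrum.unit_smul_eq_smul h (Units.mk0 z hz)
    have h5 : k ∈ (Units.mk0 z hz) • spectrum Ω h := by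
      rw [← h4]; exact hk
    obtain ⟨w, hw, hwk⟩ := h5
    have : k / z = w := by
      have h5 : z * w = k := hwk
      rw [← h5]; field_simp
    rw [this]; exact hw
  exact Matrix.mem_spectrum_iff_isRoot_charpoly.1 h3

end roots

section main

variable {N M : ℕ}

/-- the bilinear maps `v₀ J Θ(E_ab) v₁` -/
noncomputable def phi {F : Type} [Field F] (J : Matrix (Fin N) (Fin N) F)
    (Θ : Matrix (Fin M) (Fin M) F →ₗ[F] Matrix (Fin N) (Fin N) F) :
    MultilinearMap F (fun _ : Fin 2 => Fin N → F) (Fin (M * M) → F) :=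
  MultilinearMap.pi fun i =>
    (LinearMap.proj (0 : Fin 1) : (Fin 1 → F) →ₗ[F] F).compMultilinearMap
      (jm (J * Θ (Matrix.single (finProdFinEquiv.symm i).1 (finProdFinEquiv.symm i).2 1)))

theorem sandwich {F : Type} [Field F] (P K Q : Matrix (Fin N) (Fin N) F) (v w : Fin N → F) :
    (P *ᵥ v) ⬝ᵥ K *ᵥ (Q *ᵥ w) = v ⬝ᵥ (Pᵀ * K * Q) *ᵥ w := by
  rw [← Matrix.mulVec_mulVec, ← Matrix.mulVec_mulVec, Matrix.dotProduct_mulVec v,
    Matrix.vecMul_transpose]

theorem phi_apply {F : Type} [Field F] (J : Matrix (Fin N) (Fin N) F)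
    (Θ : Matrix (Fin M) (Fin M) F →ₗ[F] Matrix (Fin N) (Fin N) F) (v : Fin 2 → Fin N → F)
    (i : Fin (M * M)) :
    phi J Θ v i = v 0 ⬝ᵥ
      (J * Θ (Matrix.single (finProdFinEquiv.symm i).1 (finProdFinEquiv.symm i).2 1)) *ᵥ v 1 :=
  jm_apply _ v 0

/-- a linear functional in coordinates -/
theorem lin_coord {F E : Type} [Field F] [AddCommGroup E] [Module F E]
    (T : Matrix (Fin M) (Fin M) F →ₗ[F] E) (B : Matrix (Fin M) (Fin M) F) :
    T B = ∑ i : Fin (M * M), B (finProdFinEquiv.symm i).1 (finProdFinEquiv.symm i).2 •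
      T (Matrix.single (finProdFinEquiv.symm i).1 (finProdFinEquiv.symm i).2 1) := by
  have h1 : ∑ i : Fin (M * M), B (finProdFinEquiv.symm i).1 (finProdFinEquiv.symm i).2 •
      T (Matrix.single (finProdFinEquiv.symm i).1 (finProdFinEquiv.symm i).2 1) =
      ∑ p : Fin M × Fin M, B p.1 p.2 • T (Matrix.single p.1 p.2 1) :=
    Fintype.sum_equiv finProdFinEquiv.symm _ _ fun i => rfl
  rw [h1, Fintype.sum_prod_type]
  conv_lhs => rw [Matrix.matrix_eq_sum_single B]
  rw [map_sum]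
  refine Finset.sum_congr rfl fun a _ => ?_
  rw [map_sum]
  refine Finset.sum_congr rfl fun b _ => ?_
  rw [← map_smul, Matrix.smul_single, smul_eq_mul, mul_one]

variable {ℓ : ℕ} [Fact ℓ.Prime] {G : Type} [Group G]

/-- the representation on the dual of the matrices, twisted by the multiplier -/
noncomputable def WW (ρ' : G →* Matrix (Fin M) (Fin M) ℚ_[ℓ]) (c : G → ℚ_[ℓ]) (h1 : c 1 = 1)
    (hm : ∀ σ τ, c (σ * τ) = c σ * c τ) : G →* Matrix (Fin (M * M)) (Fin (M * M)) ℚ_[ℓ] where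
  toFun σ := c σ • Matrix.reindex finProdFinEquiv finProdFinEquiv ((ρ' σ⁻¹)ᵀ ⊗ₖ ρ' σ)
  map_one' := by
    rw [h1, inv_one, map_one, Matrix.transpose_one, Matrix.one_kronecker_one, one_smul]
    simp
  map_mul' := by
    intro σ τ
    rw [hm, smul_mul_smul_comm, Matrix.reindex_apply, Matrix.reindex_apply, Matrix.reindex_apply,
      Matrix.submatrix_mul_equiv, ← Matrix.mul_kronecker_mul, _root_.mul_inv_rev, map_mul, map_mul,
      Matrix.transpose_mul]

theorem WW_apply (ρ' : G →* Matrix (Fin M) (Fin M) ℚ_[ℓ]) (c : G → ℚ_[ℓ]) (h1 : c 1 = 1)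
    (hm : ∀ σ τ, c (σ * τ) = c σ * c τ) (σ : G) (i j : Fin (M * M)) :
    WW ρ' c h1 hm σ i j = c σ * (ρ' σ⁻¹ (finProdFinEquiv.symm j).1 (finProdFinEquiv.symm i).1 *
      ρ' σ (finProdFinEquiv.symm i).2 (finProdFinEquiv.symm j).2) := rfl

/-- the roots of `WW` -/
theorem WW_root (ρ' : G →* Matrix (Fin M) (Fin M) ℚ_[ℓ]) (c : G → ℚ_[ℓ]) (h1 : c 1 = 1)
    (hm : ∀ σ τ, c (σ * τ) = c σ * c τ) (σ : G) {y : AlgebraicClosure ℚ_[ℓ]} (hy0 : y ≠ 0)
    (hy : (up (AlgebraicClosure ℚ_[ℓ]) (WW ρ' c h1 hm σ)).charpoly.IsRoot y) :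
    ∃ a b, (up (AlgebraicClosure ℚ_[ℓ]) (ρ' σ)).charpoly.IsRoot a ∧
      (up (AlgebraicClosure ℚ_[ℓ]) (ρ' σ)).charpoly.IsRoot b ∧
      y * b = algebraMap ℚ_[ℓ] (AlgebraicClosure ℚ_[ℓ]) (c σ) * a := by
  obtain ⟨w, hw0, hw⟩ : ∃ w : Fin (M * M) → AlgebraicClosure ℚ_[ℓ], w ≠ 0 ∧
      up (AlgebraicClosure ℚ_[ℓ]) (WW ρ' c h1 hm σ) *ᵥ w = y • w := by
    have h4 : (Matrix.scalar (Fin (M * M)) y -
        up (AlgebraicClosure ℚ_[ℓ]) (WW ρ' c h1 hm σ)).det = 0 := by
      rw [← Matrix.eval_charpoly]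
      exact hy
    obtain ⟨w, hw0, hw⟩ := Matrix.exists_mulVec_eq_zero_iff.2 h4
    refine ⟨w, hw0, ?_⟩
    rw [Matrix.sub_mulVec, sub_eq_zero] at hw
    rw [← hw]
    funext i
    simp [Matrix.scalar_apply, Matrix.mulVec_diagonal]
  set q := algebraMap ℚ_[ℓ] (AlgebraicClosure ℚ_[ℓ]) (c σ) with hq
  set g := up (AlgebraicClosure ℚ_[ℓ]) (ρ' σ) with hg
  set g' := up (AlgebraicClosure ℚ_[ℓ]) (ρ' σ⁻¹) with hg'
  have hgg : g * g' = 1 := by
    rw [hg, hg', ← up_mul, ← map_mul, mul_inv_cancel, map_one, up_one]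
  have hgg' : g' * g = 1 := by
    rw [hg, hg', ← up_mul, ← map_mul, inv_mul_cancel, map_one, up_one]
  let Φ : Matrix (Fin M) (Fin M) (AlgebraicClosure ℚ_[ℓ]) := fun a b => w (finProdFinEquiv (a, b))
  have hΦ0 : Φ ≠ 0 := by
    intro h0
    apply hw0
    funext i
    have h2 := congrFun (congrFun h0 (finProdFinEquiv.symm i).1) (finProdFinEquiv.symm i).2
    have h3 : Φ (finProdFinEquiv.symm i).1 (finProdFinEquiv.symm i).2 = w i := by
      show w (finProdFinEquiv ((finProdFinEquiv.symm i).1, (finProdFinEquiv.symm i).2)) = w i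
      rw [Prod.mk.eta, Equiv.apply_symm_apply]
    rw [← h3, h2]; rfl
  have hrel : q • (g'ᵀ * Φ * gᵀ) = y • Φ := by
    ext a b
    have h2 := congrFun hw (finProdFinEquiv (a, b))
    rw [Pi.smul_apply] at h2
    rw [Matrix.smul_apply, Matrix.smul_apply]
    refine Eq.trans ?_ h2
    rw [Matrix.mulVec, dotProduct, Matrix.mul_apply, smul_eq_mul, Finset.mul_sum]
    have h3 : ∑ i : Fin (M * M), up (AlgebraicClosure ℚ_[ℓ]) (WW ρ' c h1 hm σ)
        (finProdFinEquiv (a, b)) i * w i = ∑ p : Fin M × Fin M,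
        q * (g' p.1 a * g b p.2) * Φ p.1 p.2 := by
      refine Fintype.sum_equiv finProdFinEquiv.symm _ _ fun i => ?_
      have h4 : up (AlgebraicClosure ℚ_[ℓ]) (WW ρ' c h1 hm σ) (finProdFinEquiv (a, b)) i =
          algebraMap ℚ_[ℓ] (AlgebraicClosure ℚ_[ℓ])
            (WW ρ' c h1 hm σ (finProdFinEquiv (a, b)) i) := rfl
      have h5 : Φ (finProdFinEquiv.symm i).1 (finProdFinEquiv.symm i).2 = w i := by
        show w (finProdFinEquiv ((finProdFinEquiv.symm i).1, (finProdFinEquiv.symm i).2)) = w i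
        rw [Prod.mk.eta, Equiv.apply_symm_apply]
      rw [h4, WW_apply, map_mul, map_mul, Equiv.symm_apply_apply, h5]
      rfl
    rw [h3, Fintype.sum_prod_type, Finset.sum_comm]
    refine Finset.sum_congr rfl fun d _ => ?_
    rw [Matrix.mul_apply, Finset.sum_mul, Finset.mul_sum]
    refine Finset.sum_congr rfl fun e _ => ?_
    rw [Matrix.transpose_apply, Matrix.transpose_apply]
    ring
  have hgt : gᵀ * g'ᵀ = 1 := by rw [← Matrix.transpose_mul, hgg', Matrix.transpose_one]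
  have hrel2 : q • (Φ * gᵀ) = y • (gᵀ * Φ) := by
    have h2 : gᵀ * (q • (g'ᵀ * Φ * gᵀ)) = gᵀ * (y • Φ) := by rw [hrel]
    rw [mul_smul_comm, mul_smul_comm, ← mul_assoc, ← mul_assoc, hgt, one_mul] at h2
    exact h2
  have hq0 : q ≠ 0 := by
    intro h0
    rw [h0, zero_smul] at hrel
    rcases smul_eq_zero.1 hrel.symm with h2 | h2
    · exact hy0 h2
    · exact hΦ0 h2
  obtain ⟨a, b, ha, hb, hab⟩ := quot_root (h := gᵀ) (Φ := Φ) (z := y / q) (div_ne_zero hy0 hq0) hΦ0
    (by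
      rw [div_eq_inv_mul, mul_smul, ← hrel2, smul_smul, inv_mul_cancel₀ hq0, one_smul])
  rw [Matrix.charpoly_transpose] at ha hb
  refine ⟨a, b, ha, hb, ?_⟩
  rw [← hab]
  field_simp

end main

end Eqv

open Eqv

/-- task EQV -/
theorem eqv : S_EQV := by
  intro ℓ _ N M G _ _ _ _ ρ ρ' hρ J hJ hsim htan γ P R q hP hq hR x hx hind Θ hΘ hΘs A
  rcases Nat.eq_zero_or_pos N with h0 | hN
  · subst h0; exact Subsingleton.elim _ _
  choose c hc using hsim
  have hc1 : c 1 = 1 := by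
    refine sim_unique hN hJ.2 (hc 1) ?_
    show (ρ 1)ᵀ * J * ρ 1 = (1 : ℚ_[ℓ]) • J
    rw [map_one, Matrix.transpose_one, one_mul, mul_one, one_smul]
  have hcm : ∀ σ τ, c (σ * τ) = c σ * c τ := by
    intro σ τ
    refine sim_unique hN hJ.2 (hc (σ * τ)) ?_
    show (ρ (σ * τ))ᵀ * J * ρ (σ * τ) = (c σ * c τ) • J
    have h1 : (ρ σ)ᵀ * J * ρ σ = c σ • J := hc σ
    have h2 : (ρ τ)ᵀ * J * ρ τ = c τ • J := hc τ
    calc (ρ (σ * τ))ᵀ * J * ρ (σ * τ) = (ρ τ)ᵀ * ((ρ σ)ᵀ * J * ρ σ) * ρ τ := by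
          rw [map_mul, Matrix.transpose_mul]; noncomm_ring
      _ = (c σ * c τ) • J := by
          rw [h1, mul_smul_comm, smul_mul_assoc, h2, smul_smul]
  have hcq : c γ = (q : ℚ_[ℓ]) := sim_unique hN hJ.2 (hc γ) hq
  -- the equivariance
  have hφ : ∀ σ ∈ (⊤ : Subgroup G), ∀ v, phi J Θ (fun j => ρ σ *ᵥ v j) =
      WW ρ' c hc1 hcm σ *ᵥ phi J Θ v := by
    intro σ _ v
    funext i
    obtain ⟨E, hE⟩ : ∃ E : Matrix (Fin M) (Fin M) ℚ_[ℓ],
        E = Matrix.single (finProdFinEquiv.symm i).1 (finProdFinEquiv.symm i).2 1 := ⟨_, rfl⟩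
    have h1 : (ρ σ)ᵀ * (J * Θ E) * ρ σ = c σ • (J * Θ (ρ' σ⁻¹ * E * ρ' σ)) := by
      have h2 := hΘ σ⁻¹ E
      rw [inv_inv] at h2
      have h3 : (ρ σ)ᵀ * J * ρ σ = c σ • J := hc σ
      have h4 : ρ σ * ρ σ⁻¹ = 1 := by rw [← map_mul, mul_inv_cancel, map_one]
      rw [h2, ← smul_mul_assoc, ← h3]
      calc (ρ σ)ᵀ * (J * Θ E) * ρ σ = (ρ σ)ᵀ * J * 1 * Θ E * ρ σ := by noncomm_ring
        _ = (ρ σ)ᵀ * J * (ρ σ * ρ σ⁻¹) * Θ E * ρ σ := by rw [h4]
        _ = _ := by noncomm_ring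
    have h5 : phi J Θ (fun j => ρ σ *ᵥ v j) i =
        v 0 ⬝ᵥ ((ρ σ)ᵀ * (J * Θ E) * ρ σ) *ᵥ v 1 := by
      rw [phi_apply, ← hE, sandwich]
    rw [h5, h1]
    let T : Matrix (Fin M) (Fin M) ℚ_[ℓ] →ₗ[ℚ_[ℓ]] ℚ_[ℓ] :=
      { toFun := fun B => v 0 ⬝ᵥ (J * Θ B) *ᵥ v 1
        map_add' := by
          intro B B'
          rw [map_add, mul_add, Matrix.add_mulVec, dotProduct_add]
        map_smul' := by
          intro r B
          rw [map_smul, mul_smul_comm, Matrix.smul_mulVec, dotProduct_smul]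
          rfl }
    have h6 : v 0 ⬝ᵥ (c σ • (J * Θ (ρ' σ⁻¹ * E * ρ' σ))) *ᵥ v 1 =
        c σ * T (ρ' σ⁻¹ * E * ρ' σ) := by
      rw [Matrix.smul_mulVec, dotProduct_smul]; rfl
    rw [h6, lin_coord T, Finset.mul_sum, Matrix.mulVec, dotProduct]
    refine Finset.sum_congr rfl fun j _ => ?_
    rw [WW_apply, phi_apply]
    have h7 : (ρ' σ⁻¹ * E * ρ' σ) (finProdFinEquiv.symm j).1 (finProdFinEquiv.symm j).2 =
        ρ' σ⁻¹ (finProdFinEquiv.symm j).1 (finProdFinEquiv.symm i).1 *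
          ρ' σ (finProdFinEquiv.symm i).2 (finProdFinEquiv.symm j).2 := by
      rw [hE, Matrix.mul_apply]
      simp [Matrix.mul_apply, Matrix.single_apply, ite_and]
    rw [h7]
    show c σ * ((_ * _) * T _) = c σ * (_ * _) * T _
    ring
  -- the roots
  obtain ⟨x', hx', hind'⟩ := ind_prod (A := ρ' γ) (B := ρ γ) hx hind (by rw [hR]) hP
  have hind2 : ∀ m : ℕ, 0 < m → x' ^ m ∉ Subgroup.closure
      ({y : (AlgebraicClosure ℚ_[ℓ])ˣ |
        (up (AlgebraicClosure ℚ_[ℓ]) (WW ρ' c hc1 hcm γ)).charpoly.IsRoot y} ∪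
        {y : (AlgebraicClosure ℚ_[ℓ])ˣ | (y : AlgebraicClosure ℚ_[ℓ]) = algebraMap ℚ_[ℓ] _ (c γ)}) := by
    intro m hm hmem
    refine hind' m hm ?_
    refine (Subgroup.closure_le _).2 ?_ hmem
    rintro y (hy | hy)
    · obtain ⟨a, b, ha, hb, hab⟩ := WW_root ρ' c hc1 hcm γ y.ne_zero hy
      have hdet : (up (AlgebraicClosure ℚ_[ℓ]) (ρ' γ)).det ≠ 0 := by
        intro h0
        have h1 : up (AlgebraicClosure ℚ_[ℓ]) (ρ' γ) * up (AlgebraicClosure ℚ_[ℓ]) (ρ' γ⁻¹) = 1 := by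
          rw [← up_mul, ← map_mul, mul_inv_cancel, map_one, up_one]
        have h2 := congrArg Matrix.det h1
        rw [Matrix.det_mul, h0, zero_mul, Matrix.det_one] at h2
        exact zero_ne_one h2
      have hroot0 : ∀ z, (up (AlgebraicClosure ℚ_[ℓ]) (ρ' γ)).charpoly.IsRoot z → z ≠ 0 := by
        intro z hz h0
        rw [h0] at hz
        apply hdet
        rw [Matrix.det_eq_sign_charpoly_coeff, Polynomial.coeff_zero_eq_eval_zero]
        rw [Polynomial.IsRoot.def.1 hz, mul_zero]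
      have ha0 := hroot0 a ha
      have hb0 := hroot0 b hb
      have hq0 : algebraMap ℚ_[ℓ] (AlgebraicClosure ℚ_[ℓ]) (c γ) ≠ 0 := by
        intro h0
        rw [h0, zero_mul] at hab
        exact (mul_ne_zero y.ne_zero hb0) hab
      have hy' : y = Units.mk0 _ hq0 * Units.mk0 a ha0 * (Units.mk0 b hb0)⁻¹ := by
        ext
        rw [Units.val_mul, Units.val_mul, Units.val_inv_eq_inv_val, Units.val_mk0, Units.val_mk0,
          Units.val_mk0, ← hab, mul_assoc, mul_inv_cancel₀ hb0, mul_one]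
      rw [SetLike.mem_coe, hy']
      refine mul_mem (mul_mem ?_ ?_) (inv_mem ?_)
      · refine Subgroup.subset_closure (Or.inr ?_)
        show algebraMap ℚ_[ℓ] (AlgebraicClosure ℚ_[ℓ]) (c γ) = _
        rw [hcq]
      · exact Subgroup.subset_closure (Or.inl ha)
      · exact Subgroup.subset_closure (Or.inl hb)
    · refine Subgroup.subset_closure (Or.inr ?_)
      have hy' : (y : AlgebraicClosure ℚ_[ℓ]) = algebraMap ℚ_[ℓ] _ (c γ) := hy
      rw [hcq] at hy'
      exact hy'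
  -- the conclusion
  have hall : ∀ X, Xᵀ * J + J * X = 0 → X ∈ annS (phi J Θ) := fun X hX =>
    all_skew hρ hJ.1 hJ.2 htan (hc γ) hx' hind2 (U := ⊤) (by exact isOpen_univ) hφ hX
  have hz : ∀ i : Fin (M * M),
      Θ (Matrix.single (finProdFinEquiv.symm i).1 (finProdFinEquiv.symm i).2 1) = 0 := by
    intro i
    obtain ⟨Z, hZ⟩ : ∃ Z, Z = Θ (Matrix.single (finProdFinEquiv.symm i).1
      (finProdFinEquiv.symm i).2 1) := ⟨_, rfl⟩
    rw [← hZ]
    refine central_zero hJ (by rw [hZ]; exact hΘs _) fun X hX => ?_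
    have h1 : Xᵀ * (J * Z) + J * Z * X = 0 := by
      ext a b
      have h2 := congrFun (mem_annS.1 (hall X hX) ![Pi.single a 1, Pi.single b 1]) i
      rw [Fin.sum_univ_two, Pi.add_apply, phi_apply, phi_apply, ← hZ] at h2
      have h3 : (X *ᵥ Pi.single a 1) ⬝ᵥ (J * Z) *ᵥ Pi.single b 1 = (Xᵀ * (J * Z)) a b := by
        have h9 := sandwich X (J * Z) 1 (Pi.single a 1) (Pi.single b 1)
        rw [Matrix.one_mulVec, mul_one] at h9
        rw [h9]
        simp
      have h4 : (Pi.single a 1 : Fin N → ℚ_[ℓ]) ⬝ᵥ (J * Z) *ᵥ (X *ᵥ Pi.single b 1) =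
          (J * Z * X) a b := by
        rw [Matrix.mulVec_mulVec]
        simp
      rw [Matrix.add_apply, ← h3, ← h4]
      exact h2
    have h5 : J * (X * Z) = J * (Z * X) := by
      have h6 : J * X = -(Xᵀ * J) := by rw [eq_neg_iff_add_eq_zero, add_comm]; exact hX
      have h7 : J * Z * X = -(Xᵀ * (J * Z)) := by
        rw [eq_neg_iff_add_eq_zero, add_comm]; exact h1
      rw [← mul_assoc, h6, ← mul_assoc, h7, neg_mul, mul_assoc]
    have h8 := congrArg (fun K => J⁻¹ * K) h5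
    have hu : IsUnit J.det := isUnit_iff_ne_zero.2 hJ.2
    have h9 : J⁻¹ * (J * (X * Z)) = J⁻¹ * (J * (Z * X)) := h8
    rwa [Matrix.nonsing_inv_mul_cancel_left _ _ hu, Matrix.nonsing_inv_mul_cancel_left _ _ hu] at h9
  rw [lin_coord Θ A]
  exact Finset.sum_eq_zero fun i _ => by rw [hz i, smul_zero]

end Pool.Agent.R932.PO
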