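import Pool.Agent.R932.PO.Stm
import Pool.Agent.R499.OP.Form

set_option autoImplicit false

/-!
Task FORM1U of project PO of helper932 (author helper539): unramified elements of the orthogonal
Lie algebra in odd dimension.
-/

open Matrix Polynomial
open Pool.Agent.Y142.ZO (Skew)
open Pool.Agent.R932.OP
open Pool.Agent.R499.OP

namespace Pool.Agent.R932.PO

/-- among three non-zero numbers two have a product of even valuation -/
theorem even_perm {ℓ : ℕ} [Fact ℓ.Prime] (d : Fin 3 → ℚ_[ℓ]) (hd : ∀ i, d i ≠ 0) :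
    ∃ σ : Equiv.Perm (Fin 3), Even (d (σ 0) * d (σ 1)).valuation := by
  have hE : ∀ i j, Even (Padic.valuation (d i * d j)) ↔
      (Even (d i).valuation ↔ Even (d j).valuation) := fun i j => by
    rw [Padic.valuation_mul (hd i) (hd j), Int.even_add]
  by_cases h01 : (Even (d 0).valuation ↔ Even (d 1).valuation)
  · exact ⟨1, (hE _ _).2 h01⟩
  · by_cases h02 : (Even (d 0).valuation ↔ Even (d 2).valuation)
    · exact ⟨Equiv.swap 1 2, (hE _ _).2 h02⟩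
    · refine ⟨Equiv.swap 0 2, (hE _ _).2 ?_⟩
      show (Even (d 2).valuation ↔ Even (d 1).valuation)
      tauto

theorem form1u : S_FORM1U := by
  intro ℓ _ hℓ m B hB hd
  obtain ⟨C', D', d₀, h1, h2, hd₀, -, h3⟩ := s_wt ℓ hℓ m B hB hd
  have hcg₀ : Cg B (fromBlocks (Hy ℚ_[ℓ] (Fin m)) 0 0 (diagonal d₀)) := ⟨C', D', h1, h2, h3⟩
  obtain ⟨σ, hσ⟩ := even_perm d₀ hd₀
  obtain ⟨d, hdσ⟩ : ∃ d : Fin 3 → ℚ_[ℓ], d = d₀ ∘ σ := ⟨_, rfl⟩
  have hd' : ∀ i, d i ≠ 0 := fun i => by rw [hdσ]; exact hd₀ _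
  have hcg : Cg B (fromBlocks (Hy ℚ_[ℓ] (Fin m)) 0 0 (diagonal d)) := by
    rw [hdσ]
    exact hcg₀.trans ((Cg.refl _).blocks (Cg.perm d₀ σ))
  have hev : Even (d 0 * d 1).valuation := by rw [hdσ]; exact hσ
  have hcg2 := hcg.trans ((Cg.refl _).blocks (split3 d))
  obtain ⟨w₁, hw₁, hn₁⟩ := norm_even (d 0 * d 1) (mul_ne_zero (hd' 0) (hd' 1)) hev
  refine ⟨-(d 0 * d 1 * w₁ ^ 2), by rw [norm_neg, hn₁], ?_⟩
  intro s A _
  obtain ⟨T₁, hT₁, hch₁⟩ := sk_rot (d 0) (d 1) (w₁ * s)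
  obtain ⟨hA, hchA⟩ := sk_hy A
  obtain ⟨h0, hch0⟩ := sk_zero (diagonal ![d 2])
  obtain ⟨T, hT, hch⟩ := hcg2.sk (hA.blocks (hT₁.blocks h0))
  refine ⟨T, hT, ?_⟩
  rw [hch, charpoly_blocks, hchA, charpoly_blocks, hch₁, hch0]
  have : -(d 0 * d 1 * (w₁ * s) ^ 2) = -(d 0 * d 1 * w₁ ^ 2) * s ^ 2 := by ring
  rw [this]
  ring

end Pool.Agent.R932.PO
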