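import Pool.Agent.R932.PO.Stm
import Pool.Agent.R932.Idl
import Pool.Agent.R932.IdlSo

set_option autoImplicit false

/-!
Project PO, task GOUR: Goursat, Kolchin, Ribet for Lie algebras of symplectic and orthogonal forms.
-/

open Matrix
open Pool.Agent.Y142.ZO Pool.Agent.Y142.ZI Pool.Agent.Y142.ZS

namespace Pool.Agent.R932.PO

section perfect

variable {F : Type} [Field F] {N : ℕ}

theorem sp_inv {J : Matrix (Fin N) (Fin N) F} (hdet : J.det ≠ 0) {e : F} (hJ : Jᵀ = e • J)
    {K : Matrix (Fin N) (Fin N) F} (hK : e • Kᵀ = -K) : SpLie J (J⁻¹ * K) := by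
  have hu : IsUnit J.det := isUnit_iff_ne_zero.2 hdet
  unfold SpLie
  have h1 : J * (J⁻¹ * K) = K := by
    rw [← Matrix.mul_assoc, Matrix.mul_nonsing_inv _ hu, Matrix.one_mul]
  have h2 : (J⁻¹ * K)ᵀ * J = e • Kᵀ := by
    have h3 : (J⁻¹ * K)ᵀ * J = (Jᵀ * (J⁻¹ * K))ᵀ := by
      rw [Matrix.transpose_mul Jᵀ, Matrix.transpose_transpose]
    rw [h3, hJ, Matrix.smul_mul, h1, Matrix.transpose_smul]
  rw [h1, h2, hK, neg_add_cancel]

theorem br_sp {J A B : Matrix (Fin N) (Fin N) F} (hA : SpLie J A) (hB : SpLie J B) :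
    SpLie J (A * B - B * A) := by
  unfold SpLie at *
  have hA' : Aᵀ * J = -(J * A) := eq_neg_of_add_eq_zero_left hA
  have hB' : Bᵀ * J = -(J * B) := eq_neg_of_add_eq_zero_left hB
  have h1 : (A * B - B * A)ᵀ * J = Bᵀ * (Aᵀ * J) - Aᵀ * (Bᵀ * J) := by
    rw [Matrix.transpose_sub, Matrix.transpose_mul, Matrix.transpose_mul, Matrix.sub_mul,
      Matrix.mul_assoc, Matrix.mul_assoc]
  rw [h1, hA', hB', Matrix.mul_neg, Matrix.mul_neg, ← Matrix.mul_assoc, ← Matrix.mul_assoc, hA',
    hB', Matrix.neg_mul, Matrix.neg_mul, Matrix.mul_sub, Matrix.mul_assoc, Matrix.mul_assoc]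
  abel

/-- the Lie algebra as a subspace -/
def spSub (J : Matrix (Fin N) (Fin N) F) : Submodule F (Matrix (Fin N) (Fin N) F) where
  carrier := {X | SpLie J X}
  add_mem' := by
    intro a b ha hb
    simp only [Set.mem_ofPred_eq, SpLie] at *
    rw [Matrix.transpose_add, Matrix.add_mul, Matrix.mul_add]
    have h : aᵀ * J + bᵀ * J + (J * a + J * b) = (aᵀ * J + J * a) + (bᵀ * J + J * b) := by abel
    rw [h, ha, hb, add_zero]
  zero_mem' := by simp [SpLie]
  smul_mem' := by
    intro c a ha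
    simp only [Set.mem_ofPred_eq, SpLie] at *
    rw [Matrix.transpose_smul, Matrix.smul_mul, Matrix.mul_smul, ← smul_add, ha, smul_zero]

theorem mem_spSub {J X : Matrix (Fin N) (Fin N) F} : X ∈ spSub J ↔ SpLie J X := Iff.rfl

/-- ideals are everything -/
theorem ideal_all [CharZero F] {J : Matrix (Fin N) (Fin N) F} (hJ : IsForm J)
    (I : Submodule F (Matrix (Fin N) (Fin N) F))
    (hI : ∀ X, SpLie J X → ∀ Z ∈ I, X * Z - Z * X ∈ I)
    {Z : Matrix (Fin N) (Fin N) F} (hZ : Z ∈ I) (hZs : SpLie J Z) (hZ0 : Z ≠ 0)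
    {X : Matrix (Fin N) (Fin N) F} (hX : SpLie J X) : X ∈ I := by
  obtain ⟨h | h, hdet⟩ := hJ
  · exact so_ideal h.1 hdet h.2 I hI hZ hZs hZ0 hX
  · exact sp_ideal h hdet I hI hZ hZs hZ0 hX

theorem not_prop [CharZero F] {J : Matrix (Fin N) (Fin N) F} (hJ : IsForm J) (hN : 0 < N) :
    ∃ A B : Matrix (Fin N) (Fin N) F, SpLie J A ∧ SpLie J B ∧ A ≠ 0 ∧ ∀ c : F, B ≠ c • A := by
  have hdet := hJ.2
  have hu : IsUnit J.det := isUnit_iff_ne_zero.2 hdet
  have key : ∀ e : F, Jᵀ = e • J → ∀ K L : Matrix (Fin N) (Fin N) F, e • Kᵀ = -K → e • Lᵀ = -L →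
      K ≠ 0 → (∀ c : F, L ≠ c • K) →
      ∃ A B : Matrix (Fin N) (Fin N) F, SpLie J A ∧ SpLie J B ∧ A ≠ 0 ∧ ∀ c : F, B ≠ c • A := by
    intro e hJe K L hK hL hK0 hKL
    have hJK : ∀ M : Matrix (Fin N) (Fin N) F, J * (J⁻¹ * M) = M := fun M => by
      rw [← Matrix.mul_assoc, Matrix.mul_nonsing_inv _ hu, Matrix.one_mul]
    refine ⟨J⁻¹ * K, J⁻¹ * L, sp_inv hdet hJe hK, sp_inv hdet hJe hL, ?_, ?_⟩
    · intro h
      apply hK0
      rw [← hJK K, h, Matrix.mul_zero]
    · intro c h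
      apply hKL c
      rw [← hJK L, h, Matrix.mul_smul, hJK]
  obtain ⟨h | h, -⟩ := hJ
  · obtain ⟨h, h5⟩ := h
    let i0 : Fin N := ⟨0, by omega⟩
    let i1 : Fin N := ⟨1, by omega⟩
    let i2 : Fin N := ⟨2, by omega⟩
    have h01 : i0 ≠ i1 := by simp [i0, i1, Fin.ext_iff]
    have h02 : i0 ≠ i2 := by simp [i0, i2, Fin.ext_iff]
    have h12 : i1 ≠ i2 := by simp [i1, i2, Fin.ext_iff]
    refine key 1 (by rw [one_smul, h])
      (Matrix.single i0 i1 1 - Matrix.single i1 i0 1)
      (Matrix.single i0 i2 1 - Matrix.single i2 i0 1) ?_ ?_ ?_ ?_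
    · rw [one_smul, Matrix.transpose_sub, Matrix.transpose_single, Matrix.transpose_single]
      abel
    · rw [one_smul, Matrix.transpose_sub, Matrix.transpose_single, Matrix.transpose_single]
      abel
    · intro h0
      have := congrFun (congrFun h0 i0) i1
      simp [h01, h01.symm] at this
    · intro c h0
      have := congrFun (congrFun h0 i0) i2
      simp [h01.symm, h02, h02.symm, h12] at this
  · have hN2 : 2 ≤ N := by
      by_contra hlt
      have h1 : N = 1 := by omega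
      subst h1
      apply hdet
      have h2 := congrFun (congrFun h 0) 0
      simp only [Matrix.transpose_apply, Matrix.neg_apply] at h2
      have h3 : (2 : F) * J 0 0 = 0 := by linear_combination h2
      have h4 := (mul_eq_zero.1 h3).resolve_left two_ne_zero
      rw [Matrix.det_fin_one, h4]
    let i0 : Fin N := ⟨0, by omega⟩
    let i1 : Fin N := ⟨1, by omega⟩
    have h01 : i0 ≠ i1 := by simp [i0, i1, Fin.ext_iff]
    refine key (-1) (by rw [neg_one_smul, h]) (Matrix.single i0 i0 1) (Matrix.single i1 i1 1)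
      ?_ ?_ ?_ ?_
    · rw [neg_one_smul, Matrix.transpose_single]
    · rw [neg_one_smul, Matrix.transpose_single]
    · intro h0
      have := congrFun (congrFun h0 i0) i0
      simp at this
    · intro c h0
      have := congrFun (congrFun h0 i1) i1
      simp [h01] at this

/-- the span of the brackets -/
def brs (J : Matrix (Fin N) (Fin N) F) : Submodule F (Matrix (Fin N) (Fin N) F) :=
  Submodule.span F {Z | ∃ A B, SpLie J A ∧ SpLie J B ∧ Z = A * B - B * A}

theorem brs_le (J : Matrix (Fin N) (Fin N) F) : brs J ≤ spSub J := by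
  refine Submodule.span_le.2 ?_
  rintro Z ⟨A, B, hA, hB, rfl⟩
  exact br_sp hA hB

/-- the Lie algebra of a form is perfect -/
theorem perf [CharZero F] {J : Matrix (Fin N) (Fin N) F} (hJ : IsForm J)
    {X : Matrix (Fin N) (Fin N) F} (hX : SpLie J X) : X ∈ brs J := by
  rcases Nat.eq_zero_or_pos N with rfl | hN
  · have : X = 0 := Subsingleton.elim _ _
    rw [this]
    exact Submodule.zero_mem _
  by_cases hz : ∃ Z ∈ brs J, Z ≠ 0
  · obtain ⟨Z, hZ, hZ0⟩ := hz
    refine ideal_all hJ (brs J) ?_ hZ (brs_le J hZ) hZ0 hX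
    intro Y hY W hW
    exact Submodule.subset_span ⟨Y, W, hY, brs_le J hW, rfl⟩
  · exfalso
    push Not at hz
    have hab : ∀ A B, SpLie J A → SpLie J B → A * B - B * A = 0 := fun A B hA hB =>
      hz _ (Submodule.subset_span ⟨A, B, hA, hB, rfl⟩)
    obtain ⟨A, B, hA, hB, hA0, hc⟩ := not_prop hJ hN
    have h1 : B ∈ Submodule.span F {A} := by
      refine ideal_all hJ _ ?_ (Submodule.mem_span_singleton_self A) hA hA0 hB
      intro Y hY W hW
      obtain ⟨c, rfl⟩ := Submodule.mem_span_singleton.1 hW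
      rw [hab Y (c • A) hY ((spSub J).smul_mem c hA)]
      exact Submodule.zero_mem _
    obtain ⟨c, hc'⟩ := Submodule.mem_span_singleton.1 h1
    exact hc c hc'.symm

end perfect

/-- Goursat, Kolchin, Ribet -/
theorem gour : S_GOUR := by
  intro F _ _ ι _ _ N J hJ 𝔤 hbr h1 h2 i X hX
  have hstep : ∀ S : Finset ι, i ∉ S → ∀ X, SpLie (J i) X →
      ∃ Y ∈ 𝔤, Y i = X ∧ ∀ j ∈ S, Y j = 0 := by
    intro S
    induction S using Finset.induction_on with
    | empty =>
      intro _ X hX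
      obtain ⟨Y, hY, hYi⟩ := h1 i X hX
      exact ⟨Y, hY, hYi, by simp⟩
    | insert k S hk ih =>
      intro hi X hX
      have hik : i ≠ k := fun h => hi (by simp [h])
      have hiS : i ∉ S := fun h => hi (by simp [h])
      have hp := perf (hJ i) hX
      unfold brs at hp
      induction hp using Submodule.span_induction with
      | mem Z hZ =>
        obtain ⟨A, B, hA, hB, rfl⟩ := hZ
        obtain ⟨YA, hYA, hYAi, hYA0⟩ := ih hiS A hA
        obtain ⟨YB, hYB, hYBi, hYB0⟩ := h2 i k hik B hB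
        refine ⟨_, hbr YA hYA YB hYB, ?_, ?_⟩
        · simp only [hYAi, hYBi]
        · intro j hj
          rcases Finset.mem_insert.1 hj with rfl | hj
          · simp only [hYB0, Matrix.mul_zero, Matrix.zero_mul, sub_zero]
          · simp only [hYA0 j hj, Matrix.mul_zero, Matrix.zero_mul, sub_zero]
      | zero => exact ⟨0, 𝔤.zero_mem, rfl, fun _ _ => rfl⟩
      | add a b ha hb iha ihb =>
        obtain ⟨Ya, hYa, hYai, hYa0⟩ := iha (brs_le (J i) ha)
        obtain ⟨Yb, hYb, hYbi, hYb0⟩ := ihb (brs_le (J i) hb)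
        refine ⟨Ya + Yb, 𝔤.add_mem hYa hYb, ?_, ?_⟩
        · simp only [Pi.add_apply, hYai, hYbi]
        · intro j hj
          simp only [Pi.add_apply, hYa0 j hj, hYb0 j hj, add_zero]
      | smul c a ha iha =>
        obtain ⟨Ya, hYa, hYai, hYa0⟩ := iha (brs_le (J i) ha)
        refine ⟨c • Ya, 𝔤.smul_mem c hYa, ?_, ?_⟩
        · simp only [Pi.smul_apply, hYai]
        · intro j hj
          simp only [Pi.smul_apply, hYa0 j hj, smul_zero]
  obtain ⟨Y, hY, hYi, hY0⟩ := hstep (Finset.univ.erase i) (by simp) X hX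
  have : Pi.single i X = Y := by
    funext j
    by_cases hj : j = i
    · subst hj
      rw [Pi.single_eq_same, hYi]
    · rw [Pi.single_eq_of_ne hj, hY0 j (by simp [hj])]
  rw [this]
  exact hY

end Pool.Agent.R932.PO
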