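import Pool.Agent.R932.PO.JLieB
import Pool.Agent.Y142.ZS.Stm
import Pool.Agent.Y497.ZO.LogPow

set_option autoImplicit false
set_option linter.unusedSectionVars false
set_option linter.style.haveILetI false

/-!
# Project PO, task HT: killed tensors are Tate classes, core
-/

open Matrix Filter Topology
open Pool.Agent.Y142.ZO Pool.Agent.Y142.ZS

namespace Pool.Agent.R932.PO.HT

noncomputable section

section cont
variable {F : Type} [NormedField F] {k : ℕ} {M : Fin k → ℕ}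

theorem cont_mult (φ : MultilinearMap F (fun t : Fin k => Fin (M t) → F) F) :
    Continuous fun v : (∀ t, Fin (M t) → F) => φ v := by
  classical
  have h1 : ∀ v : (∀ t, Fin (M t) → F), φ v =
      ∑ r : (∀ t, Fin (M t)), (∏ t, v t (r t)) * φ (fun t => Pi.single (r t) 1) := by
    intro v
    have h2 : v = fun t => ∑ j, v t j • (Pi.single j (1 : F) : Fin (M t) → F) := by
      funext t
      exact (pi_eq_sum_univ' (v t))
    conv_lhs => rw [h2]
    rw [MultilinearMap.map_sum]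
    refine Finset.sum_congr rfl fun r _ => ?_
    rw [MultilinearMap.map_smul_univ, smul_eq_mul]
  have h3 : (fun v : (∀ t, Fin (M t) → F) => φ v) = fun v =>
      ∑ r : (∀ t, Fin (M t)), (∏ t, v t (r t)) * φ (fun t => Pi.single (r t) 1) := funext h1
  rw [h3]
  refine continuous_finsetSum _ fun r _ => ?_
  refine Continuous.mul (continuous_finsetProd _ fun t _ => ?_) continuous_const
  exact (continuous_apply (r t)).comp (continuous_apply t)

/-- the derivative of a multilinear form -/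
theorem deriv_mult (φ : MultilinearMap F (fun t : Fin k => Fin (M t) → F) F) {c : ℕ → F}
    (hc0 : ∀ n, c n ≠ 0) (hc : Tendsto c atTop (𝓝 0))
    {g : ℕ → ∀ t, Matrix (Fin (M t)) (Fin (M t)) F} {X : ∀ t, Matrix (Fin (M t)) (Fin (M t)) F}
    (hg : ∀ t, Tendsto (fun n => (c n)⁻¹ • (g n t - 1)) atTop (𝓝 (X t))) (v : ∀ t, Fin (M t) → F) :
    Tendsto (fun n => (c n)⁻¹ * (φ (fun t => g n t *ᵥ v t) - φ v)) atTop
      (𝓝 (∑ t, φ (Function.update v t (X t *ᵥ v t)))) := by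
  classical
  have hg1 : ∀ t, Tendsto (fun n => g n t *ᵥ v t) atTop (𝓝 (v t)) := by
    intro t
    have h1 : Tendsto (fun n => (c n) • ((c n)⁻¹ • (g n t - 1))) atTop (𝓝 ((0 : F) • X t)) :=
      hc.smul (hg t)
    rw [zero_smul] at h1
    have h2 : Tendsto (fun n => g n t) atTop (𝓝 1) := by
      have h3 := h1.add_const (1 : Matrix (Fin (M t)) (Fin (M t)) F)
      rw [zero_add] at h3
      refine h3.congr fun n => ?_
      rw [smul_smul, mul_inv_cancel₀ (hc0 n), one_smul, sub_add_cancel]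
    have h4 : Continuous fun A : Matrix (Fin (M t)) (Fin (M t)) F => A *ᵥ v t :=
      Continuous.matrix_mulVec continuous_id continuous_const
    have h5 := (h4.tendsto 1).comp h2
    rw [one_mulVec] at h5
    exact h5
  have hY : ∀ t, Tendsto (fun n => ((c n)⁻¹ • (g n t - 1)) *ᵥ v t) atTop (𝓝 (X t *ᵥ v t)) := by
    intro t
    have h4 : Continuous fun A : Matrix (Fin (M t)) (Fin (M t)) F => A *ᵥ v t :=
      Continuous.matrix_mulVec continuous_id continuous_const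
    exact (h4.tendsto _).comp (hg t)
  let w : ℕ → Fin k → ∀ t, Fin (M t) → F := fun n i j =>
    if j < i then g n j *ᵥ v j else if j = i then ((c n)⁻¹ • (g n j - 1)) *ᵥ v j else v j
  have h1 : ∀ n, (c n)⁻¹ * (φ (fun t => g n t *ᵥ v t) - φ v) = ∑ i, φ (w n i) := by
    intro n
    have h2 := φ.map_piecewise_sub_map_piecewise (fun t => g n t *ᵥ v t) v v Finset.univ
    rw [Finset.piecewise_univ, Finset.piecewise_univ] at h2
    rw [h2, Finset.mul_sum]
    refine Finset.sum_congr rfl fun i _ => ?_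
    have h3 : (fun j => if j ∈ Finset.univ then if j < i then g n j *ᵥ v j else
        if j = i then g n j *ᵥ v j - v j else v j else v j) =
        Function.update (w n i) i ((c n) • (w n i i)) := by
      funext j
      by_cases hj : j = i
      · subst hj
        rw [Function.update_self, if_pos (Finset.mem_univ _)]
        simp only [w]
        rw [if_neg (lt_irrefl j), if_pos trivial, if_neg (lt_irrefl j), if_pos trivial, smul_mulVec,
          smul_smul, mul_inv_cancel₀ (hc0 n), one_smul, sub_mulVec, one_mulVec]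
      · rw [Function.update_of_ne hj, if_pos (Finset.mem_univ _)]
        simp only [w]
        rw [if_neg hj, if_neg hj]
    rw [h3, MultilinearMap.map_update_smul, Function.update_eq_self, smul_eq_mul, ← mul_assoc,
      inv_mul_cancel₀ (hc0 n), one_mul]
  have h2 : ∀ i, Tendsto (fun n => φ (w n i)) atTop (𝓝 (φ (Function.update v i (X i *ᵥ v i)))) := by
    intro i
    refine ((cont_mult φ).tendsto _).comp (tendsto_pi_nhds.2 fun j => ?_)
    by_cases hj : j < i
    · have h3 : (fun n => w n i j) = fun n => g n j *ᵥ v j := by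
        funext n
        simp only [w]
        rw [if_pos hj]
      rw [h3, Function.update_of_ne hj.ne]
      exact hg1 j
    · by_cases hji : j = i
      · subst hji
        have h3 : (fun n => w n j j) = fun n => ((c n)⁻¹ • (g n j - 1)) *ᵥ v j := by
          funext n
          simp only [w]
          rw [if_neg hj, if_pos trivial]
        rw [h3, Function.update_self]
        exact hY j
      · have h3 : (fun n => w n i j) = fun _ => v j := by
          funext n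
          simp only [w]
          rw [if_neg hj, if_neg hji]
        rw [h3, Function.update_of_ne hji]
        exact tendsto_const_nhds
  exact (tendsto_finsetSum _ fun i _ => h2 i).congr fun n => (h1 n).symm

end cont

section alg
variable {F : Type} [Field F] {k : ℕ} {M : Fin k → ℕ}

/-- the value of the multilinear form with the coefficients `T` -/
def va (T : (∀ t, Fin (M t)) → F) (v : ∀ t, Fin (M t) → F) : F :=
  ∑ r, T r * ∏ t, v t (r t)

/-- the multilinear form with the coefficients `T` -/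
def vaM (T : (∀ t, Fin (M t)) → F) : MultilinearMap F (fun t : Fin k => Fin (M t) → F) F :=
  ∑ r, T r • (MultilinearMap.mkPiAlgebra F (Fin k) F).compLinearMap
    (fun t => LinearMap.proj (r t))

theorem vaM_apply (T : (∀ t, Fin (M t)) → F) (v : ∀ t, Fin (M t) → F) : vaM T v = va T v := by
  unfold vaM va
  rw [_root_.sum_apply]
  refine Finset.sum_congr rfl fun r _ => ?_
  rw [_root_.smul_apply, MultilinearMap.compLinearMap_apply,
    MultilinearMap.mkPiAlgebra_apply, smul_eq_mul]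
  rfl

/-- the tensor product of a family of matrices -/
def kr (g : ∀ t, Matrix (Fin (M t)) (Fin (M t)) F) :
    Matrix (∀ t, Fin (M t)) (∀ t, Fin (M t)) F :=
  fun r' r => ∏ t, g t (r' t) (r t)

theorem kr_one : kr (fun t => (1 : Matrix (Fin (M t)) (Fin (M t)) F)) = 1 := by
  classical
  ext r' r
  unfold kr
  by_cases h : r' = r
  · subst h
    rw [one_apply_eq]
    exact Finset.prod_eq_one fun t _ => one_apply_eq _
  · rw [one_apply_ne h]
    obtain ⟨t, ht⟩ := Function.ne_iff.1 h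
    exact Finset.prod_eq_zero (Finset.mem_univ t) (one_apply_ne ht)

theorem kr_mul (g h : ∀ t, Matrix (Fin (M t)) (Fin (M t)) F) :
    kr (fun t => g t * h t) = kr g * kr h := by
  classical
  ext r' r
  rw [mul_apply]
  unfold kr
  simp only [mul_apply]
  rw [Finset.prod_univ_sum, Fintype.piFinset_univ]
  refine Finset.sum_congr rfl fun s _ => ?_
  rw [Finset.prod_mul_distrib]

theorem va_mulVec (T : (∀ t, Fin (M t)) → F) (g : ∀ t, Matrix (Fin (M t)) (Fin (M t)) F)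
    (v : ∀ t, Fin (M t) → F) : va T (fun t => g t *ᵥ v t) = va (T ᵥ* kr g) v := by
  classical
  unfold va
  have h1 : ∀ r : (∀ t, Fin (M t)), ∏ t, (g t *ᵥ v t) (r t) =
      ∑ s : (∀ t, Fin (M t)), kr g r s * ∏ t, v t (s t) := by
    intro r
    unfold kr
    simp only [mulVec, dotProduct]
    rw [Finset.prod_univ_sum, Fintype.piFinset_univ]
    refine Finset.sum_congr rfl fun s _ => ?_
    rw [Finset.prod_mul_distrib]
  simp only [h1, Finset.mul_sum, vecMul, dotProduct, Finset.sum_mul]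
  rw [Finset.sum_comm]
  refine Finset.sum_congr rfl fun r _ => Finset.sum_congr rfl fun s _ => ?_
  ring

theorem va_single (T : (∀ t, Fin (M t)) → F) (r : ∀ t, Fin (M t)) :
    va T (fun t => Pi.single (r t) 1) = T r := by
  classical
  unfold va
  rw [Finset.sum_eq_single r]
  · rw [Finset.prod_eq_one, mul_one]
    intro t _
    exact Pi.single_eq_same _ _
  · intro s _ hs
    obtain ⟨t, ht⟩ := Function.ne_iff.1 hs
    rw [Finset.prod_eq_zero (Finset.mem_univ t) (Pi.single_eq_of_ne ht _), mul_zero]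
  · intro h
    exact absurd (Finset.mem_univ r) h

theorem va_smul (c : F) (T : (∀ t, Fin (M t)) → F) (v : ∀ t, Fin (M t) → F) :
    va (c • T) v = c * va T v := by
  unfold va
  rw [Finset.mul_sum]
  refine Finset.sum_congr rfl fun r _ => ?_
  rw [Pi.smul_apply, smul_eq_mul, mul_assoc]

end alg

section top
variable {ℓ : ℕ} [hℓ : Fact ℓ.Prime] {ι : Type} [Fintype ι] {N : ι → ℕ}
  {G : Type} [Group G] [TopologicalSpace G] [IsTopologicalGroup G] [CompactSpace G]

/-- the twisted dual tensor representation -/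
def dr (ρ : ∀ i, G →* Matrix (Fin (N i)) (Fin (N i)) ℚ_[ℓ]) (κ : G →* ℚ_[ℓ]) {k : ℕ}
    (a : Fin k → ι) (j : ℕ) :
    G →* Matrix (∀ t, Fin (N (a t))) (∀ t, Fin (N (a t))) ℚ_[ℓ] where
  toFun s := κ s ^ j • (kr fun t => ρ (a t) s⁻¹)ᵀ
  map_one' := by
    simp only [inv_one, map_one, one_pow, one_smul]
    rw [kr_one, transpose_one]
  map_mul' s s' := by
    have h1 : (fun t => ρ (a t) (s * s')⁻¹) = fun t => ρ (a t) s'⁻¹ * ρ (a t) s⁻¹ := by
      funext t
      rw [_root_.mul_inv_rev, map_mul]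
    rw [h1, kr_mul, transpose_mul, map_mul, mul_pow, smul_mul_smul_comm]

theorem dr_apply (ρ : ∀ i, G →* Matrix (Fin (N i)) (Fin (N i)) ℚ_[ℓ]) (κ : G →* ℚ_[ℓ]) {k : ℕ}
    (a : Fin k → ι) (j : ℕ) (s : G) : dr ρ κ a j s = κ s ^ j • (kr fun t => ρ (a t) s⁻¹)ᵀ := rfl

theorem dr_vec (ρ : ∀ i, G →* Matrix (Fin (N i)) (Fin (N i)) ℚ_[ℓ]) (κ : G →* ℚ_[ℓ]) {k : ℕ}
    (a : Fin k → ι) (j : ℕ) (s : G) (T : (∀ t, Fin (N (a t))) → ℚ_[ℓ]) :
    (dr ρ κ a j s *ᵥ T) ᵥ* (kr fun t => ρ (a t) s) = κ s ^ j • T := by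
  have h1 : (kr fun t => ρ (a t) s⁻¹) * (kr fun t => ρ (a t) s) = 1 := by
    rw [← kr_mul]
    have h2 : (fun t => ρ (a t) s⁻¹ * ρ (a t) s) = fun t => 1 := by
      funext t
      rw [← map_mul, inv_mul_cancel, map_one]
    rw [h2, kr_one]
  rw [dr_apply, smul_mulVec, mulVec_transpose, smul_vecMul, vecMul_vecMul, h1, vecMul_one]

theorem dr_cont (ρ : ∀ i, G →* Matrix (Fin (N i)) (Fin (N i)) ℚ_[ℓ]) (hρ : ∀ i, Continuous (ρ i))
    (κ : G →* ℚ_[ℓ]) (hκ : Continuous κ) {k : ℕ} (a : Fin k → ι) (j : ℕ) :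
    Continuous (dr ρ κ a j) := by
  refine continuous_matrix fun r' r => ?_
  have h1 : (fun s => dr ρ κ a j s r' r) = fun s => κ s ^ j * ∏ t, ρ (a t) s⁻¹ (r t) (r' t) := by
    funext s
    rfl
  rw [h1]
  refine (hκ.pow j).mul (continuous_finsetProd _ fun t _ => ?_)
  exact ((hρ (a t)).comp continuous_inv).matrix_elem (r t) (r' t)

theorem ell_ne : (ℓ : ℚ_[ℓ]) ≠ 0 := by exact_mod_cast hℓ.out.ne_zero

theorem pw_ne (n : ℕ) : (ℓ : ℚ_[ℓ]) ^ n ≠ 0 := pow_ne_zero _ ell_ne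

theorem pw_lim : Tendsto (fun n : ℕ => (ℓ : ℚ_[ℓ]) ^ n) atTop (𝓝 0) :=
  tendsto_pow_atTop_nhds_zero_of_norm_lt_one Padic.norm_p_lt_one

theorem mat_lim_one {n : Type} [Fintype n] [DecidableEq n] {g : ℕ → Matrix n n ℚ_[ℓ]} {X : Matrix n n ℚ_[ℓ]}
    (hg : Tendsto (fun m : ℕ => ((ℓ : ℚ_[ℓ]) ^ m)⁻¹ • (g m - 1)) atTop (𝓝 X)) :
    Tendsto g atTop (𝓝 1) := by
  have h1 : Tendsto (fun m : ℕ => (ℓ : ℚ_[ℓ]) ^ m • (((ℓ : ℚ_[ℓ]) ^ m)⁻¹ • (g m - 1))) atTop
      (𝓝 ((0 : ℚ_[ℓ]) • X)) := pw_lim.smul hg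
  rw [zero_smul] at h1
  have h3 := h1.add_const (1 : Matrix n n ℚ_[ℓ])
  rw [zero_add] at h3
  refine h3.congr fun m => ?_
  rw [smul_smul, mul_inv_cancel₀ (pw_ne m), one_smul, sub_add_cancel]

theorem sc_lim_one {μ : ℕ → ℚ_[ℓ]} {x : ℚ_[ℓ]}
    (hg : Tendsto (fun m : ℕ => ((ℓ : ℚ_[ℓ]) ^ m)⁻¹ * (μ m - 1)) atTop (𝓝 x)) :
    Tendsto μ atTop (𝓝 1) := by
  have h1 : Tendsto (fun m : ℕ => (ℓ : ℚ_[ℓ]) ^ m * (((ℓ : ℚ_[ℓ]) ^ m)⁻¹ * (μ m - 1))) atTop
      (𝓝 ((0 : ℚ_[ℓ]) * x)) := pw_lim.mul hg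
  rw [zero_mul] at h1
  have h3 := h1.add_const (1 : ℚ_[ℓ])
  rw [zero_add] at h3
  refine h3.congr fun m => ?_
  rw [← mul_assoc, mul_inv_cancel₀ (pw_ne m), one_mul, sub_add_cancel]

theorem pow_lim {μ : ℕ → ℚ_[ℓ]} {x : ℚ_[ℓ]}
    (hg : Tendsto (fun m : ℕ => ((ℓ : ℚ_[ℓ]) ^ m)⁻¹ * (μ m - 1)) atTop (𝓝 x)) (j : ℕ) :
    Tendsto (fun m : ℕ => ((ℓ : ℚ_[ℓ]) ^ m)⁻¹ * (μ m ^ j - 1)) atTop (𝓝 (j * x)) := by
  have h1 : Tendsto (fun m => ∑ i ∈ Finset.range j, μ m ^ i) atTop
      (𝓝 (∑ i ∈ Finset.range j, (1 : ℚ_[ℓ]) ^ i)) :=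
    tendsto_finsetSum _ fun i _ => (sc_lim_one hg).pow i
  have h2 := hg.mul h1
  have h3 : x * ∑ i ∈ Finset.range j, (1 : ℚ_[ℓ]) ^ i = j * x := by
    simp [mul_comm]
  rw [h3] at h2
  refine h2.congr fun m => ?_
  rw [mul_assoc, mul_geom_sum]

theorem lie_lim {n : ℕ} {J X : Matrix (Fin n) (Fin n) ℚ_[ℓ]} {g : ℕ → Matrix (Fin n) (Fin n) ℚ_[ℓ]}
    {μ : ℕ → ℚ_[ℓ]} {y : ℚ_[ℓ]}
    (hg : Tendsto (fun m : ℕ => ((ℓ : ℚ_[ℓ]) ^ m)⁻¹ • (g m - 1)) atTop (𝓝 X))
    (hμ : Tendsto (fun m : ℕ => ((ℓ : ℚ_[ℓ]) ^ m)⁻¹ * (μ m - 1)) atTop (𝓝 y))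
    (hs : ∀ m, (g m)ᵀ * J * g m = μ m • J) : Xᵀ * J + J * X = y • J := by
  haveI : T2Space (Matrix (Fin n) (Fin n) ℚ_[ℓ]) :=
    inferInstanceAs (T2Space (Fin n → Fin n → ℚ_[ℓ]))
  have hc : Continuous fun A : Matrix (Fin n) (Fin n) ℚ_[ℓ] × Matrix (Fin n) (Fin n) ℚ_[ℓ] =>
      A.1ᵀ * J * A.2 + J * A.1 :=
    ((continuous_fst.matrix_transpose.matrix_mul continuous_const).matrix_mul
      continuous_snd).add (continuous_const.matrix_mul continuous_fst)
  have h1 := (hc.tendsto (X, 1)).comp (hg.prodMk_nhds (mat_lim_one hg))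
  have h2 : Tendsto (fun m : ℕ => (((ℓ : ℚ_[ℓ]) ^ m)⁻¹ * (μ m - 1)) • J) atTop (𝓝 (y • J)) :=
    hμ.smul_const J
  simp only [mul_one] at h1
  refine tendsto_nhds_unique (h1.congr fun m => ?_) h2
  have h3 := hs m
  simp only [Function.comp_apply]
  rw [mul_smul, sub_smul, one_smul, ← h3, transpose_smul, transpose_sub, transpose_one,
    Matrix.smul_mul, Matrix.smul_mul, Matrix.mul_smul, ← smul_add]
  congr 1
  rw [sub_mul, sub_mul, mul_sub, mul_one, one_mul]
  abel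

theorem ht_core (ρ : ∀ i, G →* Matrix (Fin (N i)) (Fin (N i)) ℚ_[ℓ]) (hρ : ∀ i, Continuous (ρ i))
    (J : ∀ i, Matrix (Fin (N i)) (Fin (N i)) ℚ_[ℓ]) (κ : G →* ℚ_[ℓ]) (hκ : Continuous κ)
    (w : ι → ℕ) (hsim : ∀ i g, Sim (J i) (ρ i g) (κ g ^ w i)) (k : ℕ) (a : Fin k → ι) (j : ℕ)
    (hj : ∑ t, w (a t) = 2 * j) (T : (∀ t, Fin (N (a t))) → ℚ_[ℓ])
    (hT : ∀ X : ∀ i, Matrix (Fin (N i)) (Fin (N i)) ℚ_[ℓ], (∀ i, SpLie (J i) (X i)) →
      ∀ v : ∀ t, Fin (N (a t)) → ℚ_[ℓ], ∑ t, va T (Function.update v t (X (a t) *ᵥ v t)) = 0) :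
    ∃ U : Subgroup G, IsOpen (U : Set G) ∧ ∀ σ ∈ U, ∀ v : ∀ t, Fin (N (a t)) → ℚ_[ℓ],
      va T (fun t => ρ (a t) σ *ᵥ v t) = κ σ ^ j * va T v := by
  classical
  let L : ℕ := Fintype.card (∀ t, Fin (N (a t)))
  let e : (∀ t, Fin (N (a t))) ≃ Fin L := Fintype.equivFin _
  let R : G →* Matrix (Fin L) (Fin L) ℚ_[ℓ] :=
    { toFun := fun s => (dr ρ κ a j s).submatrix e.symm e.symm
      map_one' := by rw [map_one, submatrix_one_equiv]
      map_mul' := fun s s' => by rw [map_mul, submatrix_mul_equiv] }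
  have hR : ∀ s, R s = (dr ρ κ a j s).submatrix e.symm e.symm := fun _ => rfl
  have hRc : Continuous R := (dr_cont ρ hρ κ hκ a j).matrix_submatrix _ _
  let κ' : G →* Matrix (Fin 1) (Fin 1) ℚ_[ℓ] :=
    (Matrix.scalar (Fin 1) : ℚ_[ℓ] →+* Matrix (Fin 1) (Fin 1) ℚ_[ℓ]).toMonoidHom.comp κ
  have hκ' : ∀ s, κ' s 0 0 = κ s := fun s => by
    change (Matrix.scalar (Fin 1) (κ s)) 0 0 = κ s
    rw [scalar_apply, diagonal_apply_eq]
  have hκc : Continuous κ' := by
    refine continuous_matrix fun p q => ?_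
    have h0 : (fun s => κ' s p q) = fun s => κ s := by
      funext s
      rw [Subsingleton.elim p 0, Subsingleton.elim q 0, hκ']
    rw [h0]
    exact hκ
  have key : ∀ Z, IsTangent ℓ R Z → Z *ᵥ (T ∘ e.symm) = 0 := by
    intro Z hZ
    let sz : Option (Option ι) → ℕ := fun o => match o with
      | none => L
      | some none => 1
      | some (some i) => N i
    let fam : ∀ o : Option (Option ι), G →* Matrix (Fin (sz o)) (Fin (sz o)) ℚ_[ℓ] := fun o =>
      match o with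
      | none => R
      | some none => κ'
      | some (some i) => ρ i
    have hfam : ∀ o, Continuous (fam o) := fun o => match o with
      | none => hRc
      | some none => hκc
      | some (some i) => hρ i
    obtain ⟨Y, ⟨σ, hσ⟩, hY⟩ := JL.jlift_core fam hfam none Z hZ
    have h1 : Tendsto (fun n : ℕ => ((ℓ : ℚ_[ℓ]) ^ n)⁻¹ • (R (σ n) - 1)) atTop (𝓝 Z) := by
      rw [← hY]
      exact hσ none
    have h2 : Tendsto (fun n : ℕ => ((ℓ : ℚ_[ℓ]) ^ n)⁻¹ • (κ' (σ n) - 1)) atTop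
        (𝓝 (Y (some none))) := hσ (some none)
    have h3 : ∀ i, Tendsto (fun n : ℕ => ((ℓ : ℚ_[ℓ]) ^ n)⁻¹ • (ρ i (σ n) - 1)) atTop
        (𝓝 (Y (some (some i)))) := fun i => hσ (some (some i))
    obtain ⟨x, hx⟩ : ∃ x : ℚ_[ℓ], Tendsto (fun n : ℕ => ((ℓ : ℚ_[ℓ]) ^ n)⁻¹ * (κ (σ n) - 1))
        atTop (𝓝 x) := by
      refine ⟨(Y (some none) : Matrix (Fin 1) (Fin 1) ℚ_[ℓ]) 0 0, ?_⟩
      have h4 := (continuous_id.matrix_elem (0 : Fin 1) (0 : Fin 1)).tendsto _ |>.comp h2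
      refine h4.congr fun n => ?_
      simp only [Function.comp_apply, id]
      rw [Matrix.smul_apply, Matrix.sub_apply, hκ', one_apply_eq, smul_eq_mul]
    obtain ⟨X, hX⟩ : ∃ X : ∀ i, Matrix (Fin (N i)) (Fin (N i)) ℚ_[ℓ], ∀ i,
        Tendsto (fun n : ℕ => ((ℓ : ℚ_[ℓ]) ^ n)⁻¹ • (ρ i (σ n) - 1)) atTop (𝓝 (X i)) :=
      ⟨fun i => Y (some (some i)), h3⟩
    clear hY hσ h2 h3
    -- the Lie algebra
    have h5 : ∀ i, (X i)ᵀ * J i + J i * X i = ((w i : ℚ_[ℓ]) * x) • J i := fun i =>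
      lie_lim (hX i) (pow_lim hx (w i)) fun m => hsim i (σ m)
    let W : ∀ i, Matrix (Fin (N i)) (Fin (N i)) ℚ_[ℓ] := fun i =>
      X i - (((w i : ℚ_[ℓ]) * x) / 2) • (1 : Matrix (Fin (N i)) (Fin (N i)) ℚ_[ℓ])
    have hW : ∀ i, SpLie (J i) (W i) := by
      intro i
      unfold SpLie
      simp only [W]
      rw [transpose_sub, transpose_smul, transpose_one, sub_mul, mul_sub, Matrix.smul_mul,
        Matrix.mul_smul, one_mul, mul_one, sub_add_sub_comm, h5 i, ← add_smul, add_halves, sub_self]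
    have hXW : ∀ i, X i = W i + (((w i : ℚ_[ℓ]) * x) / 2) •
        (1 : Matrix (Fin (N i)) (Fin (N i)) ℚ_[ℓ]) := fun i => by
      simp only [W]
      rw [sub_add_cancel]
    have h6 : ∀ v : ∀ t, Fin (N (a t)) → ℚ_[ℓ],
        ∑ t, vaM T (Function.update v t (X (a t) *ᵥ v t)) = (j * x) * va T v := by
      intro v
      have h7 : ∀ t, vaM T (Function.update v t (X (a t) *ᵥ v t)) =
          va T (Function.update v t (W (a t) *ᵥ v t)) + (((w (a t) : ℚ_[ℓ]) * x) / 2) * va T v := by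
        intro t
        rw [hXW, add_mulVec, smul_mulVec, one_mulVec, MultilinearMap.map_update_add,
          MultilinearMap.map_update_smul, Function.update_eq_self, smul_eq_mul, vaM_apply,
          vaM_apply]
      rw [Finset.sum_congr rfl fun t _ => h7 t, Finset.sum_add_distrib, hT W hW v, zero_add,
        ← Finset.sum_mul, ← Finset.sum_div, ← Finset.sum_mul, ← Nat.cast_sum, hj]
      push_cast
      ring
    -- the limits
    have h8 : ∀ n, R (σ n) *ᵥ (T ∘ e.symm) = (dr ρ κ a j (σ n) *ᵥ T) ∘ e.symm := by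
      intro n
      rw [hR, submatrix_mulVec_equiv]
      congr 2
      funext r
      simp
    have h9 : Tendsto (fun n : ℕ => ((ℓ : ℚ_[ℓ]) ^ n)⁻¹ • (dr ρ κ a j (σ n) *ᵥ T - T)) atTop
        (𝓝 ((Z *ᵥ (T ∘ e.symm)) ∘ e)) := by
      have hc : Continuous fun A : Matrix (Fin L) (Fin L) ℚ_[ℓ] => (A *ᵥ (T ∘ e.symm)) ∘ e :=
        continuous_pi fun r => (continuous_apply (e r)).comp
          (continuous_id.matrix_mulVec continuous_const)
      refine ((hc.tendsto Z).comp h1).congr fun n => ?_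
      simp only [Function.comp_apply]
      rw [smul_mulVec, sub_mulVec, one_mulVec, h8]
      funext r
      simp
    have h10 : Tendsto (fun n : ℕ => kr fun t => ρ (a t) (σ n)) atTop (𝓝 1) := by
      rw [← kr_one]
      refine tendsto_pi_nhds.2 fun r' => tendsto_pi_nhds.2 fun r => ?_
      refine tendsto_finsetProd _ fun t _ => ?_
      exact ((continuous_id.matrix_elem (r' t) (r t)).tendsto _).comp (mat_lim_one (hX (a t)))
    have h11 : Tendsto (fun n : ℕ => (((ℓ : ℚ_[ℓ]) ^ n)⁻¹ • (dr ρ κ a j (σ n) *ᵥ T - T)) ᵥ*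
        (kr fun t => ρ (a t) (σ n))) atTop (𝓝 ((Z *ᵥ (T ∘ e.symm)) ∘ e)) := by
      have hc : Continuous fun A : ((∀ t, Fin (N (a t))) → ℚ_[ℓ]) ×
          Matrix (∀ t, Fin (N (a t))) (∀ t, Fin (N (a t))) ℚ_[ℓ] => A.1 ᵥ* A.2 :=
        continuous_fst.matrix_vecMul continuous_snd
      have h12 := (hc.tendsto _).comp (h9.prodMk_nhds h10)
      simp only [vecMul_one] at h12
      exact h12
    have h13 : ∀ r, ((Z *ᵥ (T ∘ e.symm)) ∘ e) r = 0 := by
      intro r
      let v : ∀ t, Fin (N (a t)) → ℚ_[ℓ] := fun t => Pi.single (r t) 1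
      have hv : ∀ S : (∀ t, Fin (N (a t))) → ℚ_[ℓ], va S v = S r := fun S => va_single S r
      have h14 := deriv_mult (vaM T) (fun n => pw_ne n) pw_lim
        (g := fun n t => ρ (a t) (σ n)) (fun t => hX (a t)) v
      rw [h6 v, hv T] at h14
      have h15 := ((continuous_apply r).tendsto _).comp h11
      have h16 := h15.add h14
      have h17 : Tendsto (fun n : ℕ => (((ℓ : ℚ_[ℓ]) ^ n)⁻¹ * (κ (σ n) ^ j - 1)) * T r) atTop
          (𝓝 (j * x * T r)) := (pow_lim hx j).mul_const _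
      have h18 : ((Z *ᵥ (T ∘ e.symm)) ∘ e) r + j * x * T r = j * x * T r := by
        refine tendsto_nhds_unique (h16.congr fun n => ?_) h17
        simp only [Function.comp_apply]
        rw [vaM_apply, vaM_apply, va_mulVec, hv, hv, smul_vecMul, sub_vecMul, dr_vec,
          Pi.smul_apply, Pi.sub_apply, Pi.smul_apply, smul_eq_mul, smul_eq_mul]
        ring
      linear_combination h18
    funext q
    have h19 := h13 (e.symm q)
    simp only [Function.comp_apply, Equiv.apply_symm_apply] at h19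
    exact h19
  obtain ⟨U, hU, hU2⟩ := Pool.Agent.Y497.ZO.exp ℓ L G R hRc ⊥ (Submodule.span ℚ_[ℓ] {T ∘ e.symm})
    bot_le (by
      intro Z hZ v hv
      obtain ⟨c, rfl⟩ := Submodule.mem_span_singleton.1 hv
      rw [mulVec_smul, key Z hZ, smul_zero]
      exact Submodule.zero_mem _)
  refine ⟨U, hU, fun s hs v => ?_⟩
  have h1 := hU2 s hs (T ∘ e.symm) (Submodule.mem_span_singleton_self _)
  rw [Submodule.mem_bot, sub_eq_zero, hR, submatrix_mulVec_equiv] at h1
  have h2 : dr ρ κ a j s *ᵥ T = T := by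
    funext r
    have h3 := congrFun h1 (e r)
    simp only [Function.comp_apply, Equiv.symm_apply_apply] at h3
    have h4 : (T ∘ e.symm) ∘ e.symm.symm = T := by
      funext r
      simp
    rw [h4] at h3
    exact h3
  have h3 := dr_vec ρ κ a j s T
  rw [h2] at h3
  rw [va_mulVec, h3, va_smul]

end top

end

end Pool.Agent.R932.PO.HT
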