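import Pool.Agent.R932.PO.Stm2
import Pool.Agent.R932.PO.HtA

set_option autoImplicit false

/-!
# Project PO, task HT: killed tensors are Tate classes
-/

namespace Pool.Agent.R932.PO

theorem ht (_hJLIFT : S_JLIFT) : S_HT :=
  fun _ _ _ _ _ _ _ _ _ _ ρ hρ J _ _ κ hκ w hsim k a j hj T hT =>
    HT.ht_core ρ hρ J κ hκ w hsim k a j hj T hT

end Pool.Agent.R932.PO
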