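import Pool.Agent.R932.PO.Stm
import Pool.Agent.Y664.ZS.Opens
import Pool.Agent.R932.IdlSo

/-!
# Project PO (owner helper932), task JOPEN: full joint Lie algebra implies open image

The successive approximation of `Y884/ZI/Open.lean` and `Y664/ZS/Opens.lean` for finite families.
-/

set_option autoImplicit false

open Matrix Filter Topology

namespace Pool.Agent.R932.PO

open Pool.Agent.Y142.ZO Pool.Agent.Y142.ZI Pool.Agent.Y142.ZS Pool.Agent.Y497.ZO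
open Pool.Agent.Y884.ZI (nsub ninv isom_mul)
open Pool.Agent.Y708.ZO (dq eq_of_dq rho_tendsto rho_inv_tendsto tan mem_tan)

/-- task JOPEN with nondegenerate alternating forms or symmetric forms of size at least five -/
def S_JOPEN2 : Prop := ∀ (ℓ : ℕ) [Fact ℓ.Prime] (ι : Type) [Fintype ι] (N : ι → ℕ) (G : Type)
  [Group G] [TopologicalSpace G] [IsTopologicalGroup G] [CompactSpace G]
  (ρ : ∀ i, G →* Matrix (Fin (N i)) (Fin (N i)) ℚ_[ℓ]), (∀ i, Continuous (ρ i)) →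
  ∀ (J : ∀ i, Matrix (Fin (N i)) (Fin (N i)) ℚ_[ℓ]), (∀ i, IsForm (J i)) →
  (∀ i g, ∃ c, Sim (J i) (ρ i g) c) →
  (∀ X : ∀ i, Matrix (Fin (N i)) (Fin (N i)) ℚ_[ℓ], (∀ i, SpLie (J i) (X i)) → JTan ℓ ρ X) →
  ∃ ε : ℝ, 0 < ε ∧ ∀ g : ∀ i, Matrix (Fin (N i)) (Fin (N i)) ℚ_[ℓ],
    (∀ i, (g i)ᵀ * J i * g i = J i) → (∀ i a b, ‖(g i - 1) a b‖ < ε) → ∃ σ, ∀ i, ρ i σ = g i

namespace JO

attribute [local instance] Matrix.normedAddCommGroup Matrix.normedSpace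

section comp

variable {ℓ : ℕ} [Fact ℓ.Prime] {N : ℕ}

local instance ultra : IsUltrametricDist (Mt ℓ N) :=
  inferInstanceAs (IsUltrametricDist (Fin N → Fin N → ℚ_[ℓ]))

local instance prop : ProperSpace (Mt ℓ N) :=
  inferInstanceAs (ProperSpace (Fin N → Fin N → ℚ_[ℓ]))

/-- isometries near `1` are near `1 + ℓ^n X` with `X` in the Lie algebra -/
theorem comp_step (B : Mt ℓ N) (hB : Bᵀ = B ∨ Bᵀ = -B) (hd : B.det ≠ 0) :
    ∃ n2 : ℕ, ∀ n, n2 ≤ n → ∀ g : Mt ℓ N, gᵀ * B * g = B → ‖g - 1‖ ≤ ((ℓ : ℝ) ^ n)⁻¹ →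
      ∃ X : Mt ℓ N, SpLie B X ∧ ‖X‖ ≤ 1 ∧ ‖((ℓ : ℚ_[ℓ]) ^ n)⁻¹ • (g - 1) - X‖ ≤ (ℓ : ℝ)⁻¹ := by
  have hl1 : (1 : ℝ) < ℓ := by exact_mod_cast (Fact.out : ℓ.Prime).one_lt
  have hl0 : (0 : ℝ) < ℓ := lR_pos
  obtain ⟨C, hC⟩ : ∃ C : ℝ, C = ‖(2 : ℚ_[ℓ])⁻¹‖ * (‖B⁻¹‖ * ‖B‖) := ⟨_, rfl⟩
  have hC0 : 0 ≤ C := by
    rw [hC]
    positivity
  obtain ⟨n2, hn2⟩ := pow_unbounded_of_one_lt (ℓ * C) hl1
  refine ⟨n2, fun n hn g hg hg1 => ?_⟩
  have hU : IsUnit B.det := isUnit_iff_ne_zero.2 hd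
  have hBB : B * B⁻¹ = 1 := Matrix.mul_nonsing_inv B hU
  have hBB' : B⁻¹ * B = 1 := Matrix.nonsing_inv_mul B hU
  obtain ⟨Y, hY⟩ : ∃ Y : Mt ℓ N, Y = ((ℓ : ℚ_[ℓ]) ^ n)⁻¹ • (g - 1) := ⟨_, rfl⟩
  have hgY : g = 1 + (ℓ : ℚ_[ℓ]) ^ n • Y := by
    rw [hY, smul_smul, mul_inv_cancel₀ (pow_ne_zero _ l_ne), one_smul]
    abel
  have hY1 : ‖Y‖ ≤ 1 := by
    rw [hY, norm_smul, norm_inv, norm_l_pow, inv_inv]
    calc (ℓ : ℝ) ^ n * ‖g - 1‖ ≤ (ℓ : ℝ) ^ n * ((ℓ : ℝ) ^ n)⁻¹ := by gcongr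
      _ = 1 := mul_inv_cancel₀ (by positivity)
  have hrel : Yᵀ * B + B * Y = -((ℓ : ℚ_[ℓ]) ^ n • (Yᵀ * B * Y)) := by
    have h1 : gᵀ * B * g = B := hg
    rw [hgY, transpose_add, transpose_one, transpose_smul] at h1
    have h2 : (1 + (ℓ : ℚ_[ℓ]) ^ n • Yᵀ) * B * (1 + (ℓ : ℚ_[ℓ]) ^ n • Y) =
        B + (ℓ : ℚ_[ℓ]) ^ n • (Yᵀ * B + B * Y + (ℓ : ℚ_[ℓ]) ^ n • (Yᵀ * B * Y)) := by
      simp only [add_mul, mul_add, one_mul, mul_one, smul_mul_assoc, mul_smul_comm, smul_add]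
      abel
    rw [h2] at h1
    have h3 : (ℓ : ℚ_[ℓ]) ^ n • (Yᵀ * B + B * Y + (ℓ : ℚ_[ℓ]) ^ n • (Yᵀ * B * Y)) = 0 := by
      simpa using h1
    rcases smul_eq_zero.1 h3 with h4 | h4
    · exact absurd h4 (pow_ne_zero _ l_ne)
    · exact eq_neg_of_add_eq_zero_left h4
  obtain ⟨X, hX⟩ : ∃ X : Mt ℓ N, X = (2 : ℚ_[ℓ])⁻¹ • (Y - B⁻¹ * (Yᵀ * B)) := ⟨_, rfl⟩
  have hBX : B * X = (2 : ℚ_[ℓ])⁻¹ • (B * Y - Yᵀ * B) := by
    rw [hX, mul_smul_comm, mul_sub, ← mul_assoc B B⁻¹, hBB, one_mul]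
  have hXs : SpLie B X := by
    unfold SpLie
    have h0 : Xᵀ * B = (Bᵀ * X)ᵀ := by rw [transpose_mul, transpose_transpose]
    rcases hB with hB | hB
    · rw [h0, hB, hBX, transpose_smul, transpose_sub, transpose_mul, transpose_mul,
        transpose_transpose, hB, ← smul_add]
      simp
    · rw [h0, hB, neg_mul, hBX, transpose_neg, transpose_smul, transpose_sub, transpose_mul,
        transpose_mul, transpose_transpose, hB, ← smul_neg, ← smul_add]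
      simp
  have hXY : ‖Y - X‖ ≤ (ℓ : ℝ)⁻¹ := by
    have h1 : Y - X = (2 : ℚ_[ℓ])⁻¹ • (B⁻¹ * (Yᵀ * B + B * Y)) := by
      have h2 : (2 : ℚ_[ℓ])⁻¹ + (2 : ℚ_[ℓ])⁻¹ = 1 := by norm_num
      have h3 : Y = (2 : ℚ_[ℓ])⁻¹ • Y + (2 : ℚ_[ℓ])⁻¹ • Y := by
        rw [← add_smul, h2, one_smul]
      rw [mul_add, ← mul_assoc B⁻¹ B, hBB', one_mul, hX]
      conv_lhs => rw [h3]
      simp only [smul_sub, smul_add, ← add_smul, h2, one_smul]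
      rw [h3]
      simp only [← add_smul, h2, one_smul]
      rw [show (2 : ℚ_[ℓ])⁻¹ • (B⁻¹ * (Yᵀ * B)) + (2 : ℚ_[ℓ])⁻¹ • Y = 
        (2 : ℚ_[ℓ])⁻¹ • (B⁻¹ * (Yᵀ * B)) + (Y - (2 : ℚ_[ℓ])⁻¹ • Y) by
          conv_lhs => rw [← add_sub_cancel_right ((2 : ℚ_[ℓ])⁻¹ • Y) ((2 : ℚ_[ℓ])⁻¹ • Y), ← h3]]
      abel
    rw [h1, hrel, norm_smul]
    have h4 : ‖B⁻¹ * -((ℓ : ℚ_[ℓ]) ^ n • (Yᵀ * B * Y))‖ ≤
        ‖B⁻¹‖ * (((ℓ : ℝ) ^ n)⁻¹ * (1 * ‖B‖ * 1)) := by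
      refine (nmul _ _).trans ?_
      rw [norm_neg, norm_smul, norm_l_pow]
      have h5 : ‖Yᵀ * B * Y‖ ≤ 1 * ‖B‖ * 1 := by
        refine (nmul _ _).trans ?_
        have h6 : ‖Yᵀ * B‖ ≤ 1 * ‖B‖ := by
          refine (nmul _ _).trans ?_
          rw [Matrix.norm_transpose]
          gcongr
        gcongr
      gcongr
    calc ‖(2 : ℚ_[ℓ])⁻¹‖ * ‖B⁻¹ * -((ℓ : ℚ_[ℓ]) ^ n • (Yᵀ * B * Y))‖
        ≤ ‖(2 : ℚ_[ℓ])⁻¹‖ * (‖B⁻¹‖ * (((ℓ : ℝ) ^ n)⁻¹ * (1 * ‖B‖ * 1))) := by gcongr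
      _ = C * ((ℓ : ℝ) ^ n)⁻¹ := by rw [hC]; ring
      _ ≤ (ℓ : ℝ)⁻¹ := by
        have h7 : (ℓ : ℝ) ^ n2 ≤ (ℓ : ℝ) ^ n := pow_le_pow_right₀ hl1.le hn
        rw [mul_inv_le_iff₀ (by positivity), inv_mul_eq_div, le_div_iff₀ hl0]
        linarith
  have hX1 : ‖X‖ ≤ 1 := by
    have h1 : X = Y - (Y - X) := by abel
    rw [h1]
    exact (nsub _ _).trans
      (max_le hY1 (hXY.trans l_inv_lt.le))
  exact ⟨X, hXs, hX1, by rw [← hY]; exact hXY⟩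

/-- the bracket of two elements of the Lie algebra -/
theorem lie_mem {B X Y : Mt ℓ N} (hX : SpLie B X) (hY : SpLie B Y) : SpLie B (X * Y - Y * X) := by
  unfold SpLie at *
  have h1 : Xᵀ * B = -(B * X) := eq_neg_of_add_eq_zero_left hX
  have h2 : Yᵀ * B = -(B * Y) := eq_neg_of_add_eq_zero_left hY
  rw [transpose_sub, transpose_mul, transpose_mul, sub_mul, mul_assoc, mul_assoc, h1, h2,
    mul_neg, mul_neg, ← mul_assoc, ← mul_assoc, h1, h2]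
  noncomm_ring

/-- the Lie algebra is spanned by brackets -/
theorem perfect {B : Mt ℓ N} (hB : IsForm B) (W : Submodule ℚ_[ℓ] (Mt ℓ N))
    (hW : ∀ X Y, SpLie B X → SpLie B Y → X * Y - Y * X ∈ W) {X : Mt ℓ N} (hX : SpLie B X) :
    X ∈ W := by
  obtain ⟨⟨hs, h5⟩ | ha, hd⟩ := hB
  · have hJ : B * B⁻¹ = 1 := Matrix.mul_nonsing_inv B (isUnit_iff_ne_zero.2 hd)
    have hit : (B⁻¹)ᵀ = B⁻¹ := by rw [Matrix.transpose_nonsing_inv, hs]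
    have key : ∀ S : Mt ℓ N, Sᵀ = -S → SpLie B (B⁻¹ * S) := by
      intro S hS
      unfold SpLie
      rw [transpose_mul, hit, hS, mul_assoc, Matrix.nonsing_inv_mul B (isUnit_iff_ne_zero.2 hd),
        ← mul_assoc, hJ, mul_one, one_mul, neg_add_cancel]
    by_cases hab : ∃ A C, SpLie B A ∧ SpLie B C ∧ A * C - C * A ≠ 0
    · obtain ⟨A, C, hA, hC, h0⟩ := hab
      let I : Submodule ℚ_[ℓ] (Mt ℓ N) :=
        Submodule.span ℚ_[ℓ] {Z | ∃ A C, SpLie B A ∧ SpLie B C ∧ Z = A * C - C * A}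
      have hIs : ∀ Z ∈ I, SpLie B Z := by
        intro Z hZ
        induction hZ using Submodule.span_induction with
        | mem Z hZ =>
          obtain ⟨A, C, hA, hC, rfl⟩ := hZ
          exact lie_mem hA hC
        | zero => unfold SpLie; simp
        | add Z Z' _ _ h1 h2 =>
          unfold SpLie at *
          rw [transpose_add, add_mul, mul_add]
          have : Zᵀ * B + Z'ᵀ * B + (B * Z + B * Z') = (Zᵀ * B + B * Z) + (Z'ᵀ * B + B * Z') := by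
            abel
          rw [this, h1, h2, add_zero]
        | smul c Z _ h1 =>
          unfold SpLie at *
          rw [transpose_smul, smul_mul_assoc, mul_smul_comm, ← smul_add, h1, smul_zero]
      have hI1 : X ∈ I := R932.so_ideal hs hd h5 I
        (fun X' hX' Z hZ => Submodule.subset_span ⟨X', Z, hX', hIs Z hZ, rfl⟩)
        (Z := A * C - C * A) (Submodule.subset_span ⟨A, C, hA, hC, rfl⟩) (lie_mem hA hC) h0 hX
      have hIW : I ≤ W := by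
        refine Submodule.span_le.2 ?_
        rintro _ ⟨A, C, hA, hC, rfl⟩
        exact hW A C hA hC
      exact hIW hI1
    · exfalso
      push Not at hab
      obtain ⟨i0, hi0⟩ : ∃ i : Fin N, i = ⟨0, by omega⟩ := ⟨_, rfl⟩
      obtain ⟨i1, hi1⟩ : ∃ i : Fin N, i = ⟨1, by omega⟩ := ⟨_, rfl⟩
      obtain ⟨i2, hi2⟩ : ∃ i : Fin N, i = ⟨2, by omega⟩ := ⟨_, rfl⟩
      have h01 : i0 ≠ i1 := by rw [hi0, hi1]; simp
      have h02 : i0 ≠ i2 := by rw [hi0, hi2]; simp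
      have h12 : i1 ≠ i2 := by rw [hi1, hi2]; simp
      let S1 : Mt ℓ N := Matrix.single i0 i1 1 - Matrix.single i1 i0 1
      let S2 : Mt ℓ N := Matrix.single i0 i2 1 - Matrix.single i2 i0 1
      have hS1 : S1ᵀ = -S1 := by
        simp only [S1, transpose_sub, Matrix.transpose_single]; abel
      have hS2 : S2ᵀ = -S2 := by
        simp only [S2, transpose_sub, Matrix.transpose_single]; abel
      have hZ1 := key S1 hS1
      have hZ2 := key S2 hS2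
      have hne : B⁻¹ * S1 ≠ 0 := by
        intro h0
        have h1 : S1 = B * (B⁻¹ * S1) := by rw [← mul_assoc, hJ, one_mul]
        rw [h0, mul_zero] at h1
        have h2 := congrFun (congrFun h1 i0) i1
        simp [S1, Matrix.single_apply, h01, h01.symm] at h2
      have hmem : B⁻¹ * S2 ∈ Submodule.span ℚ_[ℓ] {B⁻¹ * S1} := by
        refine R932.so_ideal hs hd h5 _ ?_ (Submodule.mem_span_singleton_self _) hZ1 hne hZ2
        intro X' hX' Z hZ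
        obtain ⟨c, rfl⟩ := Submodule.mem_span_singleton.1 hZ
        have h1 := hab X' (B⁻¹ * S1) hX' hZ1
        rw [mul_smul_comm, smul_mul_assoc, ← smul_sub, h1, smul_zero]
        exact Submodule.zero_mem _
      obtain ⟨c, hc⟩ := Submodule.mem_span_singleton.1 hmem
      have h1 : c • S1 = S2 := by
        have h2 := congrArg (fun M => B * M) hc
        simp only [mul_smul_comm] at h2
        rwa [← mul_assoc, ← mul_assoc, hJ, one_mul, one_mul] at h2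
      have h2 := congrFun (congrFun h1 i0) i2
      simp [S1, S2, Matrix.single_apply, h01, h02, h12, h01.symm, h02.symm, h12.symm] at h2
  · exact Pool.Agent.Y664.ZS.sp_le ha hd W (fun A C hA hC => hW A C hA hC) hX

end comp

section fam

variable {ℓ : ℕ} [Fact ℓ.Prime] {ι : Type} [Fintype ι] {N : ι → ℕ}

local instance ultra' (n : ℕ) : IsUltrametricDist (Mt ℓ n) :=
  inferInstanceAs (IsUltrametricDist (Fin n → Fin n → ℚ_[ℓ]))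

local instance prop' (n : ℕ) : ProperSpace (Mt ℓ n) :=
  inferInstanceAs (ProperSpace (Fin n → Fin n → ℚ_[ℓ]))

/-- uniform approximation of the families in the Lie algebras by elements of the group -/
theorem keyF {G : Type} [Group G] (ρ : ∀ i, G →* Mt ℓ (N i)) (J : ∀ i, Mt ℓ (N i))
    (hF : ∀ X : (∀ i, Mt ℓ (N i)), (∀ i, SpLie (J i) (X i)) → JTan ℓ ρ X) :
    ∃ n0 : ℕ, ∀ n, n0 ≤ n → ∀ X : (∀ i, Mt ℓ (N i)), (∀ i, SpLie (J i) (X i)) →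
      (∀ i, ‖X i‖ ≤ 1) →
      ∃ σ : G, ∀ i, ‖ρ i σ - (1 + (ℓ : ℚ_[ℓ]) ^ n • X i)‖ ≤ ((ℓ : ℝ) ^ (n + 1))⁻¹ := by
  have hl : (0 : ℝ) < (ℓ : ℝ)⁻¹ := inv_pos.2 lR_pos
  have h1 : ∀ X : (∀ i, Mt ℓ (N i)), (∀ i, SpLie (J i) (X i)) → ∃ n0 : ℕ, ∀ n, n0 ≤ n →
      ∃ σ : G, ∀ i, ‖((ℓ : ℚ_[ℓ]) ^ n)⁻¹ • (ρ i σ - 1) - X i‖ < (ℓ : ℝ)⁻¹ := by
    intro X hX
    obtain ⟨σ, hσ⟩ := hF X hX
    have h2 : ∀ i, ∃ n0, ∀ n, n0 ≤ n →
        ‖((ℓ : ℚ_[ℓ]) ^ n)⁻¹ • (ρ i (σ n) - 1) - X i‖ < (ℓ : ℝ)⁻¹ := by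
      intro i
      obtain ⟨n0, h3⟩ := Metric.tendsto_atTop.1 (hσ i) (ℓ : ℝ)⁻¹ hl
      refine ⟨n0, fun n hn => ?_⟩
      have h4 := h3 n hn
      rwa [dist_eq_norm] at h4
    choose m hm using h2
    exact ⟨Finset.univ.sup m, fun n hn => ⟨σ n, fun i =>
      hm i n ((Finset.le_sup (Finset.mem_univ i)).trans hn)⟩⟩
  choose! f hf using h1
  have hc : IsCompact (Set.pi Set.univ
      (fun i => {X : Mt ℓ (N i) | SpLie (J i) X} ∩ Metric.closedBall 0 1)) := by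
    refine isCompact_univ_pi fun i => ?_
    refine IsCompact.inter_left (isCompact_closedBall _ _) ?_
    unfold SpLie
    refine isClosed_eq ?_ continuous_const
    exact (continuous_id.matrix_transpose.mul continuous_const).add
      (continuous_const.mul continuous_id)
  obtain ⟨t, ht1, ht2⟩ := hc.elim_nhds_subcover
    (fun X => Set.pi Set.univ (fun i => Metric.ball (X i) (ℓ : ℝ)⁻¹))
    (fun X _ => set_pi_mem_nhds Set.finite_univ (fun i _ => Metric.ball_mem_nhds _ hl))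
  refine ⟨t.sup f, fun n hn X hX hX1 => ?_⟩
  have h2 : X ∈ ⋃ Y ∈ t, Set.pi Set.univ (fun i => Metric.ball (Y i) (ℓ : ℝ)⁻¹) := by
    refine ht2 fun i _ => ⟨hX i, ?_⟩
    rw [mem_closedBall_zero_iff]
    exact hX1 i
  simp only [Set.mem_iUnion] at h2
  obtain ⟨Y, hY, hXY⟩ := h2
  obtain ⟨σ, hσ⟩ := hf Y (fun i => (ht1 Y hY i (Set.mem_univ i)).1) n
    ((Finset.le_sup hY).trans hn)
  refine ⟨σ, fun i => ?_⟩
  have hXYi := hXY i (Set.mem_univ i)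
  rw [Metric.mem_ball, dist_eq_norm] at hXYi
  have h3 : ρ i σ - (1 + (ℓ : ℚ_[ℓ]) ^ n • X i) =
      (ℓ : ℚ_[ℓ]) ^ n • ((((ℓ : ℚ_[ℓ]) ^ n)⁻¹ • (ρ i σ - 1) - Y i) - (X i - Y i)) := by
    rw [sub_sub_sub_cancel_right, smul_sub, smul_smul,
      mul_inv_cancel₀ (pow_ne_zero _ l_ne), one_smul]
    abel
  rw [h3, norm_smul, norm_l_pow, pow_succ, mul_inv]
  refine mul_le_mul_of_nonneg_left ?_ (by positivity)
  exact (nsub _ _).trans (max_le (hσ i).le hXYi.le)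

/-- one step of the successive approximation -/
theorem stepF {G : Type} [Group G] (ρ : ∀ i, G →* Mt ℓ (N i)) (J : ∀ i, Mt ℓ (N i))
    (hJ : ∀ i, (J i)ᵀ = J i ∨ (J i)ᵀ = -J i) (hd : ∀ i, (J i).det ≠ 0)
    (hF : ∀ X : (∀ i, Mt ℓ (N i)), (∀ i, SpLie (J i) (X i)) → JTan ℓ ρ X) :
    ∃ n1 : ℕ, ∀ n, n1 ≤ n → ∀ g : (∀ i, Mt ℓ (N i)), (∀ i, (g i)ᵀ * J i * g i = J i) →
      (∀ i, ‖g i - 1‖ ≤ ((ℓ : ℝ) ^ n)⁻¹) →
      ∃ σ : G, ∀ i, ‖ρ i σ⁻¹ * g i - 1‖ ≤ ((ℓ : ℝ) ^ (n + 1))⁻¹ := by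
  obtain ⟨n0, hn0⟩ := keyF ρ J hF
  have hl1 : (1 : ℝ) < ℓ := by exact_mod_cast (Fact.out : ℓ.Prime).one_lt
  have hl0 : (0 : ℝ) < ℓ := lR_pos
  have h0 := fun i => comp_step (J i) (hJ i) (hd i)
  choose n2 hn2 using h0
  refine ⟨n0 + Finset.univ.sup n2 + 1, fun n hn g hg hg1 => ?_⟩
  have h1 : ∀ i, ∃ X : Mt ℓ (N i), SpLie (J i) X ∧ ‖X‖ ≤ 1 ∧
      ‖((ℓ : ℚ_[ℓ]) ^ n)⁻¹ • (g i - 1) - X‖ ≤ (ℓ : ℝ)⁻¹ := by
    intro i
    refine hn2 i n ?_ (g i) (hg i) (hg1 i)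
    have := Finset.le_sup (f := n2) (Finset.mem_univ i)
    omega
  choose X hX hX1 hXY using h1
  obtain ⟨σ, hσ⟩ := hn0 n (by omega) X hX hX1
  refine ⟨σ, fun i => ?_⟩
  have hgY : g i = 1 + (ℓ : ℚ_[ℓ]) ^ n • (((ℓ : ℚ_[ℓ]) ^ n)⁻¹ • (g i - 1)) := by
    rw [smul_smul, mul_inv_cancel₀ (pow_ne_zero _ l_ne), one_smul]
    abel
  have h1 : ‖ρ i σ - g i‖ ≤ ((ℓ : ℝ) ^ (n + 1))⁻¹ := by
    have h2 : ρ i σ - g i = (ρ i σ - (1 + (ℓ : ℚ_[ℓ]) ^ n • X i)) -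
        (ℓ : ℚ_[ℓ]) ^ n • (((ℓ : ℚ_[ℓ]) ^ n)⁻¹ • (g i - 1) - X i) := by
      conv_lhs => rw [hgY]
      rw [smul_sub ((ℓ : ℚ_[ℓ]) ^ n) (((ℓ : ℚ_[ℓ]) ^ n)⁻¹ • (g i - 1)) (X i)]
      abel
    rw [h2]
    refine (nsub _ _).trans (max_le (hσ i) ?_)
    rw [norm_smul, norm_l_pow, pow_succ, mul_inv]
    have := hXY i
    gcongr
  have h2 : ‖ρ i σ - 1‖ < 1 := by
    have h3 : ρ i σ - 1 = (ρ i σ - g i) + (g i - 1) := by abel
    rw [h3]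
    refine (IsUltrametricDist.norm_add_le_max _ _).trans_lt (max_lt ?_ ?_)
    · refine h1.trans_lt ?_
      exact inv_lt_one_of_one_lt₀ (one_lt_pow₀ hl1 (by omega))
    · refine (hg1 i).trans_lt ?_
      exact inv_lt_one_of_one_lt₀ (one_lt_pow₀ hl1 (by omega))
  have h3 : ρ i σ⁻¹ * ρ i σ = 1 := by rw [← map_mul, inv_mul_cancel, map_one]
  have h4 : ρ i σ⁻¹ * g i - 1 = -(ρ i σ⁻¹ * (ρ i σ - g i)) := by
    rw [mul_sub, h3]
    abel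
  rw [h4, norm_neg]
  calc ‖ρ i σ⁻¹ * (ρ i σ - g i)‖ ≤ ‖ρ i σ⁻¹‖ * ‖ρ i σ - g i‖ := nmul _ _
    _ ≤ 1 * ((ℓ : ℝ) ^ (n + 1))⁻¹ := by
      gcongr
      exact ninv h3 h2
    _ = _ := one_mul _

/-- the case of isometries -/
theorem openF {G : Type} [Group G] [TopologicalSpace G] [IsTopologicalGroup G] [CompactSpace G]
    (ρ : ∀ i, G →* Mt ℓ (N i)) (hρ : ∀ i, Continuous (ρ i)) (J : ∀ i, Mt ℓ (N i))
    (hJ : ∀ i, (J i)ᵀ = J i ∨ (J i)ᵀ = -J i) (hd : ∀ i, (J i).det ≠ 0)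
    (hI : ∀ g i, (ρ i g)ᵀ * J i * ρ i g = J i)
    (hF : ∀ X : (∀ i, Mt ℓ (N i)), (∀ i, SpLie (J i) (X i)) → JTan ℓ ρ X) :
    ∃ ε : ℝ, 0 < ε ∧ ∀ g : (∀ i, Mt ℓ (N i)), (∀ i, (g i)ᵀ * J i * g i = J i) →
      (∀ i a b, ‖(g i - 1) a b‖ < ε) → ∃ σ, ∀ i, ρ i σ = g i := by
  obtain ⟨n1, hn1⟩ := stepF ρ J hJ hd hF
  have hl1 : (1 : ℝ) < ℓ := by exact_mod_cast (Fact.out : ℓ.Prime).one_lt
  have hl0 : (0 : ℝ) < ℓ := by linarith
  refine ⟨((ℓ : ℝ) ^ n1)⁻¹, by positivity, fun g hg hg1 => ?_⟩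
  have h1 : ∀ k : ℕ, ∃ σ : G, ∀ i, ‖ρ i σ⁻¹ * g i - 1‖ ≤ ((ℓ : ℝ) ^ (n1 + k))⁻¹ := by
    intro k
    induction k with
    | zero =>
      refine ⟨1, fun i => ?_⟩
      rw [inv_one, map_one, one_mul, add_zero, Matrix.norm_le_iff (by positivity)]
      exact fun a b => (hg1 i a b).le
    | succ k ih =>
      obtain ⟨σ, hσ⟩ := ih
      obtain ⟨τ, hτ⟩ := hn1 (n1 + k) (by omega) (fun i => ρ i σ⁻¹ * g i)
        (fun i => isom_mul (hI _ i) (hg i)) hσ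
      refine ⟨σ * τ, fun i => ?_⟩
      rw [_root_.mul_inv_rev, map_mul, mul_assoc]
      exact hτ i
  let F : ℕ → Set G := fun k => {σ | ∀ i, ‖ρ i σ⁻¹ * g i - 1‖ ≤ ((ℓ : ℝ) ^ (n1 + k))⁻¹}
  have hFc : ∀ k, IsClosed (F k) := by
    intro k
    have : F k = ⋂ i, {σ : G | ‖ρ i σ⁻¹ * g i - 1‖ ≤ ((ℓ : ℝ) ^ (n1 + k))⁻¹} := by
      ext σ; simp [F]
    rw [this]
    refine isClosed_iInter fun i => ?_
    refine isClosed_le ?_ continuous_const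
    exact ((((hρ i).comp continuous_inv).mul continuous_const).sub continuous_const).norm
  have hne : (⋂ k, F k).Nonempty := by
    refine IsCompact.nonempty_iInter_of_sequence_nonempty_isCompact_isClosed F ?_ ?_ ?_ hFc
    · intro k σ hσ i
      refine (hσ i).trans ?_
      have : (ℓ : ℝ) ^ (n1 + k) ≤ (ℓ : ℝ) ^ (n1 + (k + 1)) := pow_le_pow_right₀ hl1.le (by omega)
      gcongr
    · intro k
      obtain ⟨σ, hσ⟩ := h1 k
      exact ⟨σ, hσ⟩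
    · exact (hFc 0).isCompact
  obtain ⟨σ, hσ⟩ := hne
  rw [Set.mem_iInter] at hσ
  refine ⟨σ, fun i => ?_⟩
  have h5 : ρ i σ⁻¹ * g i - 1 = 0 := by
    rw [← norm_eq_zero]
    refine le_antisymm ?_ (norm_nonneg _)
    refine le_of_forall_pos_le_add fun ε hε => ?_
    obtain ⟨k, hk⟩ := pow_unbounded_of_one_lt (1 / ε) hl1
    refine (hσ k i).trans ?_
    rw [zero_add]
    have h7 : (ℓ : ℝ) ^ k ≤ (ℓ : ℝ) ^ (n1 + k) := pow_le_pow_right₀ hl1.le (by omega)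
    have h8 : (0 : ℝ) < (ℓ : ℝ) ^ (n1 + k) := by positivity
    rw [inv_le_comm₀ h8 hε]
    rw [one_div] at hk
    linarith
  have h6 : ρ i σ⁻¹ * g i = 1 := sub_eq_zero.1 h5
  calc ρ i σ = ρ i σ * (ρ i σ⁻¹ * g i) := by rw [h6, mul_one]
    _ = g i := by rw [← mul_assoc, ← map_mul, mul_inv_cancel, map_one, one_mul]

section sub

variable {G : Type} [Group G] (ρ : ∀ i, G →* Mt ℓ (N i)) (J : ∀ i, Mt ℓ (N i))

/-- the elements whose images preserve all forms -/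
def G1F : Subgroup G := ⨅ i, Pool.Agent.Y664.ZS.G1 (ρ i) (J i)

theorem mem_G1F (g : G) : g ∈ G1F ρ J ↔ ∀ i, (ρ i g)ᵀ * J i * ρ i g = J i := by
  unfold G1F
  rw [Subgroup.mem_iInf]
  rfl

variable {ρ J}

theorem comm_memF (hI : ∀ i g, ∃ c, Sim (J i) (ρ i g) c) (a b : G) :
    a * b * a⁻¹ * b⁻¹ ∈ G1F ρ J := by
  unfold G1F
  rw [Subgroup.mem_iInf]
  exact fun i => Pool.Agent.Y664.ZS.comm_mem (hI i) a b

/-- the restrictions -/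
noncomputable def rhoF (ρ : ∀ i, G →* Mt ℓ (N i)) (J : ∀ i, Mt ℓ (N i)) :
    ∀ i, G1F ρ J →* Mt ℓ (N i) := fun i => (ρ i).comp (G1F ρ J).subtype

/-- brackets of joint tangent vectors are tangent to the image of the subgroup -/
theorem tangent_bracketF (hI : ∀ i g, ∃ c, Sim (J i) (ρ i g) c) {X Y : ∀ i, Mt ℓ (N i)}
    (hX : JTan ℓ ρ X) (hY : JTan ℓ ρ Y) :
    JTan ℓ (rhoF ρ J) (fun i => X i * Y i - Y i * X i) := by
  obtain ⟨σ, hσ⟩ := hX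
  obtain ⟨τ, hτ⟩ := hY
  have t1 : Tendsto (fun m : ℕ => m / 2) atTop atTop := Nat.tendsto_div_const_atTop (by norm_num)
  have t2 : Tendsto (fun m : ℕ => m - m / 2) atTop atTop :=
    tendsto_atTop_mono (fun m => by omega) t1
  refine ⟨fun m => ⟨σ (m / 2) * τ (m - m / 2) * (σ (m / 2))⁻¹ * (τ (m - m / 2))⁻¹,
    comm_memF hI _ _⟩, fun i => ?_⟩
  have hρσ := rho_tendsto (ρ i) (hσ i)
  have hρτ := rho_tendsto (ρ i) (hτ i)
  have hiσ := rho_inv_tendsto (ρ i) hρσ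
  have hiτ := rho_inv_tendsto (ρ i) hρτ
  have h1 := (((Tendsto.mul ((hσ i).comp t1) ((hτ i).comp t2)).sub
    (Tendsto.mul ((hτ i).comp t2) ((hσ i).comp t1))).mul (hiσ.comp t1)).mul (hiτ.comp t2)
  rw [mul_one, mul_one] at h1
  refine h1.congr fun m => ?_
  simp only [Function.comp_apply]
  obtain ⟨a, ha⟩ : ∃ a, a = σ (m / 2) := ⟨_, rfl⟩
  obtain ⟨b, hb⟩ : ∃ b, b = τ (m - m / 2) := ⟨_, rfl⟩
  rw [← ha, ← hb]
  have e1 : ρ i b * ρ i a * ρ i a⁻¹ * ρ i b⁻¹ = 1 := by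
    rw [← map_mul, ← map_mul, ← map_mul]
    have : b * a * a⁻¹ * b⁻¹ = 1 := by group
    rw [this, map_one]
  have e2 : rhoF ρ J i ⟨a * b * a⁻¹ * b⁻¹, comm_memF hI a b⟩ =
      ρ i a * ρ i b * ρ i a⁻¹ * ρ i b⁻¹ := by
    show ρ i (a * b * a⁻¹ * b⁻¹) = _
    rw [map_mul, map_mul, map_mul]
  have e3 : ((ℓ : ℚ_[ℓ]) ^ m)⁻¹ = ((ℓ : ℚ_[ℓ]) ^ (m / 2))⁻¹ * ((ℓ : ℚ_[ℓ]) ^ (m - m / 2))⁻¹ := by
    rw [← mul_inv, ← pow_add]
    congr 2
    omega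
  rw [e2, e3]
  have e4 : ρ i a * ρ i b * ρ i a⁻¹ * ρ i b⁻¹ - 1 =
      ((ρ i a - 1) * (ρ i b - 1) - (ρ i b - 1) * (ρ i a - 1)) * ρ i a⁻¹ * ρ i b⁻¹ := by
    have e5 : (ρ i a - 1) * (ρ i b - 1) - (ρ i b - 1) * (ρ i a - 1) =
        ρ i a * ρ i b - ρ i b * ρ i a := by
      noncomm_ring
    rw [e5, sub_mul, sub_mul, e1]
  rw [e4]
  generalize ρ i a - 1 = A
  generalize ρ i b - 1 = B
  generalize ((ℓ : ℚ_[ℓ]) ^ (m / 2))⁻¹ = c
  generalize ((ℓ : ℚ_[ℓ]) ^ (m - m / 2))⁻¹ = d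
  rw [smul_mul_smul_comm, smul_mul_smul_comm, mul_comm d c, ← smul_sub, smul_mul_assoc,
    smul_mul_assoc]

theorem spLie_zero (n : ℕ) (B : Mt ℓ n) : SpLie B 0 := by
  unfold SpLie; simp

/-- the Lie algebra of the subgroup is full -/
theorem full_G1F (hJL : S_JLIE) (hJ : ∀ i, IsForm (J i))
    (hI : ∀ i g, ∃ c, Sim (J i) (ρ i g) c)
    (hF : ∀ X : (∀ i, Mt ℓ (N i)), (∀ i, SpLie (J i) (X i)) → JTan ℓ ρ X) 
    (X : ∀ i, Mt ℓ (N i)) (hX : ∀ i, SpLie (J i) (X i)) : JTan ℓ (rhoF ρ J) X := by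
  classical
  obtain ⟨𝔤, h1, -, -⟩ := hJL ℓ ι N (G1F ρ J) (rhoF ρ J)
  have h2 : ∀ i, Pi.single i (X i) ∈ 𝔤 := by
    intro i
    let W : Submodule ℚ_[ℓ] (Mt ℓ (N i)) :=
      𝔤.comap (LinearMap.single ℚ_[ℓ] (fun j => Mt ℓ (N j)) i)
    have h3 : X i ∈ W := by
      refine perfect (hJ i) W ?_ (hX i)
      intro A C hA hC
      show LinearMap.single ℚ_[ℓ] (fun j => Mt ℓ (N j)) i (A * C - C * A) ∈ 𝔤
      have hs : ∀ D : Mt ℓ (N i), SpLie (J i) D →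
          ∀ j, SpLie (J j) ((Pi.single i D : ∀ j, Mt ℓ (N j)) j) := by
        intro D hD j
        by_cases hj : j = i
        · subst hj; rw [Pi.single_eq_same]; exact hD
        · rw [Pi.single_eq_of_ne hj]; exact spLie_zero _ _
      have h4 := (h1 _).2 (tangent_bracketF hI (hF (Pi.single i A) (hs A hA))
        (hF (Pi.single i C) (hs C hC)))
      have h5 : (fun j => (Pi.single i A : ∀ j, Mt ℓ (N j)) j * (Pi.single i C : ∀ j, Mt ℓ (N j)) j -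
          (Pi.single i C : ∀ j, Mt ℓ (N j)) j * (Pi.single i A : ∀ j, Mt ℓ (N j)) j) =
          LinearMap.single ℚ_[ℓ] (fun j => Mt ℓ (N j)) i (A * C - C * A) := by
        funext j
        by_cases hj : j = i
        · subst hj; simp
        · simp [Pi.single_eq_of_ne hj]
      rw [← h5]
      exact h4
    exact h3
  have h3 : X = ∑ i, Pi.single i (X i) := by
    funext j
    rw [Finset.sum_apply]
    rw [Finset.sum_eq_single j]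
    · rw [Pi.single_eq_same]
    · intro i _ hij; rw [Pi.single_eq_of_ne hij.symm]
    · intro h; exact absurd (Finset.mem_univ j) h
  refine (h1 X).1 ?_
  rw [h3]
  exact Submodule.sum_mem _ fun i _ => h2 i

end sub

end fam

end JO

open JO in
/-- task JOPEN -/
theorem jopen (hJL : S_JLIE) : S_JOPEN2 := by
  intro ℓ _ ι _ N G _ _ _ _ ρ hρ J hJ hI hF
  have hcl : IsClosed (G1F ρ J : Set G) := by
    have : (G1F ρ J : Set G) = ⋂ i, {g : G | (ρ i g)ᵀ * J i * ρ i g = J i} := by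
      ext g
      rw [SetLike.mem_coe, mem_G1F]
      simp
    rw [this]
    refine isClosed_iInter fun i => ?_
    refine isClosed_eq ?_ continuous_const
    exact ((hρ i).matrix_transpose.mul continuous_const).mul (hρ i)
  have : CompactSpace (G1F ρ J) := isCompact_iff_compactSpace.1 hcl.isCompact
  have hJ' : ∀ i, (J i)ᵀ = J i ∨ (J i)ᵀ = -J i := by
    intro i
    rcases (hJ i).1 with h | h
    · exact Or.inl h.1
    · exact Or.inr h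
  obtain ⟨ε, hε, h⟩ := openF (rhoF ρ J) (fun i => (hρ i).comp continuous_subtype_val) J hJ'
    (fun i => (hJ i).2) (fun g => (mem_G1F ρ J g.1).1 g.2)
    (fun X hX => full_G1F hJL hJ hI hF X hX)
  refine ⟨ε, hε, fun g hg hg1 => ?_⟩
  obtain ⟨σ, hσ⟩ := h g hg hg1
  exact ⟨σ.1, hσ⟩

end Pool.Agent.R932.PO
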