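import Pool.Agent.R932.PO.Stm

/-!
Project PO (owner helper932): local types in the orthogonal case, even dimension. Written by helper552.
-/

set_option autoImplicit false
set_option maxHeartbeats 400000

open Matrix Polynomial Filter Topology NumberField IsDedekindDomain
open Pool.Agent.Y142.ZO Pool.Agent.Y142.ZI Pool.Agent.Y142.ZS Pool.Agent.Y142.ZD
open Pool.Agent.R932.OP

namespace Pool.Agent.R932.PO

namespace LtE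

variable {ℓ : ℕ} [hℓ : Fact ℓ.Prime]

lemma ltype_of {N : ℕ} (hN : 0 < N) {J : Matrix (Fin N) (Fin N) ℚ_[ℓ]} (h2 : ℓ ≠ 2) (hJ : Jᵀ = J)
    (hdet : J.det ≠ 0) {T : Matrix (Fin N) (Fin N) ℚ_[ℓ]} (hT : Skew J T) {R₀ : ℚ_[ℓ][X]}
    (hTR : T.charpoly = R₀) (hsep : R₀.Separable) (heven : R₀.comp (-X) = R₀)
    {Con : ℚ_[ℓ][X] → Prop} (hCon : ∀ Q, RootBij ℓ R₀ Q → Con Q) : LType ℓ J Con := by
  obtain ⟨T', ε, k₀, hT', hε, h⟩ := lte_of Pool.Agent.Y331.ZD.t h2 hT hTR hsep heven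
  obtain ⟨δ, k₁, hδ, h'⟩ := chare ℓ N hN J T' hdet ε hε
  refine ⟨T', δ, max k₀ k₁, ?_, hδ, fun k g c hk hg hc hgT => ?_⟩
  · have h1 : (J * T')ᵀ = -(J * T') := hT'
    rw [transpose_mul, hJ] at h1
    unfold SpLie
    rw [h1]
    simp
  · have hc1 := hc hJ
    have hiso : Isom J g := by
      have h1 : gᵀ * J * g = c • J := hg
      rw [hc1, one_smul] at h1
      exact h1
    obtain ⟨h3, h4⟩ := h' k g (le_trans (le_max_right _ _) hk) hiso hgT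
    exact hCon _ (h k _ (le_trans (le_max_left _ _) hk) (charpoly_monic g)
      (by rw [charpoly_natDegree_eq_dim, Fintype.card_fin]) h4 h3)

lemma ram_of {m : ℕ} (h2 : ℓ ≠ 2) {u₁ s₁ c₂ : ℚ_[ℓ]} (hu₁ : ‖u₁‖ = (ℓ : ℝ)⁻¹) (hs₁ : s₁ ≠ 0)
    {A : Matrix (Fin m) (Fin m) ℚ_[ℓ]} (Q : ℚ_[ℓ][X])
    (hQ : RootBij ℓ (RA (u₁ * s₁ ^ 2) c₂ A) Q) : Ram ℓ Q := by
  obtain ⟨-, hdist, -, φ, hφ1, hφ2, hφ3, -, hφ5⟩ := hQ
  refine ⟨hdist, fun τ r hr hτ => ?_⟩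
  have hℓne : (ℓ : ℚ_[ℓ]) ≠ 0 := by exact_mod_cast hℓ.out.ne_zero
  obtain ⟨x₀, hx₀⟩ := IsAlgClosed.exists_pow_nat_eq
    (algebraMap ℚ_[ℓ] (AlgebraicClosure ℚ_[ℓ]) (u₁ * s₁ ^ 2)) (n := 2) (by norm_num)
  have hroot : aeval x₀ (RA (u₁ * s₁ ^ 2) c₂ A) = 0 := by
    rw [aeval_RA]; exact Or.inl hx₀
  have hr0 : r ≠ 0 := by
    rintro rfl
    exact hτ (map_zero τ)
  have hs' : algebraMap ℚ_[ℓ] (AlgebraicClosure ℚ_[ℓ]) s₁ ≠ 0 := by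
    intro h
    exact hs₁ ((algebraMap ℚ_[ℓ] (AlgebraicClosure ℚ_[ℓ])).injective (by rw [h, map_zero]))
  set y := x₀ / (r * algebraMap ℚ_[ℓ] _ s₁) with hy
  have hy2 : y ^ 2 = algebraMap ℚ_[ℓ] _ (u₁ / ℓ) := by
    rw [hy, div_pow, mul_pow, hx₀, hr, ← map_pow, ← map_mul, ← map_div₀]
    congr 1
    field_simp
  have hyN : y ∈ NR ℓ := by
    refine (nr ℓ).2.2 2 (u₁ / ℓ) _ (by norm_num) ?_ ?_ hy2
    · intro hd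
      have h3 := (Nat.prime_dvd_prime_iff_eq hℓ.out Nat.prime_two).1 hd
      exact h2 h3
    · rw [norm_div, hu₁, Padic.norm_p, div_self]
      have := hℓ.out.pos
      positivity
  have hx : x₀ = y * (r * algebraMap ℚ_[ℓ] _ s₁) := by
    rw [hy, div_mul_cancel₀]
    exact mul_ne_zero hr0 hs'
  have hx00 : y ≠ 0 := by
    intro h
    rw [h] at hy2
    have h3 : algebraMap ℚ_[ℓ] (AlgebraicClosure ℚ_[ℓ]) (u₁ / ℓ) = 0 := by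
      rw [← hy2]; simp
    have h4 : u₁ / ℓ = 0 := (algebraMap ℚ_[ℓ] (AlgebraicClosure ℚ_[ℓ])).injective
      (by rw [h3, map_zero])
    have h5 : u₁ = 0 := by
      rcases div_eq_zero_iff.1 h4 with h | h
      · exact h
      · exact absurd h hℓne
    rw [h5, norm_zero] at hu₁
    have h6 := hℓ.out.pos
    have : (0 : ℝ) < (ℓ : ℝ)⁻¹ := by positivity
    linarith
  have hτx : τ x₀ ≠ x₀ := by
    rw [hx, map_mul, map_mul, tau_alg, tau_NR τ hyN]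
    intro h
    apply hτ
    have h3 := mul_left_cancel₀ hx00 h
    exact mul_right_cancel₀ hs' h3
  refine ⟨φ x₀, hφ1 _ hroot, fun h => ?_⟩
  have h3 := hφ5 (τ.restrictScalars ℚ_[ℓ]) x₀ hroot
  have h4 : (τ.restrictScalars ℚ_[ℓ]) (φ x₀) = φ x₀ := h
  rw [h4] at h3
  have h5 : aeval ((τ.restrictScalars ℚ_[ℓ]) x₀) (RA (u₁ * s₁ ^ 2) c₂ A) = 0 := by
    rw [aeval_algEquiv, AlgHom.comp_apply, hroot]
    simp
  exact hτx (hφ2 _ _ h5 hroot h3)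

/-- roots of `X^2 - u s^2`, `u` a unit, are fixed -/
lemma fix_of (h2 : ℓ ≠ 2) {u s : ℚ_[ℓ]} (hu : ‖u‖ = 1) (hs : s ≠ 0)
    (τ : AlgebraicClosure ℚ_[ℓ] ≃ₐ[NR ℓ] AlgebraicClosure ℚ_[ℓ]) {z : AlgebraicClosure ℚ_[ℓ]}
    (hz : z ^ 2 = algebraMap ℚ_[ℓ] _ (u * s ^ 2)) : τ z = z := by
  have hw' : algebraMap ℚ_[ℓ] (AlgebraicClosure ℚ_[ℓ]) s ≠ 0 := by
    intro h
    exact hs ((algebraMap ℚ_[ℓ] (AlgebraicClosure ℚ_[ℓ])).injective (by rw [h, map_zero]))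
  have h5 : (z / algebraMap ℚ_[ℓ] _ s) ^ 2 = algebraMap ℚ_[ℓ] _ u := by
    rw [div_pow, hz, map_mul, map_pow, mul_div_assoc, div_self (pow_ne_zero _ hw'), mul_one]
  have h6 : z / algebraMap ℚ_[ℓ] _ s ∈ NR ℓ := by
    refine (nr ℓ).2.2 2 u _ (by norm_num) ?_ hu h5
    intro hd
    have h3 := (Nat.prime_dvd_prime_iff_eq hℓ.out Nat.prime_two).1 hd
    exact h2 h3
  have h7 : z = algebraMap ℚ_[ℓ] _ s * (z / algebraMap ℚ_[ℓ] _ s) := by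
    field_simp
  rw [h7, map_mul, tau_alg, tau_NR τ h6]

lemma unram_of {m : ℕ} (h2 : ℓ ≠ 2) {u₁ s₁ u₂ s₂ : ℚ_[ℓ]} (hu₁ : ‖u₁‖ = 1) (hs₁ : s₁ ≠ 0)
    (hu₂ : ‖u₂‖ = 1) (hs₂ : s₂ ≠ 0)
    {A : Matrix (Fin m) (Fin m) ℚ_[ℓ]} (hA : A.charpoly = P3 ℓ m) (Q : ℚ_[ℓ][X])
    (hQ : RootBij ℓ (RA (u₁ * s₁ ^ 2) (u₂ * s₂ ^ 2) A) Q) : Unram ℓ Q := by
  obtain ⟨-, -, -, φ, -, -, hφ3, -, hφ5⟩ := hQ
  intro τ x hx
  obtain ⟨r, hr, rfl⟩ := hφ3 x hx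
  have hfix : τ r = r := by
    have hr' := hr
    rw [aeval_RA, hA, aeval_P3, aeval_P3] at hr'
    rcases hr' with h | h | ⟨j, _, h⟩ | ⟨j, _, h⟩
    · exact fix_of h2 hu₁ hs₁ τ h
    · exact fix_of h2 hu₂ hs₂ τ h
    · rw [h, tau_alg]
    · have : τ (-r) = -r := by rw [h, tau_alg]
      rw [map_neg] at this
      exact neg_injective this
  have h3 := hφ5 (τ.restrictScalars ℚ_[ℓ]) r hr
  have h4 : (τ.restrictScalars ℚ_[ℓ]) r = r := hfix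
  rw [h4] at h3
  exact h3.symm

lemma sep_unit {m : ℕ} {u₁ u₂ : ℚ_[ℓ]} (hu₁ : ‖u₁‖ = 1) (hu₂ : ‖u₂‖ = 1)
    {A : Matrix (Fin m) (Fin m) ℚ_[ℓ]} (hA : A.charpoly = P3 ℓ m) :
    (RA (u₁ * 1 ^ 2) (u₂ * ((ℓ : ℚ_[ℓ]) ^ 2) ^ 2) A).Separable := by
  have hl0 : (0 : ℝ) < (ℓ : ℝ) := by exact_mod_cast hℓ.out.pos
  have hl1 : (1 : ℝ) < (ℓ : ℝ) := by exact_mod_cast hℓ.out.one_lt
  have hℓne : (ℓ : ℚ_[ℓ]) ≠ 0 := by exact_mod_cast hℓ.out.ne_zero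
  have hinv : (ℓ : ℝ)⁻¹ < 1 := inv_lt_one_of_one_lt₀ hl1
  have hinv0 : 0 < (ℓ : ℝ)⁻¹ := by positivity
  have hn1 : ‖u₁ * (1 : ℚ_[ℓ]) ^ 2‖ = ((ℓ : ℝ)⁻¹) ^ 0 := by
    rw [one_pow, mul_one, pow_zero, hu₁]
  have hn2 : ‖u₂ * ((ℓ : ℚ_[ℓ]) ^ 2) ^ 2‖ = ((ℓ : ℝ)⁻¹) ^ 4 := by
    rw [norm_mul, hu₂, norm_pow, norm_pow, Padic.norm_p]; ring
  have hn3 : ∀ j : ℕ, ‖((ℓ : ℚ_[ℓ]) ^ (2 * j + 4)) ^ 2‖ = ((ℓ : ℝ)⁻¹) ^ (4 * j + 8) := by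
    intro j
    rw [norm_pow, norm_pow, Padic.norm_p, ← pow_mul]
    congr 1; ring
  have hinj := pow_right_injective₀ hinv0 hinv.ne
  have hu₁0 : u₁ ≠ 0 := by rintro rfl; rw [norm_zero] at hu₁; linarith
  have hu₂0 : u₂ ≠ 0 := by rintro rfl; rw [norm_zero] at hu₂; linarith
  refine sep_RA (by simpa using hu₁0) (mul_ne_zero hu₂0 (by positivity)) ?_
    (by rw [hA]; exact sep_P3 m) ?_ ?_
  · intro h
    rw [h, hn2] at hn1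
    have := hinj hn1
    omega
  · intro z hz
    rw [hA, aeval_P3] at hz
    obtain ⟨j, _, rfl⟩ := hz
    constructor
    · intro h
      rw [← map_pow] at h
      have h3 := (algebraMap ℚ_[ℓ] (AlgebraicClosure ℚ_[ℓ])).injective h
      have h4 := hn3 j
      rw [h3, hn1] at h4
      have := hinj h4
      omega
    · intro h
      rw [← map_pow] at h
      have h3 := (algebraMap ℚ_[ℓ] (AlgebraicClosure ℚ_[ℓ])).injective h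
      have h4 := hn3 j
      rw [h3, hn2] at h4
      have := hinj h4
      omega
  · intro z hz hz'
    rw [hA, aeval_P3] at hz hz'
    obtain ⟨j, _, hz⟩ := hz
    obtain ⟨i, _, hz'⟩ := hz'
    have h0 : ((ℓ ^ (2 * j + 4) + ℓ ^ (2 * i + 4) : ℕ) : AlgebraicClosure ℚ_[ℓ]) = 0 := by
      have h1 : algebraMap ℚ_[ℓ] (AlgebraicClosure ℚ_[ℓ]) ((ℓ : ℚ_[ℓ]) ^ (2 * j + 4)) +
          algebraMap ℚ_[ℓ] (AlgebraicClosure ℚ_[ℓ]) ((ℓ : ℚ_[ℓ]) ^ (2 * i + 4)) = 0 := by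
        rw [← hz, ← hz']; ring
      rw [map_pow, map_pow, map_natCast] at h1
      push_cast
      exact h1
    have h1 : ℓ ^ (2 * j + 4) + ℓ ^ (2 * i + 4) = 0 := by exact_mod_cast h0
    have h2 : 0 < ℓ ^ (2 * j + 4) := pow_pos hℓ.out.pos _
    omega

end LtE

open LtE in
theorem lte : S_LTE := by
  intro ℓ hℓ h2 N hNe hN J hJ hdet hev
  obtain ⟨m, hm0, hm⟩ : ∃ m, 0 < m ∧ N = 2 * m + 4 := by
    obtain ⟨k, hk⟩ := hNe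
    exact ⟨k - 2, by omega, by omega⟩
  obtain ⟨⟨u₁, u₂, hu₁, hu₂, h⟩, ⟨v₁, v₂, hv₁, hv₂, h'⟩⟩ := fdb ℓ h2 m N hm J hJ hdet hev
  constructor
  · obtain ⟨s₁, s₂, A, hs₁, hs₂, hsep, -, -, -⟩ := typd3 ℓ h2 m hm0 u₁ u₂ hu₁ hu₂
    obtain ⟨T, hT, hTc⟩ := h s₁ s₂ A hs₁ hs₂
    exact ltype_of (by omega) h2 hJ hdet hT hTc hsep (even_RA _ _ A)
      fun Q hQ => ram_of h2 hu₁ hs₁ Q hQ
  · have hℓne : (ℓ : ℚ_[ℓ]) ≠ 0 := by exact_mod_cast hℓ.out.ne_zero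
    obtain ⟨A, hA⟩ := Pool.Agent.Y547.ZI.t2 ℚ_[ℓ] m (P3 ℓ m) (P3_monic m).1 (P3_monic m).2
    obtain ⟨T, hT, hTc⟩ := h' 1 ((ℓ : ℚ_[ℓ]) ^ 2) A one_ne_zero (pow_ne_zero _ hℓne)
    exact ltype_of (by omega) h2 hJ hdet hT hTc (sep_unit hv₁ hv₂ hA) (even_RA _ _ A)
      fun Q hQ => unram_of h2 hv₁ one_ne_zero hv₂ (pow_ne_zero _ hℓne) hA Q hQ

end Pool.Agent.R932.PO
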