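import Pool.Agent.R932.PO.Stm
import Pool.Agent.R932.OP.KCore
import Pool.Agent.R932.OP.Nr
import Pool.Agent.R499.OP.Form
import Pool.Agent.Y949.ZI.Char
import Pool.Agent.Y331.ZD.Krq
import Pool.Agent.Y547.ZI.Nice

set_option autoImplicit false

/-! Project PO, task LTO: local types in the orthogonal case, odd dimension (helper361). -/

open Matrix Polynomial Filter Topology NumberField IsDedekindDomain
open Pool.Agent.Y142.ZO Pool.Agent.Y142.ZI Pool.Agent.Y142.ZS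
open Pool.Agent.Y142.ZD (DistPow NR)

open Pool.Agent.Y142.ZD (RootBij)
open Pool.Agent.Y331.ZD (norm_map root_aut)
open Pool.Agent.R932.OP (pm prod_pm pm_norm pm_ne)

namespace Pool.Agent.R932.PO

section lto
variable {ℓ : ℕ} [hℓ : Fact ℓ.Prime]

theorem lto_poly (m : ℕ) :
    ∃ A : Matrix (Fin m) (Fin m) ℚ_[ℓ], ∀ c : ℚ_[ℓ], c ≠ 0 →
      (∀ n : ℕ, ‖c‖ ≠ ((ℓ : ℝ)⁻¹) ^ (2 * (n + 1))) →
      ((X ^ 2 - C c) * A.charpoly * (-A).charpoly).Monic ∧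
      ((X ^ 2 - C c) * A.charpoly * (-A).charpoly).natDegree = 2 * m + 2 ∧
      ((X ^ 2 - C c) * A.charpoly * (-A).charpoly).Separable ∧
      ((X ^ 2 - C c) * A.charpoly * (-A).charpoly).comp (-X) =
        (X ^ 2 - C c) * A.charpoly * (-A).charpoly ∧
      (∀ x : AlgebraicClosure ℚ_[ℓ], aeval x ((X ^ 2 - C c) * A.charpoly * (-A).charpoly) = 0 →
        x ≠ 0 ∧ (x ^ 2 = algebraMap ℚ_[ℓ] (AlgebraicClosure ℚ_[ℓ]) c ∨
          ∃ a : ℚ_[ℓ], x = algebraMap ℚ_[ℓ] (AlgebraicClosure ℚ_[ℓ]) a)) := by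
  classical
  set L := AlgebraicClosure ℚ_[ℓ] with hL
  have hnorm : ∀ x : ℚ_[ℓ], ‖algebraMap ℚ_[ℓ] L x‖ = ‖x‖ := norm_map
  have hℓ1 : (1 : ℝ) < ℓ := by exact_mod_cast hℓ.out.one_lt
  have hℓ0 : (0 : ℝ) < ℓ := by linarith
  have hmon : (∏ j : Fin m, (X - C ((ℓ : ℚ_[ℓ]) ^ ((j : ℕ) + 1)))).Monic :=
    monic_prod_of_monic _ _ fun j _ => monic_X_sub_C _
  have hdeg : (∏ j : Fin m, (X - C ((ℓ : ℚ_[ℓ]) ^ ((j : ℕ) + 1)))).natDegree = m := by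
    rw [natDegree_prod_of_monic _ _ fun j _ => monic_X_sub_C _,
      Finset.sum_congr rfl fun j _ => natDegree_X_sub_C _]
    simp
  obtain ⟨A, hA⟩ := Pool.Agent.Y547.ZI.t2 ℚ_[ℓ] m _ hmon hdeg
  have hA' : (-A).charpoly = ∏ j : Fin m, (X + C ((ℓ : ℚ_[ℓ]) ^ ((j : ℕ) + 1))) := by
    rw [Pool.Agent.Y405.ZI.charpoly_neg', hA, prod_comp]
    have h1 : ((-1 : ℚ_[ℓ][X]) ^ m) = ∏ _j : Fin m, (-1 : ℚ_[ℓ][X]) := by
      rw [Finset.prod_const, Finset.card_univ, Fintype.card_fin]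
    rw [h1, ← Finset.prod_mul_distrib]
    refine Finset.prod_congr rfl fun j _ => ?_
    rw [sub_comp, X_comp, C_comp]
    ring
  refine ⟨A, fun c hc0 hc => ?_⟩
  -- the roots
  obtain ⟨γ, hγ⟩ := IsAlgClosed.exists_pow_nat_eq (algebraMap ℚ_[ℓ] L c) (show 0 < 2 by norm_num)
  have hγn : ‖γ‖ ^ 2 = ‖c‖ := by rw [← norm_pow, hγ, hnorm]
  let a : Option (Fin m) → L := fun o =>
    o.elim γ (fun j => algebraMap ℚ_[ℓ] L ((ℓ : ℚ_[ℓ]) ^ ((j : ℕ) + 1)))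
  have haS : ∀ j : Fin m, ‖a (some j)‖ = ((ℓ : ℝ)⁻¹) ^ ((j : ℕ) + 1) := by
    intro j
    show ‖algebraMap ℚ_[ℓ] L ((ℓ : ℚ_[ℓ]) ^ ((j : ℕ) + 1))‖ = _
    rw [hnorm, norm_pow, Padic.norm_p]
  have haN : ‖a none‖ ^ 2 = ‖c‖ := hγn
  have hinv1 : (ℓ : ℝ)⁻¹ < 1 := inv_lt_one_of_one_lt₀ hℓ1
  have hinv0 : 0 < (ℓ : ℝ)⁻¹ := inv_pos.2 hℓ0
  have hpinj : Function.Injective (fun n : ℕ => ((ℓ : ℝ)⁻¹) ^ n) :=
    (pow_right_strictAnti₀ hinv0 hinv1).injective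
  have hainj : ∀ i i', ‖a i‖ = ‖a i'‖ → i = i' := by
    have hNS : ∀ j : Fin m, ‖a none‖ ≠ ‖a (some j)‖ := by
      intro j h
      have h1 := haN
      rw [h, haS, ← pow_mul, mul_comm] at h1
      exact hc _ h1.symm
    rintro (_ | j) (_ | j') h
    · rfl
    · exact absurd h (hNS j')
    · exact absurd h.symm (hNS j)
    · rw [haS, haS] at h
      have h4 := hpinj h
      simp only [add_left_inj] at h4
      rw [Fin.ext h4]
  have ha0 : ∀ i, a i ≠ 0 := by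
    rintro (_ | j) h
    · rw [h, norm_zero] at haN
      norm_num at haN
      exact hc0 (norm_eq_zero.1 haN.symm)
    · have := haS j
      rw [h, norm_zero] at this
      exact (pow_pos hinv0 _).ne this
  have h2L : (2 : L) ≠ 0 := by norm_num
  have hbinj : Function.Injective (pm a) := by
    rintro ⟨i, s⟩ ⟨i', s'⟩ h
    have h1 : i = i' := hainj _ _ (by
      have := congrArg norm h
      rwa [pm_norm, pm_norm] at this)
    subst h1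
    have h4 : a i ≠ -(a i) := by
      intro h5
      have h6 : (2 : L) * a i = 0 := by linear_combination h5
      rcases mul_eq_zero.1 h6 with h7 | h7
      · exact h2L h7
      · exact ha0 i h7
    cases s <;> cases s'
    · rfl
    · simp only [pm] at h
      exact absurd h.symm h4
    · simp only [pm] at h
      exact absurd h h4
    · rfl
  have hR : ((X ^ 2 - C c) * A.charpoly * (-A).charpoly).map (algebraMap ℚ_[ℓ] L) =
      ∏ p, (X - C (pm a p)) := by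
    rw [prod_pm, Fintype.prod_option, hA, hA', mul_assoc, ← Finset.prod_mul_distrib,
      Polynomial.map_mul, Polynomial.map_prod]
    congr 1
    · rw [Polynomial.map_sub, Polynomial.map_pow, map_X, map_C, ← hγ]
      show X ^ 2 - C (γ ^ 2) = (X - C γ) * (X + C γ)
      rw [C_pow]
      ring
    · refine Finset.prod_congr rfl fun j _ => ?_
      rw [Polynomial.map_mul, Polynomial.map_sub, Polynomial.map_add, map_X, map_C]
      rfl
  have hmon2 : (X ^ 2 - C c : ℚ_[ℓ][X]).Monic := monic_X_pow_sub_C _ (by norm_num)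
  have hmonic : ((X ^ 2 - C c) * A.charpoly * (-A).charpoly).Monic :=
    (hmon2.mul (charpoly_monic A)).mul (charpoly_monic (-A))
  refine ⟨hmonic, ?_, ?_, ?_, ?_⟩
  · rw [(hmon2.mul (charpoly_monic A)).natDegree_mul (charpoly_monic (-A)),
      hmon2.natDegree_mul (charpoly_monic A), charpoly_natDegree_eq_dim, charpoly_natDegree_eq_dim,
      natDegree_X_pow_sub_C, Fintype.card_fin]
    ring
  · refine (separable_map (algebraMap ℚ_[ℓ] L)).mp ?_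
    rw [hR]
    exact (separable_prod_X_sub_C_iff (f := pm a)).mpr hbinj
  · rw [mul_assoc, mul_comp, hA, hA', ← Finset.prod_mul_distrib, prod_comp]
    congr 1
    · rw [sub_comp, pow_comp, X_comp, C_comp]
      ring
    · refine Finset.prod_congr rfl fun j _ => ?_
      rw [mul_comp, sub_comp, add_comp, X_comp, C_comp]
      ring
  · intro x hx
    rw [aeval_def, ← eval_map, hR, eval_prod, Finset.prod_eq_zero_iff] at hx
    obtain ⟨⟨o, s⟩, -, h1⟩ := hx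
    rw [eval_sub, eval_X, eval_C, sub_eq_zero] at h1
    refine ⟨?_, ?_⟩
    · rw [h1]
      exact pm_ne a ha0 _
    · rcases o with _ | j
      · left
        rw [h1, ← hγ]
        cases s
        · show (-γ) ^ 2 = γ ^ 2
          ring
        · rfl
      · right
        cases s
        · refine ⟨-((ℓ : ℚ_[ℓ]) ^ ((j : ℕ) + 1)), ?_⟩
          rw [h1, map_neg]
          rfl
        · exact ⟨(ℓ : ℚ_[ℓ]) ^ ((j : ℕ) + 1), h1⟩

theorem lto_bij (h2 : ℓ ≠ 2) {N : ℕ} (hN : Odd N) {J T : Matrix (Fin N) (Fin N) ℚ_[ℓ]}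
    (hJ : Jᵀ = J) (hdet : J.det ≠ 0) {R₀ : ℚ_[ℓ][X]} (hT : T.charpoly = X * R₀) (hm : R₀.Monic)
    (hsep : R₀.Separable) (heven : R₀.comp (-X) = R₀) (hdeg : R₀.natDegree = N - 1) :
    ∃ (δ : ℝ) (k₀ : ℕ), 0 < δ ∧
      ∀ (k : ℕ) (g : Matrix (Fin N) (Fin N) ℚ_[ℓ]) (c : ℚ_[ℓ]), k₀ ≤ k → Sim J g c →
      (Jᵀ = J → c = 1) →
      (∀ a b, ‖((((ℓ : ℚ_[ℓ]) ^ k)⁻¹ • (g - 1)) - T) a b‖ < δ) →
      ∃ Q : ℚ_[ℓ][X], g.charpoly = (X - 1) * Q ∧ RootBij ℓ R₀ Q := by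
  obtain ⟨ε, k₁, hε, H⟩ := Pool.Agent.Y331.ZD.t ℓ h2 R₀ hm hsep heven
  obtain ⟨δ, k₂, hδ, H2⟩ := Pool.Agent.Y949.ZI.t ℓ h2 N hN J T R₀ hJ hdet hT ε hε
  refine ⟨δ, max k₁ k₂, hδ, fun k g c hk hg hc hcl => ?_⟩
  have hg' : Isom J g := by
    have h1 : gᵀ * J * g = c • J := hg
    rw [hc hJ, one_smul] at h1
    exact h1
  obtain ⟨Q, hQ1, hQ2, -, hQ4, hQ5, hQ6⟩ := H2 k g ((le_max_right _ _).trans hk) hg' hcl
  refine ⟨Q, hQ1, H k Q ((le_max_left _ _).trans hk) hQ2 ?_ hQ6 hQ5⟩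
  rw [resc_natDegree] at hQ4
  rw [hQ4, hdeg]

/-- automorphisms over the maximal unramified extension, as automorphisms over `ℚ_ℓ` -/
theorem lto_res (τ : AlgebraicClosure ℚ_[ℓ] ≃ₐ[NR ℓ] AlgebraicClosure ℚ_[ℓ]) :
    ∃ τ' : AlgebraicClosure ℚ_[ℓ] ≃ₐ[ℚ_[ℓ]] AlgebraicClosure ℚ_[ℓ], ∀ x, τ' x = τ x :=
  ⟨AlgEquiv.restrictScalars ℚ_[ℓ] τ, fun _ => rfl⟩

theorem lto_fix (τ : AlgebraicClosure ℚ_[ℓ] ≃ₐ[NR ℓ] AlgebraicClosure ℚ_[ℓ])
    {x : AlgebraicClosure ℚ_[ℓ]} (hx : x ∈ NR ℓ) : τ x = x := by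
  have h2 : x = algebraMap (NR ℓ) (AlgebraicClosure ℚ_[ℓ]) ⟨x, hx⟩ := rfl
  rw [h2, τ.commutes]

theorem lto_unram (h2 : ℓ ≠ 2) {R₀ Q : ℚ_[ℓ][X]} {c : ℚ_[ℓ]} (hc : ‖c‖ = 1)
    (hR : ∀ x : AlgebraicClosure ℚ_[ℓ], aeval x R₀ = 0 →
      x ≠ 0 ∧ (x ^ 2 = algebraMap ℚ_[ℓ] (AlgebraicClosure ℚ_[ℓ]) c ∨
        ∃ a : ℚ_[ℓ], x = algebraMap ℚ_[ℓ] (AlgebraicClosure ℚ_[ℓ]) a))
    (hQ : RootBij ℓ R₀ Q) : Unram ℓ ((X - 1) * Q) := by
  intro τ x hx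
  obtain ⟨τ', hτ'⟩ := lto_res τ
  rw [map_mul, mul_eq_zero] at hx
  rcases hx with hx | hx
  · rw [map_sub, aeval_X, map_one, sub_eq_zero] at hx
    rw [hx, map_one]
  obtain ⟨-, -, -, φ, -, -, h3, -, h5⟩ := hQ
  obtain ⟨r, hr, rfl⟩ := h3 x hx
  have hr' : r ∈ NR ℓ := by
    rcases (hR r hr).2 with h6 | ⟨a, h6⟩
    · refine (Pool.Agent.R932.OP.nr ℓ).2.2 2 c r (by norm_num) ?_ hc h6
      intro h7
      exact h2 ((Nat.prime_dvd_prime_iff_eq hℓ.out Nat.prime_two).1 h7)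
    · rw [h6]
      exact (NR ℓ).algebraMap_mem a
  rw [← hτ', ← h5 τ' r hr, hτ', lto_fix τ hr']

theorem lto_ram (h2 : ℓ ≠ 2) {R₀ Q : ℚ_[ℓ][X]} {c : ℚ_[ℓ]} (hc : ‖c‖ = (ℓ : ℝ)⁻¹)
    (hR : ∀ x : AlgebraicClosure ℚ_[ℓ], aeval x R₀ = 0 → x ≠ 0)
    (hRc : (X ^ 2 - C c) ∣ R₀) (heven : R₀.comp (-X) = R₀)
    (hQ : RootBij ℓ R₀ Q) : Ram ℓ ((X - 1) * Q) := by
  obtain ⟨-, h1, -, φ, h2', h3, h4, h5, h6⟩ := hQ
  have hneg : ∀ r : AlgebraicClosure ℚ_[ℓ], aeval r R₀ = 0 → aeval (-r) R₀ = 0 := by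
    intro r hr
    rw [← heven, aeval_comp, map_neg, aeval_X, neg_neg]
    exact hr
  have hL2 : (2 : AlgebraicClosure ℚ_[ℓ]) ≠ 0 := by norm_num
  have hne : ∀ (j : ℕ) (y : AlgebraicClosure ℚ_[ℓ]), 0 < j → aeval y Q = 0 → y ^ j ≠ 1 := by
    intro j y hj hy hyj
    obtain ⟨r, hr, rfl⟩ := h4 y hy
    have h7 : φ (-r) = φ r := by
      refine h1 j _ _ hj (h2' _ (hneg r hr)) (h2' r hr) ?_
      rw [h5 r hr, inv_pow, hyj, inv_one]
    have h8 := h3 _ _ (hneg r hr) hr h7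
    apply hR r hr
    have h9 : (2 : AlgebraicClosure ℚ_[ℓ]) * r = 0 := by linear_combination -h8
    exact (mul_eq_zero.1 h9).resolve_left hL2
  refine ⟨?_, ?_⟩
  · intro j x y hj hx hy hxy
    rw [map_mul, mul_eq_zero, map_sub, aeval_X, map_one, sub_eq_zero] at hx hy
    rcases hx with hx | hx <;> rcases hy with hy | hy
    · rw [hx, hy]
    · rw [hx, one_pow] at hxy
      exact absurd hxy.symm (hne j y hj hy)
    · rw [hy, one_pow] at hxy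
      exact absurd hxy (hne j x hj hx)
    · exact h1 j x y hj hx hy hxy
  · intro τ r hr hτr
    obtain ⟨τ', hτ'⟩ := lto_res τ
    obtain ⟨s, hs⟩ := IsAlgClosed.exists_pow_nat_eq
      (algebraMap ℚ_[ℓ] (AlgebraicClosure ℚ_[ℓ]) c) (show 0 < 2 by norm_num)
    have hsR : aeval s R₀ = 0 := by
      obtain ⟨S, hS⟩ := hRc
      rw [hS, map_mul, map_sub, map_pow, aeval_X, aeval_C, hs, sub_self, zero_mul]
    have hs0 : s ≠ 0 := hR s hsR
    have hτs : τ s ≠ s := by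
      intro h
      have h7 : r / s ∈ NR ℓ := by
        refine (Pool.Agent.R932.OP.nr ℓ).2.2 2 ((ℓ : ℚ_[ℓ]) / c) (r / s) (by norm_num) ?_ ?_ ?_
        · intro h7
          exact h2 ((Nat.prime_dvd_prime_iff_eq hℓ.out Nat.prime_two).1 h7)
        · rw [norm_div, hc, Padic.norm_p, div_self]
          exact inv_ne_zero (by exact_mod_cast hℓ.out.ne_zero)
        · rw [div_pow, hr, hs, map_div₀]
      apply hτr
      have h8 : r = r / s * s := by field_simp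
      rw [h8, map_mul, lto_fix τ h7, h]
    refine ⟨φ s, ?_, ?_⟩
    · rw [map_mul, h2' s hsR, mul_zero]
    · rw [← hτ', ← h6 τ' s hsR, hτ']
      intro h7
      have h8 : aeval (τ s) R₀ = 0 := by
        rw [← hτ']
        exact root_aut τ' hsR
      exact hτs (h3 _ _ h8 hsR h7)

end lto

theorem lto (hF : S_FORM1U) : S_LTO := by
  intro ℓ hℓ h2 N hN hN3 J hJ hdet
  obtain ⟨m, rfl⟩ : ∃ m, N = 2 * m + 3 := by
    obtain ⟨j, hj⟩ := hN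
    exact ⟨j - 1, by omega⟩
  have hsk : ∀ T, Skew J T → SpLie J T := by
    intro T hT
    unfold Skew at hT
    unfold SpLie
    rw [transpose_mul, hJ] at hT
    rw [hT, neg_add_cancel]
  have hℓ1 : (1 : ℝ) < ℓ := by exact_mod_cast hℓ.out.one_lt
  have hinv1 : (ℓ : ℝ)⁻¹ < 1 := inv_lt_one_of_one_lt₀ hℓ1
  have hinv0 : 0 < (ℓ : ℝ)⁻¹ := inv_pos.2 (by linarith)
  have hpinj : Function.Injective (fun n : ℕ => ((ℓ : ℝ)⁻¹) ^ n) :=
    (pow_right_strictAnti₀ hinv0 hinv1).injective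
  obtain ⟨A, hA⟩ := lto_poly (ℓ := ℓ) m
  constructor
  · obtain ⟨T, c, hT, hc, hch⟩ := Pool.Agent.R499.OP.form1 ℓ h2 m J hJ hdet A
    have hc0 : c ≠ 0 := by
      rintro rfl
      rw [norm_zero] at hc
      exact hinv0.ne hc
    obtain ⟨a1, a2, a3, a4, a5⟩ := hA c hc0 (by
      intro n h
      rw [hc] at h
      have h3 : (fun n : ℕ => ((ℓ : ℝ)⁻¹) ^ n) 1 = (fun n : ℕ => ((ℓ : ℝ)⁻¹) ^ n) (2 * (n + 1)) := by
        simp only [pow_one]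
        exact h
      have h4 := hpinj h3
      omega)
    obtain ⟨δ, k₀, hδ, H⟩ := lto_bij h2 hN hJ hdet hch a1 a3 a4 (by rw [a2]; omega)
    refine ⟨T, δ, k₀, hsk T hT, hδ, fun k g c' hk hg hc' hcl => ?_⟩
    obtain ⟨Q, hQ, hb⟩ := H k g c' hk hg hc' hcl
    rw [hQ]
    exact lto_ram h2 hc (fun x hx => (a5 x hx).1) ⟨A.charpoly * (-A).charpoly, by ring⟩ a4 hb
  · obtain ⟨u, hu, hform⟩ := hF ℓ h2 m J hJ hdet
    obtain ⟨T, hT, hch⟩ := hform 1 A one_ne_zero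
    rw [one_pow, mul_one] at hch
    have hu0 : u ≠ 0 := by
      rintro rfl
      rw [norm_zero] at hu
      exact zero_ne_one hu
    obtain ⟨a1, a2, a3, a4, a5⟩ := hA u hu0 (by
      intro n h
      rw [hu] at h
      have h3 : (fun n : ℕ => ((ℓ : ℝ)⁻¹) ^ n) 0 = (fun n : ℕ => ((ℓ : ℝ)⁻¹) ^ n) (2 * (n + 1)) := by
        simp only [pow_zero]
        exact h
      have h4 := hpinj h3
      omega)
    obtain ⟨δ, k₀, hδ, H⟩ := lto_bij h2 hN hJ hdet hch a1 a3 a4 (by rw [a2]; omega)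
    refine ⟨T, δ, k₀, hsk T hT, hδ, fun k g c' hk hg hc' hcl => ?_⟩
    obtain ⟨Q, hQ, hb⟩ := H k g c' hk hg hc' hcl
    rw [hQ]
    exact lto_unram h2 hu a5 hb

end Pool.Agent.R932.PO
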