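import Pool.Agent.R932.PO.Stm
import Pool.Agent.Y331.ZD.Krq
import Pool.Agent.Y779.ZS.Chars
import Pool.Agent.R932.OP.Twist
import Pool.Agent.R932.OP.SForm

/-!
Project PO (helper932), task PO-LTS (proved by helper62): ramified and unramified local types in
the symplectic case.
-/

set_option autoImplicit false

open Matrix Polynomial
open Pool.Agent.Y142.ZO Pool.Agent.Y142.ZI Pool.Agent.Y142.ZS
open Pool.Agent.Y142.ZD (DistPow NR RootBij)

namespace Pool.Agent.R932.PO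

/-- the product of the polynomials `X² - c t` -/
noncomputable def prodSq {F : Type} [Field F] {n : ℕ} (c : Fin n → F) : F[X] :=
  ∏ t, (X ^ 2 - C (c t))

theorem prodSq_monic {F : Type} [Field F] {n : ℕ} (c : Fin n → F) : (prodSq c).Monic :=
  monic_prod_of_monic _ _ fun t _ => monic_X_pow_sub_C (c t) two_ne_zero

theorem prodSq_natDegree {F : Type} [Field F] {n : ℕ} (c : Fin n → F) :
    (prodSq c).natDegree = 2 * n := by
  unfold prodSq
  rw [natDegree_prod_of_monic _ _ fun t _ => monic_X_pow_sub_C (c t) two_ne_zero]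
  simp only [natDegree_X_pow_sub_C, Finset.sum_const, Finset.card_univ, Fintype.card_fin,
    smul_eq_mul]
  ring

theorem prodSq_comp {F : Type} [Field F] {n : ℕ} (c : Fin n → F) :
    (prodSq c).comp (-X) = prodSq c := by
  unfold prodSq
  rw [Polynomial.prod_comp]
  refine Finset.prod_congr rfl fun t _ => ?_
  rw [sub_comp, X_pow_comp, C_comp, neg_sq]

theorem prodSq_separable {F : Type} [Field F] [CharZero F] {n : ℕ} (c : Fin n → F)
    (hc : Function.Injective c) (h0 : ∀ t, c t ≠ 0) : (prodSq c).Separable := by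
  apply Polynomial.separable_prod
  · intro s t hst
    have hne : c t - c s ≠ 0 := sub_ne_zero.2 (fun h => hst (hc h).symm)
    refine ⟨C (c t - c s)⁻¹, -C (c t - c s)⁻¹, ?_⟩
    have h1 : C (c t - c s)⁻¹ * (X ^ 2 - C (c s)) + -C (c t - c s)⁻¹ * (X ^ 2 - C (c t)) =
        C ((c t - c s)⁻¹ * (c t - c s)) := by
      rw [C_mul, C_sub]
      ring
    rw [h1, inv_mul_cancel₀ hne, C_1]
  · intro t
    exact separable_X_pow_sub_C (c t) (by norm_num) (h0 t)

theorem prodSq_root {F : Type} [Field F] {n : ℕ} (c : Fin n → F)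
    {x : AlgebraicClosure F} :
    aeval x (prodSq c) = 0 ↔ ∃ t, x ^ 2 = algebraMap F (AlgebraicClosure F) (c t) := by
  unfold prodSq
  rw [map_prod, Finset.prod_eq_zero_iff]
  simp only [Finset.mem_univ, true_and, map_sub, map_pow, aeval_X, aeval_C, sub_eq_zero]

variable {ℓ : ℕ} [hℓ : Fact ℓ.Prime]

/-- the roots of the characteristic polynomials of the similitudes near a tangent vector with
separable characteristic polynomial -/
theorem lts_core (h2 : ℓ ≠ 2) {N : ℕ} (hN : 0 < N) (J : Matrix (Fin N) (Fin N) ℚ_[ℓ])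
    (hJ : Jᵀ = -J) (hdet : J.det ≠ 0) (R₀ : ℚ_[ℓ][X]) (hm : R₀.Monic) (hs : R₀.Separable)
    (hd : R₀.natDegree = N) (he : R₀.comp (-X) = R₀) (Con : ℚ_[ℓ][X] → Prop)
    (hCon : ∀ (Q Q' : ℚ_[ℓ][X]) (s : ℚ_[ℓ]), s ≠ 0 → RootBij ℓ R₀ Q' →
      (∀ x : AlgebraicClosure ℚ_[ℓ], aeval x Q' = 0 ↔
        aeval (algebraMap ℚ_[ℓ] (AlgebraicClosure ℚ_[ℓ]) s * x) Q = 0) → Con Q) :
    LType ℓ J Con := by
  obtain ⟨T, hT, hTc⟩ := Pool.Agent.R932.OP.sform ℚ_[ℓ] N J R₀ hJ hdet hm hd he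
  obtain ⟨ε, k₁, hε, hK⟩ := Pool.Agent.Y331.ZD.t ℓ h2 R₀ hm hs he
  obtain ⟨ε', hε', hW⟩ := Pool.Agent.R932.OP.twist ℓ h2 R₀ hm ε hε
  obtain ⟨δ, k₂, hδ, hC⟩ := Pool.Agent.Y779.ZS.t ℓ N hN J T hJ hdet hT ε' hε'
  refine ⟨T, δ, max (max k₁ k₂) 1, hT, hδ, fun k g c hk hg _ hgT => ?_⟩
  obtain ⟨c0, c1, c2, c3⟩ := hC k g c (by omega) hg hgT
  rw [hTc] at c2
  have hgm : g.charpoly.Monic := g.charpoly_monic
  have hgd : g.charpoly.natDegree = R₀.natDegree := by
    rw [Matrix.charpoly_natDegree_eq_dim, Fintype.card_fin, hd]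
  obtain ⟨s, Q', hss, q1, q2, q3, q4, q5⟩ := hW k g.charpoly c (by omega) hgm hgd c0 c1 c3 c2
  have hs0 : s ≠ 0 := by
    rintro rfl
    exact c0 (by rw [← hss, mul_zero])
  exact hCon g.charpoly Q' s hs0 (hK k Q' (by omega) q1 q2 q3 q4) q5

/-- `DistPow` is inherited by the polynomial with the multiplied roots -/
theorem distPow_of {Q Q' : ℚ_[ℓ][X]} {s : ℚ_[ℓ]} (hs0 : s ≠ 0) (hD : DistPow ℓ Q')
    (h : ∀ x : AlgebraicClosure ℚ_[ℓ], aeval x Q' = 0 ↔
      aeval (algebraMap ℚ_[ℓ] (AlgebraicClosure ℚ_[ℓ]) s * x) Q = 0) : DistPow ℓ Q := by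
  have hs1 : algebraMap ℚ_[ℓ] (AlgebraicClosure ℚ_[ℓ]) s ≠ 0 := by
    rw [Ne, map_eq_zero]
    exact hs0
  intro j x y hj hx hy hxy
  have key : ∀ z : AlgebraicClosure ℚ_[ℓ], aeval z Q = 0 →
      aeval ((algebraMap ℚ_[ℓ] (AlgebraicClosure ℚ_[ℓ]) s)⁻¹ * z) Q' = 0 := by
    intro z hz
    rw [h, mul_inv_cancel_left₀ hs1]
    exact hz
  have h1 := hD j _ _ hj (key x hx) (key y hy) (by rw [mul_pow, mul_pow, hxy])
  exact mul_left_cancel₀ (inv_ne_zero hs1) h1

theorem lts : S_LTS := by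
  intro ℓ hℓ h2 N hN J hJ hdet
  obtain ⟨n, rfl⟩ : ∃ n, N = 2 * n := by
    have hev : Even N := by
      by_contra h
      rw [Nat.not_even_iff_odd] at h
      have h1 : J.det = -J.det := by
        conv_lhs => rw [← det_transpose, hJ, det_neg, Fintype.card_fin, h.neg_one_pow, neg_one_mul]
      have h2 : (2 : ℚ_[ℓ]) * J.det = 0 := by linear_combination h1
      exact hdet ((mul_eq_zero.1 h2).resolve_left two_ne_zero)
    obtain ⟨n, hn⟩ := hev
    exact ⟨n, by omega⟩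
  constructor
  · -- ramified type
    let c : Fin n → ℚ_[ℓ] := fun t => (((if (t : ℕ) = 0 then ℓ else (t : ℕ) ^ 2) : ℕ) : ℚ_[ℓ])
    have hsq : ∀ t : ℕ, ℓ ≠ t ^ 2 := by
      intro t ht
      have hp := hℓ.out
      rw [ht, sq] at hp
      have h3 : t = 1 ∨ t = 1 := by
        rcases Nat.prime_mul_iff.1 hp with ⟨_, h⟩ | ⟨_, h⟩
        · exact Or.inl h
        · exact Or.inl h
      rcases h3 with rfl | rfl <;> exact absurd hp (by norm_num)
    have hinj : Function.Injective c := by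
      intro s t hst
      have h3 : (if (s : ℕ) = 0 then ℓ else (s : ℕ) ^ 2) = if (t : ℕ) = 0 then ℓ else (t : ℕ) ^ 2 :=
        Nat.cast_injective hst
      apply Fin.ext
      split_ifs at h3 with h4 h5 h5
      · rw [h4, h5]
      · exact absurd h3 (hsq _)
      · exact absurd h3.symm (hsq _)
      · exact Nat.pow_left_injective (n := 2) two_ne_zero h3
    have hne : ∀ t, c t ≠ 0 := by
      intro t h
      have h3 : (if (t : ℕ) = 0 then ℓ else (t : ℕ) ^ 2) = 0 := Nat.cast_eq_zero.1 h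
      split_ifs at h3 with h4
      · exact hℓ.out.ne_zero h3
      · exact h4 (pow_eq_zero_iff two_ne_zero |>.1 h3)
    refine lts_core h2 hN J hJ hdet (prodSq c) (prodSq_monic c) (prodSq_separable c hinj hne)
      (prodSq_natDegree c) (prodSq_comp c) _ fun Q Q' s hs0 hR h => ?_
    obtain ⟨-, hD, -, φ, f1, f2, f3, f4, f5⟩ := hR
    refine ⟨distPow_of hs0 hD h, fun τ r hr hτ => ?_⟩
    have hr1 : aeval r (prodSq c) = 0 := by
      rw [prodSq_root]
      refine ⟨⟨0, by omega⟩, ?_⟩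
      rw [hr]
      simp [c]
    have hr2 : aeval ((τ.restrictScalars ℚ_[ℓ]) r) (prodSq c) = 0 := by
      rw [← AlgEquiv.coe_toAlgHom, Polynomial.aeval_algHom_apply, hr1, map_zero]
    refine ⟨algebraMap ℚ_[ℓ] (AlgebraicClosure ℚ_[ℓ]) s * φ r, (h _).1 (f1 r hr1), fun hx => ?_⟩
    have h5 := f5 (τ.restrictScalars ℚ_[ℓ]) r hr1
    have hs1 : algebraMap ℚ_[ℓ] (AlgebraicClosure ℚ_[ℓ]) s ≠ 0 := by
      rw [Ne, map_eq_zero]
      exact hs0
    have h6 : (τ.restrictScalars ℚ_[ℓ]) (algebraMap ℚ_[ℓ] (AlgebraicClosure ℚ_[ℓ]) s * φ r) =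
        algebraMap ℚ_[ℓ] (AlgebraicClosure ℚ_[ℓ]) s * φ r := hx
    rw [map_mul, AlgEquiv.commutes, ← h5] at h6
    have h7 := mul_left_cancel₀ hs1 h6
    exact hτ (f2 _ _ hr2 hr1 h7)
  · -- unramified type
    let c : Fin n → ℚ_[ℓ] := fun t => ((((t : ℕ) + 1 : ℕ) : ℚ_[ℓ])) ^ 2
    have hinj : Function.Injective c := by
      intro s t hst
      have h3 : (((((s : ℕ) + 1) ^ 2 : ℕ)) : ℚ_[ℓ]) = (((((t : ℕ) + 1) ^ 2 : ℕ)) : ℚ_[ℓ]) := by
        simpa [c] using hst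
      have h4 : ((s : ℕ) + 1) ^ 2 = ((t : ℕ) + 1) ^ 2 := Nat.cast_injective h3
      have h5 : (s : ℕ) + 1 = (t : ℕ) + 1 := Nat.pow_left_injective (n := 2) two_ne_zero h4
      exact Fin.ext (Nat.succ_injective h5)
    have hne : ∀ t, c t ≠ 0 := by
      intro t
      exact pow_ne_zero 2 (Nat.cast_ne_zero.2 (Nat.succ_ne_zero _))
    refine lts_core h2 hN J hJ hdet (prodSq c) (prodSq_monic c) (prodSq_separable c hinj hne)
      (prodSq_natDegree c) (prodSq_comp c) _ fun Q Q' s hs0 hR h => ?_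
    obtain ⟨-, hD, -, φ, f1, f2, f3, f4, f5⟩ := hR
    intro τ x hx
    have hs1 : algebraMap ℚ_[ℓ] (AlgebraicClosure ℚ_[ℓ]) s ≠ 0 := by
      rw [Ne, map_eq_zero]
      exact hs0
    have hx' : aeval ((algebraMap ℚ_[ℓ] (AlgebraicClosure ℚ_[ℓ]) s)⁻¹ * x) Q' = 0 := by
      rw [h, mul_inv_cancel_left₀ hs1]
      exact hx
    obtain ⟨r, hr, hrx⟩ := f3 _ hx'
    have hfix : (τ.restrictScalars ℚ_[ℓ]) r = r := by
      obtain ⟨t, ht⟩ := (prodSq_root c).1 hr
      simp only [c] at ht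
      rw [map_pow, sq_eq_sq_iff_eq_or_eq_neg] at ht
      rcases ht with ht | ht
      · rw [ht, AlgEquiv.commutes]
      · rw [ht, map_neg, AlgEquiv.commutes]
    have h5 := f5 (τ.restrictScalars ℚ_[ℓ]) r hr
    rw [hfix] at h5
    have hx2 : x = algebraMap ℚ_[ℓ] (AlgebraicClosure ℚ_[ℓ]) s * φ r := by
      rw [hrx, mul_inv_cancel_left₀ hs1]
    have h6 : (τ.restrictScalars ℚ_[ℓ]) x = x := by
      rw [hx2, map_mul, AlgEquiv.commutes, ← h5]
    exact h6

end Pool.Agent.R932.PO
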