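import Pool.Agent.R932.PO.Stm
import Pool.Agent.R932.IdlSo
import Pool.Agent.R932.Idl
import Pool.Agent.Y710.ZS.Tans

set_option autoImplicit false
set_option linter.unusedSectionVars false

/-!
# Project PO, task PAIR: the pair alternative
-/

open Matrix Polynomial Filter Topology NumberField IsDedekindDomain
open Pool.Agent.Y142.ZO Pool.Agent.Y142.ZI Pool.Agent.Y142.ZS

namespace Pool.Agent.R932.PO

noncomputable section

section alg

variable {K : Type} [Field K] [CharZero K] {N : ℕ}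

/-- uniform version of the ideal lemmas -/
theorem form_ideal {J : Matrix (Fin N) (Fin N) K} (hJ : IsForm J)
    (I : Submodule K (Matrix (Fin N) (Fin N) K))
    (hI : ∀ X, SpLie J X → ∀ Z ∈ I, X * Z - Z * X ∈ I)
    {Z : Matrix (Fin N) (Fin N) K} (hZ : Z ∈ I) (hZs : SpLie J Z) (hZ0 : Z ≠ 0)
    {X : Matrix (Fin N) (Fin N) K} (hX : SpLie J X) : X ∈ I := by
  obtain ⟨⟨hs, h5⟩ | ha, hdet⟩ := hJ
  · exact so_ideal hs hdet h5 I hI hZ hZs hZ0 hX
  · exact sp_ideal ha hdet I hI hZ hZs hZ0 hX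

theorem spLie_bracket {J X Y : Matrix (Fin N) (Fin N) K} {a b : K}
    (hX : Xᵀ * J + J * X = a • J) (hY : Yᵀ * J + J * Y = b • J) : SpLie J (X * Y - Y * X) := by
  unfold SpLie
  have e1 : Xᵀ * J = a • J - J * X := eq_sub_of_add_eq hX
  have e2 : Yᵀ * J = b • J - J * Y := eq_sub_of_add_eq hY
  rw [transpose_sub, transpose_mul, transpose_mul, sub_mul, mul_assoc, mul_assoc, e1, e2,
    mul_sub, mul_sub, Matrix.mul_smul, Matrix.mul_smul, ← mul_assoc Yᵀ, ← mul_assoc Xᵀ, e1, e2]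
  simp only [sub_mul, mul_sub, Matrix.smul_mul, smul_sub, mul_assoc]
  abel_nf
  simp only [smul_comm a b]
  abel_nf

theorem spLie_zero_iff {J X : Matrix (Fin N) (Fin N) K} : SpLie J X ↔ Xᵀ * J + J * X = (0 : K) • J := by
  rw [zero_smul]
  rfl

theorem pos_noncomm {J : Matrix (Fin N) (Fin N) K} (hJ : IsForm J) (hN : 0 < N) :
    ∃ X Y, SpLie J X ∧ SpLie J Y ∧ X * Y - Y * X ≠ 0 := by
  by_contra hcon
  push Not at hcon
  have hdet := hJ.2
  have hu : IsUnit J.det := isUnit_iff_ne_zero.2 hdet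
  -- two elements which are not proportional
  obtain ⟨A, B, hA, hB, hA0, hAB⟩ : ∃ A B : Matrix (Fin N) (Fin N) K, SpLie J (J⁻¹ * A) ∧
      SpLie J (J⁻¹ * B) ∧ A ≠ 0 ∧ ∀ c : K, B ≠ c • A := by
    rcases hJ.1 with ⟨hs, h5⟩ | ha
    · let i0 : Fin N := ⟨0, by omega⟩
      let i1 : Fin N := ⟨1, by omega⟩
      let i2 : Fin N := ⟨2, by omega⟩
      have h01 : i0 ≠ i1 := by simp [i0, i1, Fin.ext_iff]
      have h02 : i0 ≠ i2 := by simp [i0, i2, Fin.ext_iff]
      have h12 : i1 ≠ i2 := by simp [i1, i2, Fin.ext_iff]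
      have key : ∀ p q : Fin N, SpLie J (J⁻¹ * (single p q (1 : K) - single q p 1)) := by
        intro p q
        unfold SpLie
        rw [transpose_mul, transpose_nonsing_inv, hs, mul_assoc, nonsing_inv_mul _ hu, mul_one,
          ← mul_assoc, mul_nonsing_inv _ hu, one_mul, transpose_sub, transpose_single,
          transpose_single]
        abel
      refine ⟨single i0 i1 (1 : K) - single i1 i0 1, single i0 i2 (1 : K) - single i2 i0 1,
        key _ _, key _ _, ?_, ?_⟩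
      · intro h
        have := congrFun (congrFun h i0) i1
        simp [single_apply, h01, h01.symm] at this
      · intro c h
        have := congrFun (congrFun h i0) i2
        simp [single_apply, h01, h01.symm, h02, h02.symm, h12, h12.symm] at this
    · have key : ∀ p : Fin N, SpLie J (J⁻¹ * single p p (1 : K)) := by
        intro p
        unfold SpLie
        rw [transpose_mul, transpose_nonsing_inv, ha, mul_assoc, transpose_single]
        have h1 : (-J)⁻¹ * J = -1 := by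
          have h2 : (-J)⁻¹ = -(J⁻¹) := by
            apply Matrix.inv_eq_right_inv
            rw [neg_mul_neg, mul_nonsing_inv _ hu]
          rw [h2, neg_mul, nonsing_inv_mul _ hu]
        rw [h1, ← mul_assoc, mul_nonsing_inv _ hu, one_mul, mul_neg, mul_one]
        abel
      have hN2 : 2 ≤ N := by
        by_contra hlt
        have hN1 : N = 1 := by omega
        subst hN1
        apply hdet
        rw [Matrix.det_fin_one]
        have h1 := congrFun (congrFun ha 0) 0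
        rw [transpose_apply, Matrix.neg_apply] at h1
        have h2 : (2 : K) * J 0 0 = 0 := by linear_combination h1
        exact (mul_eq_zero.1 h2).resolve_left two_ne_zero
      let i0 : Fin N := ⟨0, by omega⟩
      let i1 : Fin N := ⟨1, by omega⟩
      have h01 : i0 ≠ i1 := by simp [i0, i1, Fin.ext_iff]
      refine ⟨single i0 i0 (1 : K), single i1 i1 (1 : K), key _, key _, ?_, ?_⟩
      · intro h
        have := congrFun (congrFun h i0) i0
        simp [single_apply] at this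
      · intro c h
        have := congrFun (congrFun h i1) i1
        simp [single_apply, h01, h01.symm] at this
  have hne : J⁻¹ * A ≠ 0 := by
    intro h
    apply hA0
    have := congrArg (fun M => J * M) h
    simpa [← mul_assoc, mul_nonsing_inv _ hu] using this
  have hmem := form_ideal hJ (Submodule.span K {J⁻¹ * A}) (fun X hX Z hZ => by
    obtain ⟨c, rfl⟩ := Submodule.mem_span_singleton.1 hZ
    have h1 := hcon X (J⁻¹ * A) hX hA
    rw [Matrix.mul_smul, Matrix.smul_mul, ← smul_sub, h1, smul_zero]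
    exact Submodule.zero_mem _) (Submodule.mem_span_singleton_self _) hA hne hB
  obtain ⟨c, hc⟩ := Submodule.mem_span_singleton.1 hmem
  apply hAB c
  have h2 := congrArg (fun M => J * M) hc
  simp only [Matrix.mul_smul, ← mul_assoc, mul_nonsing_inv _ hu, one_mul] at h2
  exact h2.symm

/-- the centre is zero -/
theorem center_zero {J : Matrix (Fin N) (Fin N) K} (hJ : IsForm J)
    {Z : Matrix (Fin N) (Fin N) K} (hZ : SpLie J Z)
    (hc : ∀ X, SpLie J X → X * Z - Z * X = 0) : Z = 0 := by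
  rcases Nat.eq_zero_or_pos N with h0 | hN
  · subst h0
    exact Subsingleton.elim _ _
  by_contra hZ0
  obtain ⟨X, Y, hX, hY, hXY⟩ := pos_noncomm hJ hN
  let I : Submodule K (Matrix (Fin N) (Fin N) K) :=
    { carrier := {Z | ∀ X, SpLie J X → X * Z - Z * X = 0}
      add_mem' := by
        intro A B hA hB X hX
        have h1 := hA X hX
        have h2 := hB X hX
        rw [mul_add, add_mul, add_sub_add_comm, h1, h2, add_zero]
      zero_mem' := by
        intro X _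
        simp
      smul_mem' := by
        intro c A hA X hX
        rw [Matrix.mul_smul, Matrix.smul_mul, ← smul_sub, hA X hX, smul_zero] }
  have hmem : Y ∈ I := form_ideal hJ I (fun X hX Z hZ => by
    rw [hZ X hX]
    exact I.zero_mem) (Z := Z) hc hZ hZ0 hY
  exact hXY (hmem X hX)

/-- the projection to the Lie algebra of `J` -/
def pr (J : Matrix (Fin N) (Fin N) K) :
    Matrix (Fin N) (Fin N) K →ₗ[K] Matrix (Fin N) (Fin N) K where
  toFun X := (2 : K)⁻¹ • (X - J⁻¹ * Xᵀ * J)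
  map_add' X Y := by
    rw [transpose_add, mul_add, add_mul, ← smul_add]
    congr 1
    abel
  map_smul' c X := by
    rw [transpose_smul, Matrix.mul_smul, Matrix.smul_mul, ← smul_sub, smul_comm]
    rfl

theorem pr_apply (J X : Matrix (Fin N) (Fin N) K) :
    pr J X = (2 : K)⁻¹ • (X - J⁻¹ * Xᵀ * J) := rfl

theorem pr_spLie {J : Matrix (Fin N) (Fin N) K} (hJ : IsForm J) (X : Matrix (Fin N) (Fin N) K) :
    SpLie J (pr J X) := by
  have hu : IsUnit J.det := isUnit_iff_ne_zero.2 hJ.2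
  have h1 : (J⁻¹ * Xᵀ * J)ᵀ * J = J * X := by
    rw [transpose_mul, transpose_mul, transpose_transpose, transpose_nonsing_inv]
    rcases hJ.1 with ⟨hs, -⟩ | ha
    · rw [hs, mul_assoc, mul_assoc, nonsing_inv_mul _ hu, mul_one]
    · have h2 : (-J)⁻¹ = -(J⁻¹) := by
        apply Matrix.inv_eq_right_inv
        rw [neg_mul_neg, mul_nonsing_inv _ hu]
      rw [ha, h2, mul_assoc, mul_assoc, neg_mul J⁻¹, nonsing_inv_mul _ hu, mul_neg, mul_one,
        neg_mul_neg]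
  unfold SpLie
  rw [pr_apply, transpose_smul, Matrix.smul_mul, Matrix.mul_smul, ← smul_add, transpose_sub,
    sub_mul, h1, mul_sub, ← mul_assoc, ← mul_assoc, mul_nonsing_inv _ hu, one_mul]
  have : Xᵀ * J - J * X + (J * X - Xᵀ * J) = 0 := by abel
  rw [this, smul_zero]

theorem pr_sim {J : Matrix (Fin N) (Fin N) K} (hdet : J.det ≠ 0) {X : Matrix (Fin N) (Fin N) K}
    {μ : K} (hX : Xᵀ * J + J * X = μ • J) : pr J X = X - (μ / 2) • 1 := by
  have hu : IsUnit J.det := isUnit_iff_ne_zero.2 hdet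
  have e1 : Xᵀ * J = μ • J - J * X := eq_sub_of_add_eq hX
  rw [pr_apply, mul_assoc, e1, mul_sub, Matrix.mul_smul, nonsing_inv_mul _ hu, ← mul_assoc,
    nonsing_inv_mul _ hu, one_mul]
  have h2 : (2 : K)⁻¹ • (X - (μ • (1 : Matrix (Fin N) (Fin N) K) - X)) =
      ((2 : K)⁻¹ * 2) • X - (μ / 2) • (1 : Matrix (Fin N) (Fin N) K) := by
    module
  rw [h2, inv_mul_cancel₀ two_ne_zero, one_smul]

theorem pr_self {J : Matrix (Fin N) (Fin N) K} (hdet : J.det ≠ 0) {X : Matrix (Fin N) (Fin N) K}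
    (hX : SpLie J X) : pr J X = X := by
  have h := pr_sim hdet (spLie_zero_iff.1 hX)
  rw [h]
  simp

theorem pr_conj {J : Matrix (Fin N) (Fin N) K} (hdet : J.det ≠ 0) {g h : Matrix (Fin N) (Fin N) K}
    {c : K} (hg : Sim J g c) (hgh : g * h = 1) (X : Matrix (Fin N) (Fin N) K) :
    pr J (g * X * h) = g * pr J X * h := by
  have hu : IsUnit J.det := isUnit_iff_ne_zero.2 hdet
  unfold Sim at hg
  have e1 : gᵀ * J = c • (J * h) := by
    have := congrArg (fun M => M * h) hg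
    simpa [mul_assoc, hgh] using this
  have hgh' : hᵀ * gᵀ = 1 := by rw [← transpose_mul, hgh, transpose_one]
  have e2 : J * g = c • (hᵀ * J) := by
    have := congrArg (fun M => hᵀ * M) hg
    simp only [← mul_assoc, hgh', one_mul, Matrix.mul_smul] at this
    exact this
  have e3 : c • (J⁻¹ * hᵀ) = g * J⁻¹ := by
    have := congrArg (fun M => J⁻¹ * M * J⁻¹) e2
    simp only [← mul_assoc, nonsing_inv_mul _ hu, one_mul, Matrix.mul_smul, Matrix.smul_mul] at this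
    rw [mul_assoc (J⁻¹ * hᵀ), mul_nonsing_inv _ hu, mul_one] at this
    exact this.symm
  rw [pr_apply, pr_apply, Matrix.mul_smul, Matrix.smul_mul, mul_sub, sub_mul]
  congr 2
  rw [transpose_mul, transpose_mul]
  calc J⁻¹ * (hᵀ * (Xᵀ * gᵀ)) * J = J⁻¹ * hᵀ * Xᵀ * (gᵀ * J) := by simp only [mul_assoc]
    _ = (c • (J⁻¹ * hᵀ)) * Xᵀ * (J * h) := by
        rw [e1, Matrix.mul_smul, Matrix.smul_mul, Matrix.smul_mul]
    _ = g * (J⁻¹ * Xᵀ * J) * h := by rw [e3]; simp only [mul_assoc]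

end alg

theorem pair (hJLIE : S_JLIE) (hJLIFT : S_JLIFT) : S_PAIR := by
  intro ℓ _ ι _ N G _ _ _ _ ρ hρ J hJ hsim hfull i j hij
  obtain ⟨𝔤, h𝔤, hbr, had⟩ := hJLIE ℓ ι N G ρ
  have hlift : ∀ (k : ι) X, SpLie (J k) X → ∃ Y ∈ 𝔤, Y k = X := by
    intro k X hX
    obtain ⟨Y, hY, hYk⟩ := hJLIFT ℓ ι N G ρ hρ k X (hfull k X hX)
    exact ⟨Y, (h𝔤 Y).2 hY, hYk⟩
  have hsimt : ∀ Y ∈ 𝔤, ∀ k, ∃ μ : ℚ_[ℓ], (Y k)ᵀ * J k + J k * Y k = μ • J k := by
    intro Y hY k
    obtain ⟨σ, hσ⟩ := (h𝔤 Y).1 hY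
    exact Y710.ZS.t1 ℓ (N k) G (ρ k) (J k) (hJ k).2 (hsim k) (Y k) ⟨σ, hσ k⟩
  rcases Nat.eq_zero_or_pos (N i) with hN0 | hN
  · left
    intro X _
    refine ⟨0, (h𝔤 0).1 𝔤.zero_mem, ?_, rfl⟩
    have : Subsingleton (Matrix (Fin (N i)) (Fin (N i)) ℚ_[ℓ]) := by
      rw [hN0]
      infer_instance
    exact Subsingleton.elim _ _
  -- the ideal
  let I : Submodule ℚ_[ℓ] (Matrix (Fin (N i)) (Fin (N i)) ℚ_[ℓ]) :=
    { carrier := {X | ∃ Y ∈ 𝔤, Y i = X ∧ Y j = 0}
      add_mem' := by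
        rintro _ _ ⟨Y, hY, rfl, hYj⟩ ⟨Y', hY', rfl, hYj'⟩
        exact ⟨Y + Y', 𝔤.add_mem hY hY', rfl, by rw [Pi.add_apply, hYj, hYj', add_zero]⟩
      zero_mem' := ⟨0, 𝔤.zero_mem, rfl, rfl⟩
      smul_mem' := by
        rintro c _ ⟨Y, hY, rfl, hYj⟩
        exact ⟨c • Y, 𝔤.smul_mem c hY, rfl, by rw [Pi.smul_apply, hYj, smul_zero]⟩ }
  have hI : ∀ X, SpLie (J i) X → ∀ Z ∈ I, X * Z - Z * X ∈ I := by
    rintro X hX _ ⟨Y, hY, rfl, hYj⟩
    obtain ⟨W, hW, rfl⟩ := hlift i X hX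
    exact ⟨_, hbr W hW Y hY, rfl, by simp only [hYj, mul_zero, zero_mul, sub_zero]⟩
  by_cases hex : ∃ Z ∈ I, SpLie (J i) Z ∧ Z ≠ 0
  · left
    obtain ⟨Z, hZ, hZs, hZ0⟩ := hex
    intro X hX
    obtain ⟨Y, hY, hYi, hYj⟩ := form_ideal (hJ i) I hI hZ hZs hZ0 hX
    exact ⟨Y, (h𝔤 Y).1 hY, hYi, hYj⟩
  right
  push Not at hex
  -- well-definedness
  have hwd : ∀ Y ∈ 𝔤, Y j = 0 → pr (J i) (Y i) = 0 := by
    intro Y hY hYj
    apply center_zero (hJ i) (pr_spLie (hJ i) _)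
    intro X hX
    obtain ⟨μ, hμ⟩ := hsimt Y hY i
    have h1 : X * pr (J i) (Y i) - pr (J i) (Y i) * X = X * Y i - Y i * X := by
      rw [pr_sim (hJ i).2 hμ, mul_sub, sub_mul, Matrix.mul_smul, Matrix.smul_mul, mul_one, one_mul]
      abel
    rw [h1]
    exact hex _ (hI X hX _ ⟨Y, hY, rfl, hYj⟩) (spLie_bracket (spLie_zero_iff.1 hX) hμ)
  -- a section
  let E : 𝔤 →ₗ[ℚ_[ℓ]] Matrix (Fin (N j)) (Fin (N j)) ℚ_[ℓ] :=
    (LinearMap.proj j).comp 𝔤.subtype
  have hrange : ∀ A, pr (J j) A ∈ LinearMap.range E := by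
    intro A
    obtain ⟨Y, hY, hYj⟩ := hlift j _ (pr_spLie (hJ j) A)
    exact ⟨⟨Y, hY⟩, hYj⟩
  obtain ⟨s, hs⟩ := Module.projective_lifting_property E.rangeRestrict
    ((pr (J j)).codRestrict _ hrange) E.surjective_rangeRestrict
  have hs' : ∀ A, (s A : ∀ k, Matrix (Fin (N k)) (Fin (N k)) ℚ_[ℓ]) j = pr (J j) A := by
    intro A
    have := congrArg Subtype.val (LinearMap.congr_fun hs A)
    exact this
  let Θ : Matrix (Fin (N j)) (Fin (N j)) ℚ_[ℓ] →ₗ[ℚ_[ℓ]] Matrix (Fin (N i)) (Fin (N i)) ℚ_[ℓ] :=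
    (pr (J i)).comp ((LinearMap.proj i).comp (𝔤.subtype.comp s))
  have hΘ : ∀ A, Θ A = pr (J i) ((s A : ∀ k, Matrix (Fin (N k)) (Fin (N k)) ℚ_[ℓ]) i) :=
    fun A => rfl
  have hkey : ∀ Y ∈ 𝔤, ∀ A, Y j = pr (J j) A → Θ A = pr (J i) (Y i) := by
    intro Y hY A hYA
    rw [hΘ, ← sub_eq_zero, ← map_sub]
    have := hwd ((s A : ∀ k, Matrix (Fin (N k)) (Fin (N k)) ℚ_[ℓ]) - Y)
      (𝔤.sub_mem (s A).2 hY) (by rw [Pi.sub_apply, hs', hYA, sub_self])
    rwa [Pi.sub_apply] at this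
  refine ⟨Θ, ?_, ?_, ?_⟩
  · intro g A
    have hinv : ∀ k, ρ k g * ρ k g⁻¹ = 1 := fun k => by
      rw [← map_mul, mul_inv_cancel, map_one]
    obtain ⟨cj, hcj⟩ := hsim j g
    obtain ⟨ci, hci⟩ := hsim i g
    have h1 := hkey _ (had g _ (s A).2) (ρ j g * A * ρ j g⁻¹) (by
      simp only [hs']
      rw [pr_conj (hJ j).2 hcj (hinv j)])
    rw [h1, hΘ]
    exact pr_conj (hJ i).2 hci (hinv i) _
  · intro A
    rw [hΘ]
    exact pr_spLie (hJ i) _
  · obtain ⟨Z₁, Z₂, hZ₁, hZ₂, hZ⟩ := pos_noncomm (hJ i) hN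
    obtain ⟨W₁, hW₁, rfl⟩ := hlift i Z₁ hZ₁
    obtain ⟨W₂, hW₂, rfl⟩ := hlift i Z₂ hZ₂
    obtain ⟨μ₁, hμ₁⟩ := hsimt W₁ hW₁ j
    obtain ⟨μ₂, hμ₂⟩ := hsimt W₂ hW₂ j
    have h1 := hkey _ (hbr W₁ hW₁ W₂ hW₂) (W₁ j * W₂ j - W₂ j * W₁ j)
      (pr_self (hJ j).2 (spLie_bracket hμ₁ hμ₂)).symm
    refine ⟨W₁ j * W₂ j - W₂ j * W₁ j, ?_⟩
    rw [h1]
    have h2 := pr_self (hJ i).2 (spLie_bracket (spLie_zero_iff.1 hZ₁) (spLie_zero_iff.1 hZ₂))
    simp only [h2]
    exact hZ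

end

end Pool.Agent.R932.PO
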