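import Pool.Agent.R932.PO.Fin
import Pool.Agent.R932.PO.JLie
import Pool.Agent.R932.PO.Gour
import Pool.Agent.R932.PO.Pair
import Pool.Agent.R932.PO.Eqv
import Pool.Agent.R932.PO.Form1U
import Pool.Agent.R932.PO.LtS
import Pool.Agent.R932.PO.LtO
import Pool.Agent.R932.PO.LtE
import Pool.Agent.R932.PO.JOpen
import Pool.Agent.R932.PO.Ht

/-!
# Project PO: all tasks
-/

set_option autoImplicit false

namespace Pool.Agent.R932.PO

theorem tasks : Tasks where
  jlie := jlie
  jlift := jlift
  gour := gour
  pair := pair jlie jlift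
  eqv := eqv
  lts := lts
  lto := lto form1u
  lte := lte

end Pool.Agent.R932.PO
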