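import Pool.Agent.R932.PO.Stm

/-!
# Project PO: places with an independent root
-/

set_option autoImplicit false
set_option linter.unusedSectionVars false
set_option linter.style.haveILetI false

open Matrix Polynomial Filter Topology NumberField IsDedekindDomain
open Pool.Agent.Y142.ZO Pool.Agent.Y142.ZI Pool.Agent.Y142.ZS
open Pool.Agent.Y142.ZD (DistPow NR Tame S_TAME)
open Pool.Agent.R932.OP

namespace Pool.Agent.R932.PO

section
variable {K : Type} [Field K] [NumberField K] {ι : Type} [Fintype ι] {N : ι → ℕ}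

/-- a Frobenius element close to a joint tangent vector -/
theorem joint_frob (ℓ : ℕ) [Fact ℓ.Prime] (ρ : ∀ i, GK K →* Matrix (Fin (N i)) (Fin (N i)) ℚ_[ℓ])
    (hρ : ∀ i, Continuous (ρ i)) {X : ∀ i, Matrix (Fin (N i)) (Fin (N i)) ℚ_[ℓ]}
    (hX : JTan ℓ ρ X) {δ : ι → ℝ} (hδ : ∀ i, 0 < δ i) (k₀ : ℕ)
    {T : Set (HeightOneSpectrum (𝓞 K))} (hT : T.Finite) :
    ∃ v, v ∉ T ∧ ∃ σ : GK K, IsFrobenius v σ ∧ ∃ k, k₀ ≤ k ∧
      ∀ i a b, ‖((((ℓ : ℚ_[ℓ]) ^ k)⁻¹ • (ρ i σ⁻¹ - 1)) - X i) a b‖ < δ i := by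
  obtain ⟨s, hs⟩ := hX
  have h1 : ∀ i a b, ∀ᶠ n : ℕ in atTop,
      ‖((((ℓ : ℚ_[ℓ]) ^ n)⁻¹ • (ρ i (s n) - 1)) - X i) a b‖ < δ i := by
    intro i a b
    have h2 := ((continuous_apply_apply a b).tendsto (X i)).comp (hs i)
    have h3 := h2.sub_const (X i a b)
    rw [sub_self] at h3
    have h4 := h3.norm
    rw [norm_zero] at h4
    exact h4.eventually (gt_mem_nhds (hδ i))
  have h2 : ∀ᶠ n : ℕ in atTop, ∀ i a b,
      ‖((((ℓ : ℚ_[ℓ]) ^ n)⁻¹ • (ρ i (s n) - 1)) - X i) a b‖ < δ i := by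
    rw [eventually_all]
    intro i
    rw [eventually_all]
    intro a
    rw [eventually_all]
    exact h1 i a
  obtain ⟨n, hn, hk⟩ := (h2.and (eventually_ge_atTop k₀)).exists
  let O : Set (GK K) := {g | ∀ i a b, ‖((((ℓ : ℚ_[ℓ]) ^ n)⁻¹ • (ρ i g - 1)) - X i) a b‖ < δ i}
  have hO : IsOpen O := by
    have h3 : O = ⋂ i, ⋂ a, ⋂ b,
        {g | ‖((((ℓ : ℚ_[ℓ]) ^ n)⁻¹ • (ρ i g - 1)) - X i) a b‖ < δ i} := by
      ext g
      simp only [Set.mem_iInter]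
      rfl
    rw [h3]
    refine isOpen_iInter_of_finite fun i => isOpen_iInter_of_finite fun a =>
      isOpen_iInter_of_finite fun b => ?_
    have h4 : Continuous fun g : GK K => ((((ℓ : ℚ_[ℓ]) ^ n)⁻¹ • (ρ i g - 1)) - X i) a b := by
      have h5 : Continuous fun g : GK K => (((ℓ : ℚ_[ℓ]) ^ n)⁻¹ • (ρ i g - 1)) - X i := by
        have h6 := hρ i
        have h7 : Continuous fun g : GK K => ρ i g - 1 := h6.sub continuous_const
        have h8 : Continuous fun g : GK K => ((ℓ : ℚ_[ℓ]) ^ n)⁻¹ • (ρ i g - 1) :=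
          Continuous.const_smul h7 (((ℓ : ℚ_[ℓ]) ^ n)⁻¹)
        exact h8.sub continuous_const
      exact (continuous_apply_apply a b).comp h5
    exact isOpen_lt h4.norm continuous_const
  obtain ⟨v, hv, σ, hσ, hσO⟩ := Y405.ZO.t K O hO ⟨s n, hn⟩ T hT
  exact ⟨v, hv, σ, hσ, n, hk, hσO⟩

end

section alg
variable {ℓ : ℕ} [Fact ℓ.Prime]

/-- an automorphism over the maximal unramified extension which moves `√ℓ` -/
theorem exists_move (h2 : ℓ ≠ 2) :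
    ∃ (τ : AlgebraicClosure ℚ_[ℓ] ≃ₐ[NR ℓ] AlgebraicClosure ℚ_[ℓ]) (r : AlgebraicClosure ℚ_[ℓ]),
      r ^ 2 = algebraMap ℚ_[ℓ] (AlgebraicClosure ℚ_[ℓ]) (ℓ : ℚ_[ℓ]) ∧ τ r ≠ r := by
  have h3 : ¬ ℓ ∣ 2 := by
    intro h
    have h4 := Nat.le_of_dvd (by norm_num) h
    have h5 := (Fact.out : ℓ.Prime).two_le
    omega
  obtain ⟨τ, hτ⟩ := tame nr ℓ 2 (by norm_num) h3
  obtain ⟨r, hr⟩ := IsAlgClosed.exists_pow_nat_eq
    (algebraMap ℚ_[ℓ] (AlgebraicClosure ℚ_[ℓ]) (ℓ : ℚ_[ℓ])) (by norm_num : 0 < 2)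
  have hℓ : ‖(ℓ : ℚ_[ℓ])‖ = (ℓ : ℝ)⁻¹ := Padic.norm_p
  obtain ⟨k, hk⟩ := hτ 2 (ℓ : ℚ_[ℓ]) r (-r) dvd_rfl hℓ hr (by rw [neg_sq, hr])
  refine ⟨τ, r, hr, fun h => ?_⟩
  have h4 : ∀ k : ℕ, (τ ^ k) r = r := by
    intro k
    induction k with
    | zero => rfl
    | succ k ih => rw [pow_succ, AlgEquiv.mul_apply, h, ih]
  rw [h4] at hk
  have h5 : r = 0 := self_eq_neg.1 hk
  rw [h5] at hr
  have h6 : (ℓ : ℚ_[ℓ]) = 0 := by
    have h7 : algebraMap ℚ_[ℓ] (AlgebraicClosure ℚ_[ℓ]) (ℓ : ℚ_[ℓ]) = 0 := by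
      rw [← hr]
      norm_num
    exact (map_eq_zero _).1 h7
  rw [h6, norm_zero] at hℓ
  have h7 : (0 : ℝ) < (ℓ : ℝ)⁻¹ := by
    have := (Fact.out : ℓ.Prime).pos
    positivity
  exact h7.ne hℓ

/-- ramified and unramified polynomials have independent roots -/
theorem indep_root (h2 : ℓ ≠ 2) {P R : ℚ[X]} (hP : Ram ℓ (P.map (algebraMap ℚ ℚ_[ℓ])))
    (hR : Unram ℓ (R.map (algebraMap ℚ ℚ_[ℓ]))) (hR0 : R ≠ 0)
    (hP0 : ∀ x : AlgebraicClosure ℚ_[ℓ], aeval x (P.map (algebraMap ℚ ℚ_[ℓ])) = 0 → x ≠ 0) :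
    ∃ x : ℂˣ, aeval (x : ℂ) P = 0 ∧ ∀ m : ℕ, 0 < m →
      x ^ m ∉ Subgroup.closure {y : ℂˣ | aeval (y : ℂ) R = 0 ∨ ∃ q : ℚ, (y : ℂ) = (q : ℂ)} := by
  obtain ⟨τ, r, hr, hτ⟩ := exists_move h2
  obtain ⟨hdist, hmove⟩ := hP
  obtain ⟨x, hx, hτx⟩ := hmove τ r hr hτ
  obtain ⟨e⟩ := Pool.Agent.Y95.MT.exists_emb ℓ
  have hx0 := hP0 x hx
  have hev : ∀ (F : ℚ[X]) (y : AlgebraicClosure ℚ_[ℓ]),
      aeval (e y) F = e (aeval y F) := by
    intro F y
    have h1 : (e.toRatAlgHom) y = e y := rfl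
    rw [← h1, Polynomial.aeval_algHom_apply]
    rfl
  have hmap : ∀ (F : ℚ[X]) (y : AlgebraicClosure ℚ_[ℓ]),
      aeval y (F.map (algebraMap ℚ ℚ_[ℓ])) = aeval y F := by
    intro F y
    rw [Polynomial.aeval_map_algebraMap]
  refine ⟨Units.mk0 (e x) (fun h => hx0 (e.injective (by rw [h, map_zero]))), ?_, fun m hm hmem => ?_⟩
  · rw [Units.val_mk0, hev, ← hmap, hx, map_zero]
  · -- the group of elements fixed by `τ`
    let H : Subgroup ℂˣ :=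
      { carrier := {y | ∃ z : AlgebraicClosure ℚ_[ℓ], e z = y ∧ τ z = z}
        one_mem' := ⟨1, by rw [map_one]; rfl, map_one _⟩
        mul_mem' := by
          rintro _ _ ⟨z, h1, h2⟩ ⟨w, h3, h4⟩
          exact ⟨z * w, by rw [map_mul, h1, h3]; rfl, by rw [map_mul, h2, h4]⟩
        inv_mem' := by
          rintro _ ⟨z, h1, h2⟩
          exact ⟨z⁻¹, by rw [map_inv₀, h1]; exact (Units.val_inv_eq_inv_val _).symm,
            by rw [map_inv₀, h2]⟩ }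
    have hle : Subgroup.closure {y : ℂˣ | aeval (y : ℂ) R = 0 ∨ ∃ q : ℚ, (y : ℂ) = (q : ℂ)} ≤ H := by
      rw [Subgroup.closure_le]
      rintro y (hy | ⟨q, hq⟩)
      · have h1 : (y : ℂ) ∈ ((R.map (algebraMap ℚ (AlgebraicClosure ℚ_[ℓ]))).map e).roots := by
          rw [Polynomial.mem_roots (Polynomial.map_ne_zero (Polynomial.map_ne_zero hR0)),
            Polynomial.IsRoot.def, Polynomial.map_map, Polynomial.eval_map]
          have h2 : e.comp (algebraMap ℚ (AlgebraicClosure ℚ_[ℓ])) = algebraMap ℚ ℂ :=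
            Subsingleton.elim _ _
          rw [h2]
          exact hy
        rw [(IsAlgClosed.splits _).roots_map e, Multiset.mem_map] at h1
        obtain ⟨z, hz, hzy⟩ := h1
        refine ⟨z, hzy, hR τ z ?_⟩
        rw [hmap]
        have h3 := (Polynomial.mem_roots (Polynomial.map_ne_zero hR0)).1 hz
        rw [Polynomial.IsRoot.def, Polynomial.eval_map_algebraMap] at h3
        exact h3
      · refine ⟨(q : AlgebraicClosure ℚ_[ℓ]), by rw [map_ratCast, hq], map_ratCast _ _⟩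
    obtain ⟨z, hz, hτz⟩ := hle hmem
    rw [Units.val_pow_eq_pow_val, Units.val_mk0, ← map_pow] at hz
    have h1 := e.injective hz
    rw [h1, map_pow] at hτz
    have hτr : aeval (τ x) (P.map (algebraMap ℚ ℚ_[ℓ])) = 0 := by
      rw [hmap]
      have h2 : aeval (τ x) P = τ (aeval x P) := by
        have h3 : ((τ : AlgebraicClosure ℚ_[ℓ] →+* AlgebraicClosure ℚ_[ℓ]).toRatAlgHom) x = τ x := rfl
        rw [← h3, Polynomial.aeval_algHom_apply]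
        rfl
      rw [h2, ← hmap, hx, map_zero]
    exact hτx (hdist m (τ x) x hm hτr hx hτz)

end alg

end Pool.Agent.R932.PO
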