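import Pool.Agent.R932.PO.Stm

set_option autoImplicit false

/-!
Project PO, second part: tensors which are killed by the Lie algebra are Tate classes.
-/

open Matrix Filter Topology
open Pool.Agent.Y142.ZO Pool.Agent.Y142.ZI Pool.Agent.Y142.ZS

namespace Pool.Agent.R932.PO

/-- the value of the multilinear form with the coefficients `T` -/
def val {F : Type} [Field F] {k : ℕ} {M : Fin k → ℕ} (T : (∀ t, Fin (M t)) → F)
    (v : ∀ t, Fin (M t) → F) : F :=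
  ∑ r, T r * ∏ t, v t (r t)

/-- the multilinear form with the coefficients `T` is killed by all families of elements of the Lie
algebras of the forms -/
def Killed {F : Type} [Field F] {ι : Type} {N : ι → ℕ} (J : ∀ i, Matrix (Fin (N i)) (Fin (N i)) F)
    {k : ℕ} (a : Fin k → ι) (T : (∀ t, Fin (N (a t))) → F) : Prop :=
  ∀ X : ∀ i, Matrix (Fin (N i)) (Fin (N i)) F, (∀ i, SpLie (J i) (X i)) →
    ∀ v : ∀ t, Fin (N (a t)) → F, ∑ t, val T (Function.update v t (X (a t) *ᵥ v t)) = 0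

/-- task HT: killed tensors are Tate classes -/
def S_HT : Prop := ∀ (ℓ : ℕ) [Fact ℓ.Prime] (ι : Type) [Fintype ι] (N : ι → ℕ) (G : Type)
  [Group G] [TopologicalSpace G] [IsTopologicalGroup G] [CompactSpace G]
  (ρ : ∀ i, G →* Matrix (Fin (N i)) (Fin (N i)) ℚ_[ℓ]), (∀ i, Continuous (ρ i)) →
  ∀ (J : ∀ i, Matrix (Fin (N i)) (Fin (N i)) ℚ_[ℓ]), (∀ i, IsForm (J i)) → (∀ i, 0 < N i) →
  ∀ κ : G →* ℚ_[ℓ], Continuous κ → ∀ w : ι → ℕ, (∀ i g, Sim (J i) (ρ i g) (κ g ^ w i)) →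
  ∀ (k : ℕ) (a : Fin k → ι) (j : ℕ), ∑ t, w (a t) = 2 * j →
  ∀ T : (∀ t, Fin (N (a t))) → ℚ_[ℓ], Killed J a T →
    ∃ U : Subgroup G, IsOpen (U : Set G) ∧ ∀ σ ∈ U, ∀ v : ∀ t, Fin (N (a t)) → ℚ_[ℓ],
      val T (fun t => ρ (a t) σ *ᵥ v t) = κ σ ^ j * val T v

end Pool.Agent.R932.PO
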