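import Pool.Agent.R932.PO.Semi
import Pool.Agent.R932.PO.Stm2

/-!
# Project PO: tensors over the rational numbers and over larger fields
-/

set_option autoImplicit false
set_option linter.unusedSectionVars false
set_option linter.style.haveILetI false

open Matrix Filter Topology
open Pool.Agent.Y142.ZO Pool.Agent.Y142.ZI Pool.Agent.Y142.ZS

namespace Pool.Agent.R932.PO

section val
variable {F : Type} [Field F] {k : ℕ} {M : Fin k → ℕ}

/-- the multilinear form with the coefficients `T` -/
noncomputable def mlin (T : (∀ t, Fin (M t)) → F) :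
    MultilinearMap F (fun t : Fin k => Fin (M t) → F) F :=
  ∑ r, T r • (MultilinearMap.mkPiAlgebra F (Fin k) F).compLinearMap (fun t => LinearMap.proj (r t))

theorem mlin_apply (T : (∀ t, Fin (M t)) → F) (v : ∀ t, Fin (M t) → F) : mlin T v = val T v := by
  unfold mlin val
  rw [_root_.sum_apply]
  refine Finset.sum_congr rfl fun r _ => ?_
  rw [_root_.smul_apply, MultilinearMap.compLinearMap_apply, MultilinearMap.mkPiAlgebra_apply,
    smul_eq_mul]
  rfl

theorem expand (φ : MultilinearMap F (fun t : Fin k => Fin (M t) → F) F) (v : ∀ t, Fin (M t) → F) :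
    φ v = val (fun r => φ (fun t => Pi.single (r t) 1)) v := by
  classical
  have h2 : v = fun t => ∑ j, v t j • (Pi.single j (1 : F) : Fin (M t) → F) := by
    funext t
    exact (pi_eq_sum_univ' (v t))
  conv_lhs => rw [h2]
  rw [MultilinearMap.map_sum]
  unfold val
  refine Finset.sum_congr rfl fun r _ => ?_
  rw [MultilinearMap.map_smul_univ, smul_eq_mul, mul_comm]

theorem val_single (T : (∀ t, Fin (M t)) → F) (r : ∀ t, Fin (M t)) :
    val T (fun t => Pi.single (r t) 1) = T r := by
  classical
  unfold val
  rw [Finset.sum_eq_single r]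
  · simp
  · intro s _ hs
    obtain ⟨t, ht⟩ := Function.ne_iff.1 hs
    rw [Finset.prod_eq_zero (Finset.mem_univ t), mul_zero]
    show (Pi.single (r t) 1 : Fin (M t) → F) (s t) = 0
    rw [Pi.single_eq_of_ne ht]
  · intro h
    exact absurd (Finset.mem_univ r) h

theorem val_zero {T : (∀ t, Fin (M t)) → F} (h : ∀ v, val T v = 0) : T = 0 := by
  funext r
  rw [← val_single T r, h, Pi.zero_apply]

/-- the coefficients of the derivation -/
def dT (T : (∀ t, Fin (M t)) → F) (X : ∀ t, Matrix (Fin (M t)) (Fin (M t)) F) :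
    (∀ t, Fin (M t)) → F :=
  fun r => ∑ t, ∑ p, T (Function.update r t p) * X t p (r t)

theorem val_update (T : (∀ t, Fin (M t)) → F) (r : ∀ t, Fin (M t)) (t : Fin k)
    (u : Fin (M t) → F) :
    val T (Function.update (fun t => (Pi.single (r t) 1 : Fin (M t) → F)) t u) =
      ∑ p, T (Function.update r t p) * u p := by
  classical
  have h1 : u = ∑ p, u p • (Pi.single p (1 : F) : Fin (M t) → F) := pi_eq_sum_univ' u
  conv_lhs => rw [h1]
  rw [← mlin_apply, MultilinearMap.map_update_sum]
  refine Finset.sum_congr rfl fun p _ => ?_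
  rw [MultilinearMap.map_update_smul, smul_eq_mul, mlin_apply]
  have h2 : Function.update (fun t => (Pi.single (r t) 1 : Fin (M t) → F)) t (Pi.single p 1) =
      fun s => Pi.single (Function.update r t p s) 1 := by
    funext s
    by_cases hs : s = t
    · subst hs
      rw [Function.update_self, Function.update_self]
    · rw [Function.update_of_ne hs, Function.update_of_ne hs]
  rw [h2, val_single, mul_comm]

theorem der_val (T : (∀ t, Fin (M t)) → F) (X : ∀ t, Matrix (Fin (M t)) (Fin (M t)) F)
    (v : ∀ t, Fin (M t) → F) :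
    ∑ t, val T (Function.update v t (X t *ᵥ v t)) = val (dT T X) v := by
  classical
  let φ : MultilinearMap F (fun t : Fin k => Fin (M t) → F) F :=
    ∑ t, (mlin T).compLinearMap (Function.update (fun s => LinearMap.id) t (mulVecLin (X t)))
  have hφ : ∀ v, φ v = ∑ t, val T (Function.update v t (X t *ᵥ v t)) := by
    intro v
    simp only [φ]
    rw [_root_.sum_apply]
    refine Finset.sum_congr rfl fun t _ => ?_
    rw [MultilinearMap.compLinearMap_apply, mlin_apply]
    congr 1
    funext s
    by_cases hs : s = t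
    · subst hs
      rw [Function.update_self, Function.update_self, mulVecLin_apply]
    · rw [Function.update_of_ne hs, Function.update_of_ne hs, LinearMap.id_apply]
  rw [← hφ, expand φ]
  congr 1
  funext r
  rw [hφ]
  unfold dT
  refine Finset.sum_congr rfl fun t _ => ?_
  rw [val_update]
  refine Finset.sum_congr rfl fun p _ => ?_
  rw [mulVec_single_one]
  rfl

end val

section fam
variable {F : Type} [Field F] {ι : Type} {N : ι → ℕ}
  {J : ∀ i, Matrix (Fin (N i)) (Fin (N i)) F} {k : ℕ} {a : Fin k → ι}

theorem killed_iff {T : (∀ t, Fin (N (a t))) → F} : Killed J a T ↔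
    ∀ X : ∀ i, Matrix (Fin (N i)) (Fin (N i)) F, (∀ i, SpLie (J i) (X i)) →
      dT T (fun t => X (a t)) = 0 := by
  unfold Killed
  refine forall_congr' fun X => imp_congr_right fun _ => ?_
  constructor
  · intro h
    refine val_zero fun v => ?_
    rw [← der_val]
    exact h v
  · intro h v
    have h1 := der_val T (fun t => X (a t)) v
    rw [h] at h1
    rw [h1]
    unfold val
    exact Finset.sum_eq_zero fun r _ => zero_mul _

theorem dT_add (T T' : (∀ t, Fin (N (a t))) → F) (X : ∀ t, Matrix (Fin (N (a t))) (Fin (N (a t))) F) :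
    dT (T + T') X = dT T X + dT T' X := by
  funext r
  unfold dT
  rw [Pi.add_apply, ← Finset.sum_add_distrib]
  refine Finset.sum_congr rfl fun t _ => ?_
  rw [← Finset.sum_add_distrib]
  refine Finset.sum_congr rfl fun p _ => ?_
  rw [Pi.add_apply, add_mul]

theorem dT_smul (c : F) (T : (∀ t, Fin (N (a t))) → F)
    (X : ∀ t, Matrix (Fin (N (a t))) (Fin (N (a t))) F) : dT (c • T) X = c • dT T X := by
  funext r
  unfold dT
  rw [Pi.smul_apply, smul_eq_mul, Finset.mul_sum]
  refine Finset.sum_congr rfl fun t _ => ?_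
  rw [Finset.mul_sum]
  refine Finset.sum_congr rfl fun p _ => ?_
  rw [Pi.smul_apply, smul_eq_mul, mul_assoc]

end fam

section base
variable {k₀ K : Type} [Field k₀] [Field K] [Algebra k₀ K]

/-- vectors over the larger field are combinations of vectors of coordinates -/
theorem span_rat {R : Type} [Fintype R] (T : R → K) (Q : (R → k₀) → Prop)
    (hQ : ∀ f : K →ₗ[k₀] k₀, Q (fun r => f (T r))) :
    T ∈ Submodule.span K {T' : R → K | ∃ T₀ : R → k₀, Q T₀ ∧ T' = fun r => algebraMap k₀ K (T₀ r)} := by
  classical
  let b := Module.Basis.ofVectorSpace k₀ K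
  let s : Finset _ := Finset.univ.biUnion fun r => (b.repr (T r)).support
  have h1 : T = ∑ i ∈ s, b i • fun r => algebraMap k₀ K (b.coord i (T r)) := by
    funext r
    rw [Finset.sum_apply]
    have h2 := b.linearCombination_repr (T r)
    rw [Finsupp.linearCombination_apply, Finsupp.sum_of_support_subset (s := s) _
      (Finset.subset_biUnion_of_mem (fun r => (b.repr (T r)).support) (Finset.mem_univ r))
      (fun i c => c • b i) (fun i _ => zero_smul _ _)] at h2
    rw [← h2]
    refine Finset.sum_congr rfl fun i _ => ?_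
    rw [Pi.smul_apply, smul_eq_mul, Algebra.smul_def, mul_comm]
    rfl
  rw [h1]
  refine Submodule.sum_mem _ fun i _ => Submodule.smul_mem _ _ (Submodule.subset_span ?_)
  exact ⟨_, hQ (b.coord i), rfl⟩

variable {ι : Type} {N : ι → ℕ} {k : ℕ} {a : Fin k → ι}

/-- a linear form applied to the derivative of a rational tensor -/
theorem dT_rat_left (f : K →ₗ[k₀] k₀) (T : (∀ t, Fin (N (a t))) → k₀)
    (X : ∀ t, Matrix (Fin (N (a t))) (Fin (N (a t))) K) (r : ∀ t, Fin (N (a t))) :
    f (dT (fun r => algebraMap k₀ K (T r)) X r) = dT T (fun t => (X t).map f) r := by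
  unfold dT
  rw [map_sum]
  refine Finset.sum_congr rfl fun t _ => ?_
  rw [map_sum]
  refine Finset.sum_congr rfl fun p _ => ?_
  rw [← Algebra.smul_def, map_smul, smul_eq_mul]
  rfl

/-- a linear form applied to the derivative with respect to rational matrices -/
theorem dT_rat_right (f : K →ₗ[k₀] k₀) (T : (∀ t, Fin (N (a t))) → K)
    (X : ∀ t, Matrix (Fin (N (a t))) (Fin (N (a t))) k₀) (r : ∀ t, Fin (N (a t))) :
    f (dT T (fun t => (X t).map (algebraMap k₀ K)) r) = dT (fun r => f (T r)) X r := by
  unfold dT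
  rw [map_sum]
  refine Finset.sum_congr rfl fun t _ => ?_
  rw [map_sum]
  refine Finset.sum_congr rfl fun p _ => ?_
  show f (T (Function.update r t p) * algebraMap k₀ K (X t p (r t))) =
    f (T (Function.update r t p)) * X t p (r t)
  rw [mul_comm, ← Algebra.smul_def, map_smul, smul_eq_mul, mul_comm]

theorem spLie_map {n : ℕ} {J X : Matrix (Fin n) (Fin n) k₀} (h : SpLie J X) :
    SpLie (J.map (algebraMap k₀ K)) (X.map (algebraMap k₀ K)) := by
  unfold SpLie at h ⊢
  rw [← transpose_map, ← Matrix.map_mul, ← Matrix.map_mul, ← Matrix.map_add _ (map_add _), h,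
    Matrix.map_zero _ (map_zero _)]

theorem spLie_coord {n : ℕ} {J : Matrix (Fin n) (Fin n) k₀} {X : Matrix (Fin n) (Fin n) K}
    (f : K →ₗ[k₀] k₀) (h : SpLie (J.map (algebraMap k₀ K)) X) : SpLie J (X.map f) := by
  unfold SpLie at h ⊢
  ext p q
  have h1 := congrArg f (congrFun (congrFun h p) q)
  rw [Matrix.zero_apply, map_zero] at h1
  rw [Matrix.zero_apply, ← h1, Matrix.add_apply, Matrix.add_apply, map_add, Matrix.mul_apply,
    Matrix.mul_apply, Matrix.mul_apply, Matrix.mul_apply, map_sum, map_sum]
  congr 1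
  · refine Finset.sum_congr rfl fun j _ => ?_
    rw [Matrix.transpose_apply, Matrix.transpose_apply, Matrix.map_apply, Matrix.map_apply, mul_comm,
      mul_comm (X j p), ← Algebra.smul_def, map_smul, smul_eq_mul]
  · refine Finset.sum_congr rfl fun j _ => ?_
    rw [Matrix.map_apply, Matrix.map_apply, ← Algebra.smul_def, map_smul, smul_eq_mul]

variable {J : ∀ i, Matrix (Fin (N i)) (Fin (N i)) k₀}

/-- rational killed tensors are killed over the larger field -/
theorem killed_up {T : (∀ t, Fin (N (a t))) → k₀} (h : Killed J a T) :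
    Killed (fun i => (J i).map (algebraMap k₀ K)) a (fun r => algebraMap k₀ K (T r)) := by
  rw [killed_iff] at h ⊢
  intro X hX
  funext r
  rw [Pi.zero_apply, ← Module.forall_dual_apply_eq_zero_iff k₀]
  intro f
  rw [dT_rat_left, h (fun i => (X i).map f) (fun i => spLie_coord f (hX i)), Pi.zero_apply]

/-- killed tensors over the larger field are combinations of rational killed tensors -/
theorem killed_span {T : (∀ t, Fin (N (a t))) → K} :
    Killed (fun i => (J i).map (algebraMap k₀ K)) a T ↔
    T ∈ Submodule.span K {T' : (∀ t, Fin (N (a t))) → K | ∃ T₀ : (∀ t, Fin (N (a t))) → k₀,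
      Killed J a T₀ ∧ T' = fun r => algebraMap k₀ K (T₀ r)} := by
  constructor
  · intro h
    refine span_rat T _ fun f => ?_
    rw [killed_iff] at h ⊢
    intro X hX
    funext r
    rw [← dT_rat_right, h (fun i => (X i).map (algebraMap k₀ K)) (fun i => spLie_map (hX i)),
      Pi.zero_apply, Pi.zero_apply, map_zero]
  · intro h
    induction h using Submodule.span_induction with
    | mem T hT =>
      obtain ⟨T₀, h0, rfl⟩ := hT
      exact killed_up h0
    | zero =>
      rw [killed_iff]
      intro X _
      funext r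
      unfold dT
      simp
    | add T T' _ _ hT hT' =>
      rw [killed_iff] at hT hT' ⊢
      intro X hX
      rw [dT_add, hT X hX, hT' X hX, add_zero]
    | smul c T _ hT =>
      rw [killed_iff] at hT ⊢
      intro X hX
      rw [dT_smul, hT X hX, smul_zero]

end base

section hodge
variable {ι : Type} [Fintype ι] {N : ι → ℕ} {J : ∀ i, Matrix (Fin (N i)) (Fin (N i)) ℚ}

/-- the operators `h` preserve the forms, and every rational Lie algebra whose complexification
contains them contains the Lie algebra of the forms -/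
def Generic (J : ∀ i, Matrix (Fin (N i)) (Fin (N i)) ℚ)
    (h : ∀ i, Matrix (Fin (N i)) (Fin (N i)) ℂ) : Prop :=
  (∀ i, SpLie ((J i).map (algebraMap ℚ ℂ)) (h i)) ∧
  ∀ 𝔞 : Submodule ℚ (∀ i, Matrix (Fin (N i)) (Fin (N i)) ℚ),
    (∀ X ∈ 𝔞, ∀ Y ∈ 𝔞, (fun i => X i * Y i - Y i * X i) ∈ 𝔞) →
    h ∈ Submodule.span ℂ {Z : ∀ i, Matrix (Fin (N i)) (Fin (N i)) ℂ |
      ∃ X ∈ 𝔞, Z = fun i => (X i).map (algebraMap ℚ ℂ)} →
    ∀ X, (∀ i, SpLie (J i) (X i)) → X ∈ 𝔞

theorem hodge_killed {h : ∀ i, Matrix (Fin (N i)) (Fin (N i)) ℂ} (hg : Generic J h) {k : ℕ}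
    {a : Fin k → ι} {T : (∀ t, Fin (N (a t))) → ℚ} :
    (∀ v : ∀ t, Fin (N (a t)) → ℂ,
      ∑ t, val (fun r => (T r : ℂ)) (Function.update v t (h (a t) *ᵥ v t)) = 0) ↔ Killed J a T := by
  have h0 : (∀ v : ∀ t, Fin (N (a t)) → ℂ,
      ∑ t, val (fun r => (T r : ℂ)) (Function.update v t (h (a t) *ᵥ v t)) = 0) ↔
      dT (fun r => algebraMap ℚ ℂ (T r)) (fun t => h (a t)) = 0 := by
    constructor
    · intro h1
      refine val_zero fun v => ?_
      rw [← der_val]
      exact h1 v
    · intro h1 v
      have h2 := der_val (fun r => (T r : ℂ)) (fun t => h (a t)) v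
      rw [h2]
      have h3 : dT (fun r => (T r : ℂ)) (fun t => h (a t)) = 0 := h1
      rw [h3]
      unfold val
      exact Finset.sum_eq_zero fun r _ => zero_mul _
  rw [h0]
  constructor
  · intro h1
    rw [killed_iff]
    let 𝔞 : Submodule ℚ (∀ i, Matrix (Fin (N i)) (Fin (N i)) ℚ) :=
      { carrier := {X | ∀ v, der (mlin T) (fun t => X (a t)) v = 0}
        zero_mem' := by
          intro v
          have h1 := der_smul (mlin T) 0
            (fun t => (0 : ∀ i, Matrix (Fin (N i)) (Fin (N i)) ℚ) (a t)) v
          rw [zero_smul, zero_mul] at h1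
          exact h1
        add_mem' := by
          intro X Y hX hY v
          have h1 := der_add (mlin T) (fun t => X (a t)) (fun t => Y (a t)) v
          rw [hX v, hY v, add_zero] at h1
          exact h1
        smul_mem' := by
          intro c X hX v
          have h1 := der_smul (mlin T) c (fun t => X (a t)) v
          rw [hX v, mul_zero] at h1
          exact h1 }
    have h𝔞 : ∀ X, X ∈ 𝔞 ↔ dT T (fun t => X (a t)) = 0 := by
      intro X
      have h2 : ∀ v, der (mlin T) (fun t => X (a t)) v = val (dT T (fun t => X (a t))) v := by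
        intro v
        rw [← der_val]
        unfold der
        exact Finset.sum_congr rfl fun t _ => mlin_apply _ _
      constructor
      · intro h3
        refine val_zero fun v => ?_
        rw [← h2]
        exact h3 v
      · intro h3 v
        rw [h2, h3]
        unfold val
        exact Finset.sum_eq_zero fun r _ => zero_mul _
    intro X hX
    refine (h𝔞 X).1 (hg.2 𝔞 ?_ ?_ X hX)
    · intro X hX Y hY v
      exact der_bracket (mlin T) _ _ (a := 0) (b := 0) (fun v => by rw [hX v, zero_mul])
        (fun v => by rw [hY v, zero_mul]) v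
    · classical
      have h2 := span_rat (k₀ := ℚ) (K := ℂ) (R := Σ i, Fin (N i) × Fin (N i))
        (fun r => h r.1 r.2.1 r.2.2)
        (fun x => (fun i => Matrix.of fun p q => x ⟨i, (p, q)⟩) ∈ 𝔞) ?_
      · let Λ : ((Σ i, Fin (N i) × Fin (N i)) → ℂ) →ₗ[ℂ] (∀ i, Matrix (Fin (N i)) (Fin (N i)) ℂ) :=
          { toFun := fun x i => Matrix.of fun p q => x ⟨i, (p, q)⟩
            map_add' := fun x y => rfl
            map_smul' := fun c x => rfl }
        have h3 : h = Λ (fun r => h r.1 r.2.1 r.2.2) := rfl
        rw [h3]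
        have h4 := Submodule.mem_map_of_mem (f := Λ) h2
        rw [Submodule.map_span] at h4
        refine Submodule.span_mono ?_ h4
        rintro _ ⟨_, ⟨T₀, hT₀, rfl⟩, rfl⟩
        exact ⟨_, hT₀, rfl⟩
      · intro f
        rw [h𝔞]
        funext r
        have h3 := dT_rat_left f T (fun t => h (a t)) r
        rw [h1, Pi.zero_apply, map_zero] at h3
        rw [Pi.zero_apply]
        exact h3.symm
  · intro h1
    have h2 := killed_up (K := ℂ) h1
    rw [killed_iff] at h2
    exact h2 h hg.1

end hodge

end Pool.Agent.R932.PO
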