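import Pool.Agent.R932.PO.Top
import Pool.Agent.R932.PO.Hdg
import Pool.Agent.R932.PO.Pair
import Pool.Agent.R932.ProdC
import Pool.Agent.R932.OP.AltB

/-!
# Project PO: Tate classes and Hodge classes in all tensor products
-/

set_option autoImplicit false
set_option linter.unusedSectionVars false
set_option linter.style.haveILetI false

open Matrix Polynomial Filter Topology NumberField IsDedekindDomain Function
open Pool.Agent.Y142.ZO Pool.Agent.Y142.ZI Pool.Agent.Y142.ZS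
open Pool.Agent.R932.OP Pool.Agent.R932.EV

namespace Pool.Agent.R932.PO

section build
variable {K : Type} [Field K]

/-- a quadrilinear form as a multilinear map on a word -/
def four {ι : Type} {N : ι → ℕ} (i j : ι)
    (φ : (Fin (N i) → K) →ₗ[K] (Fin (N i) → K) →ₗ[K] (Fin (N j) → K) →ₗ[K]
      (Fin (N j) → K) →ₗ[K] K) :
    MultilinearMap K (fun t : Fin 4 => Fin (N ((![i, i, j, j] : Fin 4 → ι) t)) → K) K where
  toFun v := φ (v 0) (v 1) (v 2) (v 3)
  map_update_add' := by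
    have h : ∀ s t : Fin 4, s.val ≠ t.val → s ≠ t := fun s t h h' => h (by rw [h'])
    have h10 := h 1 0 (by decide)
    have h20 := h 2 0 (by decide)
    have h30 := h 3 0 (by decide)
    have h21 := h 2 1 (by decide)
    have h31 := h 3 1 (by decide)
    have h32 := h 3 2 (by decide)
    intro _ m t x y
    match t with
    | 0 =>
      rw [update_self, update_self, update_self, update_of_ne h10, update_of_ne h20,
        update_of_ne h30, update_of_ne h10, update_of_ne h20, update_of_ne h30,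
        update_of_ne h10, update_of_ne h20, update_of_ne h30]
      exact congrArg (fun f => f (m 1) (m 2) (m 3)) (map_add φ x y)
    | 1 =>
      rw [update_self, update_self, update_self, update_of_ne h10.symm, update_of_ne h21,
        update_of_ne h31, update_of_ne h10.symm, update_of_ne h21,
        update_of_ne h31, update_of_ne h10.symm, update_of_ne h21,
        update_of_ne h31]
      exact congrArg (fun f => f (m 2) (m 3)) (map_add (φ (m 0)) x y)
    | 2 =>
      rw [update_self, update_self, update_self, update_of_ne h20.symm, update_of_ne h21.symm,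
        update_of_ne h32, update_of_ne h20.symm, update_of_ne h21.symm,
        update_of_ne h32, update_of_ne h20.symm, update_of_ne h21.symm,
        update_of_ne h32]
      exact congrArg (fun f => f (m 3)) (map_add (φ (m 0) (m 1)) x y)
    | 3 =>
      rw [update_self, update_self, update_self, update_of_ne h30.symm, update_of_ne h31.symm,
        update_of_ne h32.symm, update_of_ne h30.symm, update_of_ne h31.symm,
        update_of_ne h32.symm, update_of_ne h30.symm, update_of_ne h31.symm,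
        update_of_ne h32.symm]
      exact map_add (φ (m 0) (m 1) (m 2)) x y
  map_update_smul' := by
    have h : ∀ s t : Fin 4, s.val ≠ t.val → s ≠ t := fun s t h h' => h (by rw [h'])
    have h10 := h 1 0 (by decide)
    have h20 := h 2 0 (by decide)
    have h30 := h 3 0 (by decide)
    have h21 := h 2 1 (by decide)
    have h31 := h 3 1 (by decide)
    have h32 := h 3 2 (by decide)
    intro _ m t c x
    match t with
    | 0 =>
      rw [update_self, update_self, update_of_ne h10, update_of_ne h20,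
        update_of_ne h30, update_of_ne h10, update_of_ne h20, update_of_ne h30]
      exact congrArg (fun f => f (m 1) (m 2) (m 3)) (map_smul φ c x)
    | 1 =>
      rw [update_self, update_self, update_of_ne h10.symm, update_of_ne h21,
        update_of_ne h31, update_of_ne h10.symm, update_of_ne h21, update_of_ne h31]
      exact congrArg (fun f => f (m 2) (m 3)) (map_smul (φ (m 0)) c x)
    | 2 =>
      rw [update_self, update_self, update_of_ne h20.symm, update_of_ne h21.symm,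
        update_of_ne h32, update_of_ne h20.symm, update_of_ne h21.symm, update_of_ne h32]
      exact congrArg (fun f => f (m 3)) (map_smul (φ (m 0) (m 1)) c x)
    | 3 =>
      rw [update_self, update_self, update_of_ne h30.symm, update_of_ne h31.symm,
        update_of_ne h32.symm, update_of_ne h30.symm, update_of_ne h31.symm,
        update_of_ne h32.symm]
      exact map_smul (φ (m 0) (m 1) (m 2)) c x

theorem four_apply {ι : Type} {N : ι → ℕ} (i j : ι)
    (φ : (Fin (N i) → K) →ₗ[K] (Fin (N i) → K) →ₗ[K] (Fin (N j) → K) →ₗ[K]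
      (Fin (N j) → K) →ₗ[K] K)
    (v : ∀ t : Fin 4, Fin (N ((![i, i, j, j] : Fin 4 → ι) t)) → K) :
    four i j φ v = φ (v 0) (v 1) (v 2) (v 3) := rfl

/-- a bilinear form as a multilinear map -/
def two {n : ℕ} (B : Matrix (Fin n) (Fin n) K) :
    MultilinearMap K (fun _ : Fin 2 => Fin n → K) K where
  toFun v := v 0 ⬝ᵥ B *ᵥ v 1
  map_update_add' := by
    have h : ∀ s t : Fin 2, s.val ≠ t.val → s ≠ t := fun s t h h' => h (by rw [h'])
    have h10 := h 1 0 (by decide)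
    intro _ m t x y
    match t with
    | 0 =>
      rw [update_self, update_self, update_self, update_of_ne h10, update_of_ne h10,
        update_of_ne h10, add_dotProduct]
    | 1 =>
      rw [update_self, update_self, update_self, update_of_ne h10.symm, update_of_ne h10.symm,
        update_of_ne h10.symm, mulVec_add, dotProduct_add]
  map_update_smul' := by
    have h : ∀ s t : Fin 2, s.val ≠ t.val → s ≠ t := fun s t h h' => h (by rw [h'])
    have h10 := h 1 0 (by decide)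
    intro _ m t c x
    match t with
    | 0 =>
      rw [update_self, update_self, update_of_ne h10, update_of_ne h10, smul_dotProduct]
    | 1 =>
      rw [update_self, update_self, update_of_ne h10.symm, update_of_ne h10.symm, mulVec_smul,
        dotProduct_smul]

theorem two_apply {n : ℕ} (B : Matrix (Fin n) (Fin n) K) (v : Fin 2 → Fin n → K) :
    two B v = v 0 ⬝ᵥ B *ᵥ v 1 := rfl

end build

section words
variable {ℓ : ℕ} [hℓ : Fact ℓ.Prime] {ι : Type} [Fintype ι] [DecidableEq ι] {N w : ι → ℕ}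
  {G : Type} [Group G] [TopologicalSpace G] [IsTopologicalGroup G] [CompactSpace G]
  {ρ : ∀ i, G →* Matrix (Fin (N i)) (Fin (N i)) ℚ_[ℓ]}
  {J : ∀ i, Matrix (Fin (N i)) (Fin (N i)) ℚ_[ℓ]} {κ : G →* ℚ_[ℓ]}

/-- the tensor is a Tate class: an open subgroup acts by the power of the character -/
def IsTate (ρ : ∀ i, G →* Matrix (Fin (N i)) (Fin (N i)) ℚ_[ℓ]) (κ : G →* ℚ_[ℓ]) {k : ℕ}
    (a : Fin k → ι) (j : ℕ) (T : (∀ t, Fin (N (a t))) → ℚ_[ℓ]) : Prop :=
  ∃ U : Subgroup G, IsOpen (U : Set G) ∧ ∀ σ ∈ U, ∀ v : ∀ t, Fin (N (a t)) → ℚ_[ℓ],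
    val T (fun t => ρ (a t) σ *ᵥ v t) = κ σ ^ j * val T v

theorem killed_of_tate (hρ : ∀ i, Continuous (ρ i)) (hJ : ∀ i, IsForm (J i))
    (hfull : ∀ X, (∀ i, SpLie (J i) (X i)) → JTan ℓ ρ X) {k : ℕ} {a : Fin k → ι} {j : ℕ}
    {T : (∀ t, Fin (N (a t))) → ℚ_[ℓ]} (hT : IsTate ρ κ a j T) : Killed J a T := by
  obtain ⟨U, hU, hT⟩ := hT
  intro X hX v
  have h1 := semi_killed hρ hJ hfull (mlin T) hU (χ := fun σ => κ σ ^ j)
    (fun σ hσ v => by rw [mlin_apply, mlin_apply]; exact hT σ hσ v) hX v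
  unfold der at h1
  rw [← h1]
  exact Finset.sum_congr rfl fun t _ => (mlin_apply _ _).symm

theorem single_spLie (i : ι) {X : Matrix (Fin (N i)) (Fin (N i)) ℚ_[ℓ]} (hX : SpLie (J i) X)
    (j : ι) : SpLie (J j) ((Pi.single i X : ∀ i, Matrix (Fin (N i)) (Fin (N i)) ℚ_[ℓ]) j) := by
  by_cases hj : j = i
  · subst hj
    rw [Pi.single_eq_same]
    exact hX
  · rw [Pi.single_eq_of_ne hj]
    unfold SpLie
    rw [transpose_zero, zero_mul, mul_zero, add_zero]

/-- the Tate classes in the fourth power -/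
theorem tate4_of (i : ι) (hJ : IsForm (J i)) (hN : 0 < N i)
    (hmult : ∀ g, Sim (J i) (ρ i g) (κ g ^ w i))
    (hT : ∀ T, IsTate ρ κ (fun _ : Fin 4 => i) (2 * w i) T → Killed J (fun _ : Fin 4 => i) T) :
    Tate4 ℓ (ρ i) (J i) := by
  intro φ U hU hφ
  have h1 := hT (fun r => φ (fun t => Pi.single (r t) 1)) ⟨U, hU, fun σ hσ v => by
    rw [← expand φ, ← expand φ, hφ σ hσ _ (hmult σ) v, mul_comm 2 (w i), pow_mul]⟩
  refine fft ?_ hJ.2 hN ?_ φ fun X hX v => ?_
  · rcases hJ.1 with h | h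
    · exact Or.inl h.1
    · exact Or.inr h
  · rcases hJ.1 with h | h
    · left
      have := h.2
      omega
    · exact Or.inr h
  · have h2 := h1 (Pi.single i X) (fun j => single_spLie i hX j) v
    rw [← h2]
    refine Finset.sum_congr rfl fun t _ => ?_
    show φ (Function.update v t (X *ᵥ v t)) = val _ (Function.update v t
      ((Pi.single i X : ∀ i, Matrix (Fin (N i)) (Fin (N i)) ℚ_[ℓ]) i *ᵥ v t))
    rw [Pi.single_eq_same]
    exact expand φ _

/-- the endomorphisms -/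
theorem sc_of (i : ι) (hJ : IsForm (J i)) (hN : 0 < N i)
    (hmult : ∀ g, Sim (J i) (ρ i g) (κ g ^ w i))
    (hT : ∀ T, IsTate ρ κ (fun _ : Fin 2 => i) (w i) T → Killed J (fun _ : Fin 2 => i) T) :
    SC (ρ i) := by
  intro A U hU hA
  have hval : ∀ v : Fin 2 → Fin (N i) → ℚ_[ℓ],
      val (fun r => two (J i * A) (fun t => Pi.single (r t) 1)) v = v 0 ⬝ᵥ (J i * A) *ᵥ v 1 := by
    intro v
    rw [← two_apply]
    exact (expand (two (J i * A)) v).symm
  have h1 := hT (fun r => two (J i * A) (fun t => Pi.single (r t) 1)) ⟨U, hU, fun σ hσ v => by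
    have e1 := hval (fun t => ρ i σ *ᵥ v t)
    have e2 := hval v
    refine e1.trans ?_
    refine Eq.trans ?_ (congrArg (fun x => κ σ ^ w i * x) e2.symm)
    show (ρ i σ *ᵥ v 0) ⬝ᵥ (J i * A) *ᵥ (ρ i σ *ᵥ v 1) = κ σ ^ w i * (v 0 ⬝ᵥ (J i * A) *ᵥ v 1)
    have e3 : (ρ i σ)ᵀ * (J i * A) * ρ i σ = κ σ ^ w i • (J i * A) := by
      have e4 : (ρ i σ)ᵀ * J i * ρ i σ = κ σ ^ w i • J i := hmult σ
      calc (ρ i σ)ᵀ * (J i * A) * ρ i σ = (ρ i σ)ᵀ * J i * (A * ρ i σ) := by noncomm_ring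
        _ = (ρ i σ)ᵀ * J i * ρ i σ * A := by rw [hA σ hσ]; noncomm_ring
        _ = _ := by rw [e4, smul_mul_assoc]
    rw [mulVec_mulVec, ← vecMul_transpose, ← dotProduct_mulVec, mulVec_mulVec, ← mul_assoc, e3,
      smul_mulVec, dotProduct_smul, smul_eq_mul]⟩
  have h2 : (fun v => two (J i * A) v) ∈ Submodule.span ℚ_[ℓ] (prs (J i) 2) := by
    refine fft ?_ hJ.2 hN ?_ (two (J i * A)) fun X hX v => ?_
    · rcases hJ.1 with h | h
      · exact Or.inl h.1
      · exact Or.inr h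
    · rcases hJ.1 with h | h
      · left
        have := h.2
        omega
      · exact Or.inr h
    · have h2 := h1 (Pi.single i X) (fun j => single_spLie i hX j) v
      rw [← h2]
      refine Finset.sum_congr rfl fun t _ => ?_
      show two (J i * A) (Function.update v t (X *ᵥ v t)) = val _ (Function.update v t
        ((Pi.single i X : ∀ i, Matrix (Fin (N i)) (Fin (N i)) ℚ_[ℓ]) i *ᵥ v t))
      rw [Pi.single_eq_same]
      exact expand (two (J i * A)) _
  have h3 : ∃ c : ℚ_[ℓ], ∀ v, two (J i * A) v = c * (v 0 ⬝ᵥ J i *ᵥ v 1) := by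
    have h4 : ∀ f : (Fin 2 → Fin (N i) → ℚ_[ℓ]) → ℚ_[ℓ],
        f ∈ Submodule.span ℚ_[ℓ] (prs (J i) 2) → ∃ c : ℚ_[ℓ], ∀ v, f v = c * (v 0 ⬝ᵥ J i *ᵥ v 1) := by
      intro f hf
      induction hf using Submodule.span_induction with
      | mem f hf =>
        obtain ⟨π, hπ1, hπ2, hf⟩ := hf
        have hπ : ∀ π : Equiv.Perm (Fin 2), (∀ j, π j ≠ j) → π = Equiv.swap 0 1 := by decide
        rw [hπ π hπ2] at hf
        refine ⟨1, fun v => ?_⟩
        rw [hf, one_mul, Finset.prod_filter, Fin.prod_univ_two]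
        simp
      | zero => exact ⟨0, fun v => by rw [Pi.zero_apply, zero_mul]⟩
      | add f g _ _ hf hg =>
        obtain ⟨c, hc⟩ := hf
        obtain ⟨d, hd⟩ := hg
        exact ⟨c + d, fun v => by rw [Pi.add_apply, hc, hd, add_mul]⟩
      | smul b f _ hf =>
        obtain ⟨c, hc⟩ := hf
        exact ⟨b * c, fun v => by rw [Pi.smul_apply, smul_eq_mul, hc, mul_assoc]⟩
    exact h4 _ h2
  obtain ⟨c, hc⟩ := h3
  refine ⟨c, ?_⟩
  have hu : IsUnit (J i).det := isUnit_iff_ne_zero.2 hJ.2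
  have h4 : J i * A = c • J i := by
    ext p q
    have h5 := hc ![Pi.single p 1, Pi.single q 1]
    rw [two_apply] at h5
    simp only [Matrix.cons_val_zero, Matrix.cons_val_one, single_one_dotProduct,
      mulVec_single_one] at h5
    simpa using h5
  have h5 := congrArg (fun B => (J i)⁻¹ * B) h4
  simp only [mul_smul_comm] at h5
  rwa [← mul_assoc, nonsing_inv_mul _ hu, one_mul] at h5

/-- no equivariant maps between the endomorphisms of different representations -/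
theorem pair_of (i j : ι) (hij : i ≠ j) (hJi : IsForm (J i)) (hJj : IsForm (J j))
    (hmi : ∀ g, Sim (J i) (ρ i g) (κ g ^ w i)) (hmj : ∀ g, Sim (J j) (ρ j g) (κ g ^ w j))
    (hT : ∀ T, IsTate ρ κ (![i, i, j, j] : Fin 4 → ι) (w i + w j) T →
      Killed J (![i, i, j, j] : Fin 4 → ι) T)
    (Θ : Matrix (Fin (N j)) (Fin (N j)) ℚ_[ℓ] →ₗ[ℚ_[ℓ]] Matrix (Fin (N i)) (Fin (N i)) ℚ_[ℓ])
    (h1 : ∀ g A, Θ (ρ j g * A * ρ j g⁻¹) = ρ i g * Θ A * ρ i g⁻¹)
    (h2 : ∀ A, SpLie (J i) (Θ A)) : ∀ A, Θ A = 0 := by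
  classical
  let b : (Fin (N j) → ℚ_[ℓ]) → (Fin (N j) → ℚ_[ℓ]) → Matrix (Fin (N j)) (Fin (N j)) ℚ_[ℓ] :=
    fun w₁ w₂ => vecMulVec w₁ w₂ * J j
  have ha1 : ∀ x y w, b (x + y) w = b x w + b y w := by
    intro x y w
    simp only [b]
    rw [add_vecMulVec, add_mul]
  have ha2 : ∀ (c : ℚ_[ℓ]) x w, b (c • x) w = c • b x w := by
    intro c x w
    simp only [b]
    rw [smul_vecMulVec, smul_mul_assoc]
  have ha3 : ∀ x y w, b w (x + y) = b w x + b w y := by
    intro x y w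
    simp only [b]
    rw [vecMulVec_add, add_mul]
  have ha4 : ∀ (c : ℚ_[ℓ]) x w, b w (c • x) = c • b w x := by
    intro c x w
    simp only [b]
    rw [vecMulVec_smul, smul_mul_assoc]
  let φ₂ : (Fin (N j) → ℚ_[ℓ]) →ₗ[ℚ_[ℓ]] (Fin (N j) → ℚ_[ℓ]) →ₗ[ℚ_[ℓ]]
      Matrix (Fin (N i)) (Fin (N i)) ℚ_[ℓ] :=
    LinearMap.mk₂ ℚ_[ℓ] (fun w₁ w₂ => Θ (b w₁ w₂))
      (fun x y w => by rw [ha1, map_add]) (fun c x w => by rw [ha2, map_smul])
      (fun w x y => by rw [ha3, map_add]) (fun c w x => by rw [ha4, map_smul])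
  let ψ : (Fin (N i) → ℚ_[ℓ]) → (Fin (N i) → ℚ_[ℓ]) →
      Matrix (Fin (N i)) (Fin (N i)) ℚ_[ℓ] →ₗ[ℚ_[ℓ]] ℚ_[ℓ] :=
    fun v₁ v₂ =>
      { toFun := fun B => v₁ ⬝ᵥ J i *ᵥ (B *ᵥ v₂)
        map_add' := fun x y => by rw [add_mulVec, mulVec_add, dotProduct_add]
        map_smul' := fun c x => by
          rw [smul_mulVec, mulVec_smul, dotProduct_smul, RingHom.id_apply] }
  have hψ : ∀ v₁ v₂ B, ψ v₁ v₂ B = v₁ ⬝ᵥ J i *ᵥ (B *ᵥ v₂) := fun _ _ _ => rfl
  let φ : (Fin (N i) → ℚ_[ℓ]) →ₗ[ℚ_[ℓ]] (Fin (N i) → ℚ_[ℓ]) →ₗ[ℚ_[ℓ]] (Fin (N j) → ℚ_[ℓ]) →ₗ[ℚ_[ℓ]]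
      (Fin (N j) → ℚ_[ℓ]) →ₗ[ℚ_[ℓ]] ℚ_[ℓ] :=
    LinearMap.mk₂ ℚ_[ℓ] (fun v₁ v₂ => φ₂.compr₂ (ψ v₁ v₂))
      (fun x y w => by
        ext p q
        simp only [LinearMap.compr₂_apply, LinearMap.add_apply, hψ, LinearMap.comp_apply,
          add_dotProduct])
      (fun c x w => by
        ext p q
        simp only [LinearMap.compr₂_apply, LinearMap.smul_apply, hψ, LinearMap.comp_apply,
          smul_dotProduct])
      (fun w x y => by
        ext p q
        simp only [LinearMap.compr₂_apply, LinearMap.add_apply, hψ, LinearMap.comp_apply,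
          mulVec_add, dotProduct_add])
      (fun c w x => by
        ext p q
        simp only [LinearMap.compr₂_apply, LinearMap.smul_apply, hψ, LinearMap.comp_apply,
          mulVec_smul, dotProduct_smul])
  have hφ : ∀ v₁ v₂ w₁ w₂, φ v₁ v₂ w₁ w₂ = v₁ ⬝ᵥ J i *ᵥ (Θ (b w₁ w₂) *ᵥ v₂) :=
    fun _ _ _ _ => rfl
  have hequiv : ∀ g v₁ v₂ w₁ w₂, φ (ρ i g *ᵥ v₁) (ρ i g *ᵥ v₂) (ρ j g *ᵥ w₁) (ρ j g *ᵥ w₂) =
      κ g ^ (w i + w j) * φ v₁ v₂ w₁ w₂ := by
    intro g v₁ v₂ w₁ w₂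
    have hinv : ρ i g⁻¹ * ρ i g = 1 := by rw [← map_mul, inv_mul_cancel, map_one]
    have hinv' : ρ j g * ρ j g⁻¹ = 1 := by rw [← map_mul, mul_inv_cancel, map_one]
    have e1 : (ρ j g)ᵀ * J j = (κ g ^ w j) • (J j * ρ j g⁻¹) := by
      have e2 : (ρ j g)ᵀ * J j * ρ j g = (κ g ^ w j) • J j := hmj g
      calc (ρ j g)ᵀ * J j = (ρ j g)ᵀ * J j * ρ j g * ρ j g⁻¹ := by rw [mul_assoc, hinv', mul_one]
        _ = (κ g ^ w j) • (J j * ρ j g⁻¹) := by rw [e2, smul_mul_assoc]
    have e3 : b (ρ j g *ᵥ w₁) (ρ j g *ᵥ w₂) = (κ g ^ w j) • (ρ j g * b w₁ w₂ * ρ j g⁻¹) := by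
      simp only [b]
      have e4 : vecMulVec (ρ j g *ᵥ w₁) (ρ j g *ᵥ w₂) = ρ j g * vecMulVec w₁ w₂ * (ρ j g)ᵀ := by
        rw [mul_vecMulVec, vecMulVec_mul, vecMul_transpose]
      rw [e4, mul_assoc, e1, mul_smul_comm]
      congr 1
      noncomm_ring
    rw [hφ, hφ, e3, map_smul, h1, smul_mulVec, mulVec_smul, dotProduct_smul, smul_eq_mul]
    have e5 : (ρ i g * Θ (b w₁ w₂) * ρ i g⁻¹) *ᵥ (ρ i g *ᵥ v₂) = ρ i g *ᵥ (Θ (b w₁ w₂) *ᵥ v₂) := by
      rw [mulVec_mulVec, mulVec_mulVec, mul_assoc, hinv, mul_one]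
    have e6 : ∀ x y : Fin (N i) → ℚ_[ℓ],
        (ρ i g *ᵥ x) ⬝ᵥ J i *ᵥ (ρ i g *ᵥ y) = κ g ^ w i * (x ⬝ᵥ J i *ᵥ y) := by
      intro x y
      have e7 : (ρ i g)ᵀ * J i * ρ i g = (κ g ^ w i) • J i := hmi g
      have e8 : ((ρ i g)ᵀ * J i * ρ i g) *ᵥ y = (κ g ^ w i) • (J i *ᵥ y) := by rw [e7, smul_mulVec]
      calc (ρ i g *ᵥ x) ⬝ᵥ J i *ᵥ (ρ i g *ᵥ y) = x ⬝ᵥ ((ρ i g)ᵀ * J i * ρ i g) *ᵥ y := by
            rw [← mulVec_mulVec, ← mulVec_mulVec, dotProduct_mulVec x, vecMul_transpose]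
        _ = κ g ^ w i * (x ⬝ᵥ J i *ᵥ y) := by rw [e8, dotProduct_smul, smul_eq_mul]
    rw [e5, e6, pow_add]
    ring
  have hk := hT (fun r => four i j φ (fun t => Pi.single (r t) 1))
    ⟨⊤, isOpen_univ, fun g _ v => by
      rw [← expand (four i j φ), ← expand (four i j φ), four_apply, four_apply]
      exact hequiv g (v 0) (v 1) (v 2) (v 3)⟩
  -- the values are central
  have h3 : ∀ w₁ w₂, Θ (b w₁ w₂) = 0 := by
    intro w₁ w₂
    refine center_zero hJi (h2 _) fun X hX => ?_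
    have hcomm : J i * (Θ (b w₁ w₂) * X) = J i * (X * Θ (b w₁ w₂)) := by
      ext p q
      let v : ∀ t : Fin 4, Fin (N ((![i, i, j, j] : Fin 4 → ι) t)) → ℚ_[ℓ] := fun t =>
        match t with
        | 0 => (Pi.single p 1 : Fin (N i) → ℚ_[ℓ])
        | 1 => (Pi.single q 1 : Fin (N i) → ℚ_[ℓ])
        | 2 => w₁
        | 3 => w₂
      have h4 := hk (Pi.single i X) (fun j => single_spLie i hX j) v
      have hs1 : (Pi.single i X : ∀ i, Matrix (Fin (N i)) (Fin (N i)) ℚ_[ℓ]) i = X := by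
        rw [Pi.single_eq_same]
      have hs2 : (Pi.single i X : ∀ i, Matrix (Fin (N i)) (Fin (N i)) ℚ_[ℓ]) j = 0 := by
        rw [Pi.single_eq_of_ne (Ne.symm hij)]
      have h5 : ∀ u, val (fun r => four i j φ (fun t => Pi.single (r t) 1)) u =
          φ (u 0) (u 1) (u 2) (u 3) := by
        intro u
        rw [← expand (four i j φ), four_apply]
      rw [Fin.sum_univ_four, h5, h5, h5, h5] at h4
      have h : ∀ s t : Fin 4, s.val ≠ t.val → s ≠ t := fun s t h h' => h (by rw [h'])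
      have h10 := h 1 0 (by decide)
      have h20 := h 2 0 (by decide)
      have h30 := h 3 0 (by decide)
      have h21 := h 2 1 (by decide)
      have h31 := h 3 1 (by decide)
      have h32 := h 3 2 (by decide)
      rw [update_self, update_of_ne h10, update_of_ne h20, update_of_ne h30,
        update_self, update_of_ne h10.symm, update_of_ne h21, update_of_ne h31,
        update_self, update_of_ne h20.symm, update_of_ne h21.symm, update_of_ne h32,
        update_self, update_of_ne h30.symm, update_of_ne h31.symm, update_of_ne h32.symm] at h4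
      have h6 : φ ((Pi.single i X : ∀ i, Matrix (Fin (N i)) (Fin (N i)) ℚ_[ℓ]) i *ᵥ
            (Pi.single p 1 : Fin (N i) → ℚ_[ℓ])) (Pi.single q 1 : Fin (N i) → ℚ_[ℓ]) w₁ w₂ +
          φ (Pi.single p 1 : Fin (N i) → ℚ_[ℓ])
            ((Pi.single i X : ∀ i, Matrix (Fin (N i)) (Fin (N i)) ℚ_[ℓ]) i *ᵥ
              (Pi.single q 1 : Fin (N i) → ℚ_[ℓ])) w₁ w₂ +
          φ (Pi.single p 1 : Fin (N i) → ℚ_[ℓ]) (Pi.single q 1 : Fin (N i) → ℚ_[ℓ])
            ((Pi.single i X : ∀ i, Matrix (Fin (N i)) (Fin (N i)) ℚ_[ℓ]) j *ᵥ w₁) w₂ +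
          φ (Pi.single p 1 : Fin (N i) → ℚ_[ℓ]) (Pi.single q 1 : Fin (N i) → ℚ_[ℓ]) w₁
            ((Pi.single i X : ∀ i, Matrix (Fin (N i)) (Fin (N i)) ℚ_[ℓ]) j *ᵥ w₂) = 0 := h4
      rw [hs1, hs2, zero_mulVec, zero_mulVec, map_zero, map_zero, LinearMap.zero_apply, add_zero,
        add_zero, hφ, hφ] at h6
      have he : ∀ B : Matrix (Fin (N i)) (Fin (N i)) ℚ_[ℓ],
          (Pi.single p 1 : Fin (N i) → ℚ_[ℓ]) ⬝ᵥ B *ᵥ (Pi.single q 1 : Fin (N i) → ℚ_[ℓ]) =
          B p q := by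
        intro B
        rw [single_one_dotProduct, mulVec_single_one]
        rfl
      have h7 : (X *ᵥ (Pi.single p 1 : Fin (N i) → ℚ_[ℓ])) ⬝ᵥ
          J i *ᵥ (Θ (b w₁ w₂) *ᵥ (Pi.single q 1 : Fin (N i) → ℚ_[ℓ])) =
          (Xᵀ * J i * Θ (b w₁ w₂)) p q := by
        rw [← he (Xᵀ * J i * Θ (b w₁ w₂)), ← mulVec_mulVec, ← mulVec_mulVec, dotProduct_mulVec _ Xᵀ,
          vecMul_transpose]
      have h8 : (Pi.single p 1 : Fin (N i) → ℚ_[ℓ]) ⬝ᵥ
          J i *ᵥ (Θ (b w₁ w₂) *ᵥ (X *ᵥ (Pi.single q 1 : Fin (N i) → ℚ_[ℓ]))) =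
          (J i * (Θ (b w₁ w₂) * X)) p q := by
        rw [← he (J i * (Θ (b w₁ w₂) * X)), ← mulVec_mulVec, ← mulVec_mulVec]
      have hX' : Xᵀ * J i = -(J i * X) := eq_neg_of_add_eq_zero_left hX
      rw [h7, h8, hX', neg_mul, Matrix.neg_apply, mul_assoc] at h6
      linear_combination h6
    have hu : IsUnit (J i).det := isUnit_iff_ne_zero.2 hJi.2
    have h6 := congrArg (fun B => (J i)⁻¹ * B) hcomm
    simp only [← mul_assoc, nonsing_inv_mul _ hu, one_mul] at h6
    rw [← h6, sub_self]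
  intro A
  have hu' : IsUnit (J j).det := isUnit_iff_ne_zero.2 hJj.2
  have h4 : A = (A * (J j)⁻¹) * J j := by rw [mul_assoc, nonsing_inv_mul _ hu', mul_one]
  have h5 : ∀ B : Matrix (Fin (N j)) (Fin (N j)) ℚ_[ℓ], Θ (B * J j) = 0 := by
    intro B
    have h6 : B = ∑ p, ∑ q, B p q • vecMulVec (Pi.single p 1) (Pi.single q 1) := by
      ext p' q'
      simp only [Matrix.sum_apply, Matrix.smul_apply, vecMulVec_apply, smul_eq_mul]
      rw [Finset.sum_eq_single p', Finset.sum_eq_single q']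
      · simp
      · intro j _ hj
        rw [Pi.single_eq_of_ne (Ne.symm hj)]
        simp
      · intro h
        exact absurd (Finset.mem_univ q') h
      · intro i _ hi
        refine Finset.sum_eq_zero fun j _ => ?_
        rw [Pi.single_eq_of_ne (Ne.symm hi)]
        simp
      · intro h
        exact absurd (Finset.mem_univ p') h
    rw [h6, Finset.sum_mul, map_sum]
    refine Finset.sum_eq_zero fun p _ => ?_
    rw [Finset.sum_mul, map_sum]
    refine Finset.sum_eq_zero fun q _ => ?_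
    rw [smul_mul_assoc, map_smul]
    have h7 : Θ (vecMulVec (Pi.single p 1) (Pi.single q 1) * J j) = 0 := h3 _ _
    rw [h7, smul_zero]
  rw [h4]
  exact h5 _

end words

end Pool.Agent.R932.PO
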