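import Pool.Agent.Y497.ZO.LogPow
import Pool.Agent.Y708.ZO.Tan
import Pool.Agent.R932.Tan

set_option autoImplicit false
set_option linter.unusedSectionVars false

/-!
# Joint tangent vectors of finitely many representations
-/

open Matrix Filter Topology Pool.Agent.Y142.ZO

namespace Pool.Agent.R932.PO.JL

/-- the difference quotient -/
noncomputable def dq {ℓ : ℕ} [Fact ℓ.Prime] {G : Type} [Group G] {A : Type} [Ring A]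
    [Algebra ℚ_[ℓ] A] (R : G →* A) (n : ℕ) (g : G) : A := ((ℓ : ℚ_[ℓ]) ^ n)⁻¹ • (R g - 1)

/-- tangent vectors -/
def Tg (ℓ : ℕ) [Fact ℓ.Prime] {G : Type} [Group G] {A : Type} [Ring A] [Algebra ℚ_[ℓ] A]
    [TopologicalSpace A] (R : G →* A) (X : A) : Prop :=
  ∃ σ : ℕ → G, Tendsto (fun n : ℕ => ((ℓ : ℚ_[ℓ]) ^ n)⁻¹ • (R (σ n) - 1)) atTop (𝓝 X)

theorem isClosed_tg {ℓ : ℕ} [Fact ℓ.Prime] {G : Type} [Group G] {A : Type} [Ring A]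
    [Algebra ℚ_[ℓ] A] [PseudoMetricSpace A] (R : G →* A) : IsClosed {X : A | Tg ℓ R X} := by
  refine isClosed_of_closure_subset fun X hX => ?_
  have h1 : ∀ ε : ℝ, 0 < ε → ∀ᶠ n in atTop, ∃ s ∈ Set.range (fun g : G => dq (ℓ := ℓ) R n g),
      dist X s < ε := by
    intro ε hε
    obtain ⟨Y, ⟨σ, hσ⟩, hY⟩ := Metric.mem_closure_iff.1 hX (ε / 2) (by linarith)
    have h2 : ∀ᶠ n in atTop, dist (dq (ℓ := ℓ) R n (σ n)) Y < ε / 2 :=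
      (Metric.tendsto_nhds.1 (show Tendsto (fun n => dq (ℓ := ℓ) R n (σ n)) atTop (𝓝 Y) from hσ))
        (ε / 2) (by linarith)
    filter_upwards [h2] with n hn
    refine ⟨_, ⟨σ n, rfl⟩, ?_⟩
    calc dist X (dq (ℓ := ℓ) R n (σ n)) ≤ dist X Y + dist Y (dq (ℓ := ℓ) R n (σ n)) :=
          dist_triangle _ _ _
      _ < ε := by rw [dist_comm Y]; linarith
  obtain ⟨s, hs1, hs2⟩ := Pool.Agent.Y708.ZO.seq_of_near
    (fun n => Set.range (fun g : G => dq (ℓ := ℓ) R n g)) (fun n => ⟨_, ⟨1, rfl⟩⟩) X h1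
  choose σ hσ using hs1
  refine ⟨σ, ?_⟩
  exact hs2.congr fun n => (hσ n).symm

section gen

variable {ℓ : ℕ} [Fact ℓ.Prime] {G : Type} [Group G] {A : Type} [Ring A] [Algebra ℚ_[ℓ] A]
  [TopologicalSpace A] [IsTopologicalRing A] [ContinuousSMul ℚ_[ℓ] A] (R : G →* A)

theorem ell_ne : (ℓ : ℚ_[ℓ]) ≠ 0 := by
  exact_mod_cast (Fact.out : ℓ.Prime).ne_zero

theorem pow_tendsto : Tendsto (fun n : ℕ => (ℓ : ℚ_[ℓ]) ^ n) atTop (𝓝 0) := by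
  refine tendsto_pow_atTop_nhds_zero_of_norm_lt_one ?_
  exact Padic.norm_p_lt_one

omit [TopologicalSpace A] [IsTopologicalRing A] [ContinuousSMul ℚ_[ℓ] A] in
theorem eq_of_dq (n : ℕ) (g : G) : R g = 1 + (ℓ : ℚ_[ℓ]) ^ n • dq (ℓ := ℓ) R n g := by
  unfold dq
  rw [smul_smul, mul_inv_cancel₀ (pow_ne_zero _ ell_ne), one_smul, add_sub_cancel]

theorem rho_tendsto {σ : ℕ → G} {X : A}
    (h : Tendsto (fun n => dq (ℓ := ℓ) R n (σ n)) atTop (𝓝 X)) :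
    Tendsto (fun n => R (σ n)) atTop (𝓝 1) := by
  have h1 : Tendsto (fun n : ℕ => 1 + (ℓ : ℚ_[ℓ]) ^ n • dq (ℓ := ℓ) R n (σ n)) atTop
      (𝓝 (1 + (0 : ℚ_[ℓ]) • X)) := tendsto_const_nhds.add (pow_tendsto.smul h)
  rw [zero_smul, add_zero] at h1
  exact h1.congr fun n => (eq_of_dq R n (σ n)).symm

theorem tg_zero : Tg ℓ R 0 := by
  refine ⟨fun _ => 1, ?_⟩
  simp only [map_one, sub_self, smul_zero]
  exact tendsto_const_nhds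

theorem tg_add {X Y : A} (hX : Tg ℓ R X) (hY : Tg ℓ R Y) : Tg ℓ R (X + Y) := by
  obtain ⟨σ, hσ⟩ := hX
  obtain ⟨τ, hτ⟩ := hY
  refine ⟨fun n => σ n * τ n, ?_⟩
  have h1 : Tendsto (fun n => dq (ℓ := ℓ) R n (σ n) * R (τ n) + dq (ℓ := ℓ) R n (τ n)) atTop
      (𝓝 (X * 1 + Y)) := (Tendsto.mul hσ (rho_tendsto R hτ)).add hτ
  rw [mul_one] at h1
  refine h1.congr fun n => ?_
  unfold dq
  rw [smul_mul_assoc, ← smul_add, map_mul]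
  congr 1
  noncomm_ring

theorem tg_ell_inv {X : A} (hX : Tg ℓ R X) : Tg ℓ R ((ℓ : ℚ_[ℓ])⁻¹ • X) := by
  obtain ⟨σ, hσ⟩ := hX
  refine ⟨fun n => σ (n - 1), ?_⟩
  rw [← tendsto_add_atTop_iff_nat 1]
  have h1 : Tendsto (fun n => (ℓ : ℚ_[ℓ])⁻¹ • dq (ℓ := ℓ) R n (σ n)) atTop
      (𝓝 ((ℓ : ℚ_[ℓ])⁻¹ • X)) := hσ.const_smul _
  refine h1.congr fun n => ?_
  unfold dq
  rw [smul_smul, ← mul_inv, ← pow_succ']
  rfl

theorem tg_conj (g : G) {X : A} (hX : Tg ℓ R X) : Tg ℓ R (R g * X * R g⁻¹) := by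
  obtain ⟨σ, hσ⟩ := hX
  refine ⟨fun n => g * σ n * g⁻¹, ?_⟩
  have h1 : Tendsto (fun n => R g * dq (ℓ := ℓ) R n (σ n) * R g⁻¹) atTop (𝓝 (R g * X * R g⁻¹)) :=
    (tendsto_const_nhds.mul hσ).mul tendsto_const_nhds
  refine h1.congr fun n => ?_
  unfold dq
  rw [mul_smul_comm, smul_mul_assoc]
  congr 1
  rw [mul_sub, sub_mul, mul_one, ← map_mul, ← map_mul, ← map_mul, mul_inv_cancel, map_one]

theorem tg_nat (k : ℕ) {X : A} (hX : Tg ℓ R X) : Tg ℓ R ((k : ℚ_[ℓ]) • X) := by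
  induction k with
  | zero =>
    rw [Nat.cast_zero, zero_smul]
    exact tg_zero R
  | succ k ih =>
    rw [Nat.cast_succ, add_smul, one_smul]
    exact tg_add R ih hX

theorem tg_padicInt (hC : IsClosed {X : A | Tg ℓ R X}) (a : ℤ_[ℓ]) {X : A} (hX : Tg ℓ R X) : Tg ℓ R ((a : ℚ_[ℓ]) • X) := by
  have hc : Continuous fun a : ℤ_[ℓ] => (a : ℚ_[ℓ]) • X :=
    (continuous_subtype_val).smul continuous_const
  have hcl : IsClosed {a : ℤ_[ℓ] | Tg ℓ R ((a : ℚ_[ℓ]) • X)} :=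
    hC.preimage hc
  have hd : Dense {a : ℤ_[ℓ] | Tg ℓ R ((a : ℚ_[ℓ]) • X)} := by
    refine (PadicInt.denseRange_natCast (p := ℓ)).mono ?_
    rintro _ ⟨k, rfl⟩
    show Tg ℓ R (((k : ℤ_[ℓ]) : ℚ_[ℓ]) • X)
    rw [PadicInt.coe_natCast]
    exact tg_nat R k hX
  have : a ∈ closure {a : ℤ_[ℓ] | Tg ℓ R ((a : ℚ_[ℓ]) • X)} := hd a
  rwa [hcl.closure_eq] at this

theorem tg_ell_inv_pow (k : ℕ) {X : A} (hX : Tg ℓ R X) :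
    Tg ℓ R (((ℓ : ℚ_[ℓ]) ^ k)⁻¹ • X) := by
  induction k with
  | zero => simpa using hX
  | succ k ih =>
    have := tg_ell_inv R ih
    rwa [smul_smul, ← mul_inv, ← pow_succ'] at this

theorem tg_smul (hC : IsClosed {X : A | Tg ℓ R X}) (a : ℚ_[ℓ]) {X : A} (hX : Tg ℓ R X) : Tg ℓ R (a • X) := by
  have hp1 : (1 : ℝ) < ℓ := by exact_mod_cast (Fact.out : ℓ.Prime).one_lt
  obtain ⟨k, hk⟩ := pow_unbounded_of_one_lt ‖a‖ hp1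
  have h1 : ‖(ℓ : ℚ_[ℓ]) ^ k * a‖ ≤ 1 := by
    rw [norm_mul, norm_pow, Padic.norm_p, inv_pow]
    have hpos : (0 : ℝ) < (ℓ : ℝ) ^ k := by positivity
    rw [inv_mul_le_iff₀ hpos, mul_one]
    exact hk.le
  have h2 := tg_ell_inv_pow R k (tg_padicInt R hC ⟨(ℓ : ℚ_[ℓ]) ^ k * a, h1⟩ hX)
  have h3 : ((ℓ : ℚ_[ℓ]) ^ k)⁻¹ • (((⟨(ℓ : ℚ_[ℓ]) ^ k * a, h1⟩ : ℤ_[ℓ]) : ℚ_[ℓ]) • X) = a • X := by
    rw [smul_smul]
    congr 1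
    show ((ℓ : ℚ_[ℓ]) ^ k)⁻¹ * ((ℓ : ℚ_[ℓ]) ^ k * a) = a
    rw [← mul_assoc, inv_mul_cancel₀ (pow_ne_zero _ ell_ne), one_mul]
  rwa [h3] at h2

/-- the tangent vectors -/
noncomputable def tan (hC : IsClosed {X : A | Tg ℓ R X}) : Submodule ℚ_[ℓ] A where
  carrier := {X | Tg ℓ R X}
  add_mem' := tg_add R
  zero_mem' := tg_zero R
  smul_mem' a _ := tg_smul R hC a

theorem tg_lie (hC : IsClosed {X : A | Tg ℓ R X}) (hinv : ∀ σ : ℕ → G, Tendsto (fun n => R (σ n)) atTop (𝓝 1) →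
    Tendsto (fun n => R (σ n)⁻¹) atTop (𝓝 1)) {X Y : A} (hX : Tg ℓ R X)
    (hY : Tg ℓ R Y) : Tg ℓ R (X * Y - Y * X) := by
  obtain ⟨σ, hσ⟩ := hX
  have hρ := hinv σ (rho_tendsto R hσ)
  have h1 : Tendsto (fun n => dq (ℓ := ℓ) R n (σ n) * Y * R (σ n)⁻¹ -
      Y * (dq (ℓ := ℓ) R n (σ n) * R (σ n)⁻¹)) atTop (𝓝 (X * Y * 1 - Y * (X * 1))) :=
    ((Tendsto.mul hσ tendsto_const_nhds).mul hρ).sub (tendsto_const_nhds.mul (Tendsto.mul hσ hρ))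
  rw [mul_one, mul_one] at h1
  refine hC.mem_of_tendsto h1 (Eventually.of_forall fun n => ?_)
  have h2 : ((ℓ : ℚ_[ℓ]) ^ n)⁻¹ • (R (σ n) * Y * R (σ n)⁻¹ - Y) ∈ tan R hC :=
    (tan R hC).smul_mem _ ((tan R hC).sub_mem (tg_conj R (σ n) hY) hY)
  have h3 : dq (ℓ := ℓ) R n (σ n) * Y * R (σ n)⁻¹ - Y * (dq (ℓ := ℓ) R n (σ n) * R (σ n)⁻¹) =
      ((ℓ : ℚ_[ℓ]) ^ n)⁻¹ • (R (σ n) * Y * R (σ n)⁻¹ - Y) := by
    unfold dq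
    rw [smul_mul_assoc, smul_mul_assoc, smul_mul_assoc, mul_smul_comm, ← smul_sub]
    congr 1
    have h4 : R (σ n) * R (σ n)⁻¹ = 1 := by rw [← map_mul, mul_inv_cancel, map_one]
    have h5 : (R (σ n) - 1) * R (σ n)⁻¹ = 1 - R (σ n)⁻¹ := by rw [sub_mul, h4, one_mul]
    rw [h5]
    noncomm_ring
  show dq (ℓ := ℓ) R n (σ n) * Y * R (σ n)⁻¹ - Y * (dq (ℓ := ℓ) R n (σ n) * R (σ n)⁻¹) ∈
    tan R hC
  rw [h3]
  exact h2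

end gen

section fam

variable {ℓ : ℕ} [Fact ℓ.Prime] {ι : Type} [Fintype ι] {N : ι → ℕ} {G : Type} [Group G]
  (ρ : ∀ i, G →* Matrix (Fin (N i)) (Fin (N i)) ℚ_[ℓ])

/-- the joint representation -/
noncomputable def jr : G →* (∀ i, Matrix (Fin (N i)) (Fin (N i)) ℚ_[ℓ]) := MonoidHom.pi ρ

theorem closed_fam : IsClosed {X : ∀ i, Matrix (Fin (N i)) (Fin (N i)) ℚ_[ℓ] | Tg ℓ (jr ρ) X} := by
  letI : ∀ i, NormedAddCommGroup (Matrix (Fin (N i)) (Fin (N i)) ℚ_[ℓ]) :=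
    fun i => Matrix.normedAddCommGroup
  exact isClosed_tg (jr ρ)

theorem jlie_core : ∃ 𝔤 : Submodule ℚ_[ℓ] (∀ i, Matrix (Fin (N i)) (Fin (N i)) ℚ_[ℓ]),
    (∀ X, X ∈ 𝔤 ↔ ∃ σ : ℕ → G, ∀ i,
      Tendsto (fun n : ℕ => ((ℓ : ℚ_[ℓ]) ^ n)⁻¹ • (ρ i (σ n) - 1)) atTop (𝓝 (X i))) ∧
    (∀ X ∈ 𝔤, ∀ Y ∈ 𝔤, (fun i => X i * Y i - Y i * X i) ∈ 𝔤) ∧
    (∀ g : G, ∀ X ∈ 𝔤, (fun i => ρ i g * X i * ρ i g⁻¹) ∈ 𝔤) := by
  refine ⟨tan (jr ρ) (closed_fam ρ), fun X => ?_, fun X hX Y hY => ?_, fun g X hX => ?_⟩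
  · constructor
    · rintro ⟨σ, hσ⟩
      exact ⟨σ, fun i => (tendsto_pi_nhds.1 hσ) i⟩
    · rintro ⟨σ, hσ⟩
      exact ⟨σ, tendsto_pi_nhds.2 hσ⟩
  · refine tg_lie (jr ρ) (closed_fam ρ) (fun σ hσ => ?_) hX hY
    refine tendsto_pi_nhds.2 fun i => ?_
    exact Pool.Agent.Y708.ZO.rho_inv_tendsto (ρ i) ((tendsto_pi_nhds.1 hσ) i)
  · exact tg_conj (jr ρ) g hX

end fam

end Pool.Agent.R932.PO.JL
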