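import Pool.Agent.R932.PO.One

/-!
# Project PO: several systems, from one prime
-/

set_option autoImplicit false
set_option linter.unusedSectionVars false
set_option linter.style.haveILetI false

open Matrix Polynomial Filter Topology NumberField IsDedekindDomain
open Pool.Agent.Y142.ZO Pool.Agent.Y142.ZI Pool.Agent.Y142.ZS
open Pool.Agent.Y142.ZD (DistPow NR Tame S_TAME)
open Pool.Agent.R932.OP Pool.Agent.R932.EV

namespace Pool.Agent.R932.PO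

/-- the local types of all kinds -/
theorem ltypes (hLTS : S_LTS) (hLTO : S_LTO) (hLTE : S_LTE) {κ : Kind} {N ℓ : ℕ} [Fact ℓ.Prime]
    {J : Matrix (Fin N) (Fin N) ℚ_[ℓ]} (h : Fits κ J) (hd : J.det ≠ 0) (hal : Allows κ N ℓ J) :
    LType ℓ J (Ram ℓ) ∧ LType ℓ J (Unram ℓ) := by
  have h2 := hal.ne_two h
  cases κ with
  | sym => exact hLTS ℓ h2 N h.2 J h.1 hd
  | odd => exact hLTO ℓ h2 N h.2.1 (by have := h.2.2; omega) J h.1 hd
  | even => exact hLTE ℓ h2 N h.2.1 (by have := h.2.2; omega) J h.1 hd hal.2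

/-- the independence of a root of the first polynomial from the roots of the second one -/
def IndRoot (P R : ℚ[X]) : Prop :=
  ∃ x : ℂˣ, aeval (x : ℂ) P = 0 ∧ ∀ m : ℕ, 0 < m →
    x ^ m ∉ Subgroup.closure {y : ℂˣ | aeval (y : ℂ) R = 0 ∨ ∃ q : ℚ, (y : ℂ) = (q : ℂ)}

section place
variable {K : Type} [Field K] [NumberField K] {ι : Type} [Fintype ι] [DecidableEq ι] {N : ι → ℕ}
  {S : Set (HeightOneSpectrum (𝓞 K))} {P : ι → HeightOneSpectrum (𝓞 K) → ℚ[X]}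
  {q : ι → HeightOneSpectrum (𝓞 K) → ℚ}
  {Γ : Type} [Group Γ] [TopologicalSpace Γ] [IsTopologicalGroup Γ] [CompactSpace Γ]
  {s : GK K →* Γ} {κ : ι → Kind}

/-- a place with an independent root -/
theorem exists_place (hLTS : S_LTS) (hLTO : S_LTO) (hLTE : S_LTE) (hs : Continuous s) (hS : S.Finite)
    (ℓ : ℕ) [hℓ : Fact ℓ.Prime]
    (ρ : ∀ i, Γ →* Matrix (Fin (N i)) (Fin (N i)) ℚ_[ℓ])
    (J : ∀ i, Matrix (Fin (N i)) (Fin (N i)) ℚ_[ℓ])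
    (hsys : ∀ i, Sys s (κ i) (N i) ℓ (ρ i) (J i) S (P i) (q i))
    (hal : ∀ i, Allows (κ i) (N i) ℓ (J i))
    (hfull : ∀ X, (∀ i, SpLie (J i) (X i)) → JTan ℓ (fun i => (ρ i).comp s) X)
    (i : ι) {T : Set (HeightOneSpectrum (𝓞 K))} (hT : T.Finite) :
    ∃ v, v ∉ T ∧ v ∉ S ∧ (ℓ : 𝓞 K) ∉ v.asIdeal ∧
      IndRoot (P i v) (∏ j ∈ Finset.univ.erase i, P j v) := by
  classical
  have h2 : ℓ ≠ 2 := (hal i).ne_two (hsys i).2.1
  let Con : ι → ℚ_[ℓ][X] → Prop := fun j => if j = i then Ram ℓ else Unram ℓ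
  have hj : ∀ j, LType ℓ (J j) (Con j) := by
    intro j
    obtain ⟨h3, h4⟩ := ltypes hLTS hLTO hLTE (hsys j).2.1 (hsys j).2.2.1 (hal j)
    by_cases h : j = i
    · show LType ℓ (J j) (if j = i then Ram ℓ else Unram ℓ)
      rw [if_pos h]
      exact h3
    · show LType ℓ (J j) (if j = i then Ram ℓ else Unram ℓ)
      rw [if_neg h]
      exact h4
  choose X δ k₀ hX hδ hnear using hj
  obtain ⟨v, hv, σ, hσ, k, hk, hclose⟩ := joint_frob (K := K) ℓ (fun i => (ρ i).comp s)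
    (fun i => (hsys i).1.comp hs) (hfull X hX) hδ (Finset.univ.sup k₀)
    (T := T ∪ (S ∪ {v : HeightOneSpectrum (𝓞 K) | (ℓ : 𝓞 K) ∈ v.asIdeal}))
    (hT.union (finite_union hS ℓ hℓ.out))
  have hvT : v ∉ T := fun h => hv (Or.inl h)
  have hvS : v ∉ S := fun h => hv (Or.inr (Or.inl h))
  have hvℓ : (ℓ : 𝓞 K) ∉ v.asIdeal := fun h => hv (Or.inr (Or.inr h))
  have hfrob := fun j => (hsys j).2.2.2.2 v hvS hvℓ σ hσ
  have hcon : ∀ j, Con j ((P j v).map (algebraMap ℚ ℚ_[ℓ])) := by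
    intro j
    obtain ⟨c, hc, hc1⟩ := (hsys j).2.2.2.1 (s σ⁻¹)
    have h3 := hnear j k (ρ j (s σ⁻¹)) c ((Finset.le_sup (Finset.mem_univ j)).trans hk) hc hc1
      (hclose j)
    rwa [(hfrob j).1] at h3
  have hi : Ram ℓ ((P i v).map (algebraMap ℚ ℚ_[ℓ])) := by
    have h3 := hcon i
    simp only [Con, if_true] at h3
    exact h3
  have hm0 : ∀ j, P j v ≠ 0 := by
    intro j h0
    have h3 := (hfrob j).1
    rw [h0, Polynomial.map_zero] at h3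
    exact (charpoly_monic _).ne_zero h3
  have hun : Unram ℓ ((∏ j ∈ Finset.univ.erase i, P j v).map (algebraMap ℚ ℚ_[ℓ])) := by
    intro τ x hx
    rw [Polynomial.map_prod, map_prod, Finset.prod_eq_zero_iff] at hx
    obtain ⟨j, hj, hxj⟩ := hx
    have h3 := hcon j
    simp only [Con] at h3
    rw [if_neg (Finset.ne_of_mem_erase hj)] at h3
    exact h3 τ x hxj
  refine ⟨v, hvT, hvS, hvℓ, indep_root h2 hi hun (Finset.prod_ne_zero_iff.2 fun j _ => hm0 j) ?_⟩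
  intro x hx hx0
  rw [← (hfrob i).1, hx0, Polynomial.aeval_def, Polynomial.eval₂_at_zero,
    map_eq_zero] at hx
  have h3 : (ρ i (s σ⁻¹)).det = 0 := by
    rw [Matrix.det_eq_sign_charpoly_coeff, hx, mul_zero]
  have h4 : (ρ i (s σ⁻¹)).det * (ρ i (s σ⁻¹)⁻¹).det = 1 := by
    rw [← det_mul, ← map_mul, mul_inv_cancel, map_one, det_one]
  rw [h3, zero_mul] at h4
  exact zero_ne_one h4

end place

section joint
variable {ℓ : ℕ} [hℓ : Fact ℓ.Prime] {ι : Type} [Fintype ι] [DecidableEq ι] {N : ι → ℕ}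
  {G : Type} [Group G] [TopologicalSpace G] [IsTopologicalGroup G] [CompactSpace G]
  {ρ : ∀ i, G →* Matrix (Fin (N i)) (Fin (N i)) ℚ_[ℓ]}
  {J : ∀ i, Matrix (Fin (N i)) (Fin (N i)) ℚ_[ℓ]}

/-- the joint Lie algebra is full if the projections to pairs admit no equivariant maps -/
theorem joint_full (hJLIE : S_JLIE) (hJLIFT : S_JLIFT) (hGOUR : S_GOUR) (hPAIR : S_PAIR)
    (hρ : ∀ i, Continuous (ρ i)) (hJ : ∀ i, IsForm (J i)) (hsim : ∀ i g, ∃ c, Sim (J i) (ρ i g) c)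
    (hone : ∀ i X, SpLie (J i) X → IsTangent ℓ (ρ i) X)
    (hpair : ∀ i j, i ≠ j → ∀ Θ : Matrix (Fin (N j)) (Fin (N j)) ℚ_[ℓ] →ₗ[ℚ_[ℓ]]
      Matrix (Fin (N i)) (Fin (N i)) ℚ_[ℓ], (∀ g A, Θ (ρ j g * A * ρ j g⁻¹) = ρ i g * Θ A * ρ i g⁻¹) →
      (∀ A, SpLie (J i) (Θ A)) → ∀ A, Θ A = 0)
    (X : ∀ i, Matrix (Fin (N i)) (Fin (N i)) ℚ_[ℓ]) (hX : ∀ i, SpLie (J i) (X i)) :
    JTan ℓ ρ X := by
  obtain ⟨𝔤, h𝔤, hbr, -⟩ := hJLIE ℓ ι N G ρ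
  have h1 : ∀ i, Pi.single i (X i) ∈ 𝔤 := by
    intro i
    refine hGOUR ℚ_[ℓ] ι N J hJ 𝔤 hbr ?_ ?_ i (X i) (hX i)
    · intro i X hX
      obtain ⟨Y, hY, hYi⟩ := hJLIFT ℓ ι N G ρ hρ i X (hone i X hX)
      exact ⟨Y, (h𝔤 Y).2 hY, hYi⟩
    · intro i j hij X hX
      rcases hPAIR ℓ ι N G ρ hρ J hJ hsim hone i j hij with h | ⟨Θ, h1, h2, A, hA⟩
      · obtain ⟨Y, hY, hYi, hYj⟩ := h X hX
        exact ⟨Y, (h𝔤 Y).2 hY, hYi, hYj⟩
      · exact absurd (hpair i j hij Θ h1 h2 A) hA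
  have h2 : X = ∑ i, Pi.single i (X i) := by
    funext i
    rw [Finset.sum_apply, Finset.sum_eq_single i]
    · rw [Pi.single_eq_same]
    · intro j _ hj
      rw [Pi.single_eq_of_ne (Ne.symm hj)]
    · intro h
      exact absurd (Finset.mem_univ i) h
  refine (h𝔤 X).1 ?_
  rw [h2]
  exact 𝔤.sum_mem fun i _ => h1 i

/-- no equivariant maps, if there are independent roots -/
theorem pair_of_root (hEQV : S_EQV) (hρ : ∀ i, Continuous (ρ i)) (hJ : ∀ i, IsForm (J i))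
    (hsim : ∀ i g, ∃ c, Sim (J i) (ρ i g) c)
    (hone : ∀ i X, SpLie (J i) X → IsTangent ℓ (ρ i) X)
    (hroot : ∀ i, ∃ (γ : G) (P : ι → ℚ[X]) (q : ℚ),
      (∀ j, (ρ j γ).charpoly = (P j).map (algebraMap ℚ ℚ_[ℓ])) ∧ Sim (J i) (ρ i γ) (q : ℚ_[ℓ]) ∧
      IndRoot (P i) (∏ j ∈ Finset.univ.erase i, P j))
    (i j : ι) (hij : i ≠ j) (Θ : Matrix (Fin (N j)) (Fin (N j)) ℚ_[ℓ] →ₗ[ℚ_[ℓ]]
      Matrix (Fin (N i)) (Fin (N i)) ℚ_[ℓ])
    (h1 : ∀ g A, Θ (ρ j g * A * ρ j g⁻¹) = ρ i g * Θ A * ρ i g⁻¹)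
    (h2 : ∀ A, SpLie (J i) (Θ A)) : ∀ A, Θ A = 0 := by
  obtain ⟨γ, P, q, hP, hq, x, hx, hxm⟩ := hroot i
  refine hEQV ℓ (N i) (N j) G (ρ i) (ρ j) (hρ i) (J i) (hJ i) (hsim i) (hone i) γ (P i) (P j) q
    (hP i) hq (hP j) x hx (fun m hm hmem => hxm m hm ?_) Θ h1 h2
  refine Subgroup.closure_mono ?_ hmem
  rintro y (hy | hy)
  · left
    rw [map_prod]
    exact Finset.prod_eq_zero (Finset.mem_erase.2 ⟨Ne.symm hij, Finset.mem_univ j⟩) hy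
  · exact Or.inr ⟨q, hy⟩

/-- the joint tangent space does not change if the image contains the image of an open subgroup -/
theorem joint_comp {G' : Type} [Group G'] {s : G' →* G} (hρ : ∀ i, Continuous (ρ i)) {U : Subgroup G}
    (hU : IsOpen (U : Set G)) (hs : ∀ γ ∈ U, ∃ g, ∀ i, ρ i (s g) = ρ i γ)
    {X : ∀ i, Matrix (Fin (N i)) (Fin (N i)) ℚ_[ℓ]} (hX : JTan ℓ ρ X) :
    JTan ℓ (fun i => (ρ i).comp s) X := by
  obtain ⟨σ, hσ⟩ := hX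
  haveI : ∀ i, T2Space (Matrix (Fin (N i)) (Fin (N i)) ℚ_[ℓ]) := fun i =>
    inferInstanceAs (T2Space (Fin (N i) → Fin (N i) → ℚ_[ℓ]))
  let R : G →* (∀ i, Matrix (Fin (N i)) (Fin (N i)) ℚ_[ℓ]) := MonoidHom.pi ρ
  have hR : Continuous R := continuous_pi hρ
  have h1 : Tendsto (fun n => R (σ n)) atTop (𝓝 1) :=
    tendsto_pi_nhds.2 fun i => tendsto_one (hσ i)
  have h2 := eventually_mem hR hU h1
  have h3 : ∀ n, ∃ g : G', (∃ u ∈ U, R u = R (σ n)) → ∀ i, ρ i (s g) = ρ i (σ n) := by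
    intro n
    by_cases h : ∃ u ∈ U, R u = R (σ n)
    · obtain ⟨u, hu, huρ⟩ := h
      obtain ⟨g, hg⟩ := hs u hu
      refine ⟨g, fun _ i => ?_⟩
      rw [hg i]
      exact congrFun huρ i
    · exact ⟨1, fun h' => absurd h' h⟩
  choose τ hτ using h3
  refine ⟨τ, fun i => (hσ i).congr' ?_⟩
  filter_upwards [h2] with n hn
  rw [MonoidHom.comp_apply, hτ n hn i]

end joint

/-- a similitude of a form which is also in the Lie algebra: scalars are zero -/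
theorem scalar_zero {F : Type} [Field F] [CharZero F] {N : ℕ} (hN : 0 < N)
    {J : Matrix (Fin N) (Fin N) F} (hd : J.det ≠ 0) {c : F}
    (h : SpLie J (c • (1 : Matrix (Fin N) (Fin N) F))) : c = 0 := by
  unfold SpLie at h
  rw [transpose_smul, transpose_one, smul_mul_assoc, one_mul, mul_smul_comm, mul_one, ← add_smul] at h
  have hJ0 : J ≠ 0 := by
    rintro rfl
    haveI : Nonempty (Fin N) := ⟨⟨0, hN⟩⟩
    exact hd det_zero
  have h1 := (smul_eq_zero.1 h).resolve_right hJ0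
  have h2 : (2 : F) * c = 0 := by linear_combination h1
  exact (mul_eq_zero.1 h2).resolve_left two_ne_zero

section tate
variable {ℓ : ℕ} [hℓ : Fact ℓ.Prime] {N M : ℕ} {G : Type} [Group G]

/-- no equivariant maps, if the invariants on the product of the squares are the expected ones -/
theorem pair_of_tate (hN : 0 < N) {ρ : G →* Matrix (Fin N) (Fin N) ℚ_[ℓ]}
    {ρ' : G →* Matrix (Fin M) (Fin M) ℚ_[ℓ]} {J : Matrix (Fin N) (Fin N) ℚ_[ℓ]}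
    {J' : Matrix (Fin M) (Fin M) ℚ_[ℓ]} (hd : J.det ≠ 0) (hd' : J'.det ≠ 0)
    (hT : ∀ φ : (Fin N → ℚ_[ℓ]) →ₗ[ℚ_[ℓ]] (Fin N → ℚ_[ℓ]) →ₗ[ℚ_[ℓ]] (Fin M → ℚ_[ℓ]) →ₗ[ℚ_[ℓ]]
      (Fin M → ℚ_[ℓ]) →ₗ[ℚ_[ℓ]] ℚ_[ℓ],
      (∀ g c d, Sim J (ρ g) c → Sim J' (ρ' g) d → ∀ v₁ v₂ w₁ w₂,
        φ (ρ g *ᵥ v₁) (ρ g *ᵥ v₂) (ρ' g *ᵥ w₁) (ρ' g *ᵥ w₂) = c * d * φ v₁ v₂ w₁ w₂) →
      ∃ t : ℚ_[ℓ], ∀ v₁ v₂ w₁ w₂, φ v₁ v₂ w₁ w₂ = t * ((v₁ ⬝ᵥ J *ᵥ v₂) * (w₁ ⬝ᵥ J' *ᵥ w₂)))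
    (Θ : Matrix (Fin M) (Fin M) ℚ_[ℓ] →ₗ[ℚ_[ℓ]] Matrix (Fin N) (Fin N) ℚ_[ℓ])
    (h1 : ∀ g A, Θ (ρ' g * A * ρ' g⁻¹) = ρ g * Θ A * ρ g⁻¹)
    (h2 : ∀ A, SpLie J (Θ A)) : ∀ A, Θ A = 0 := by
  classical
  let a : (Fin M → ℚ_[ℓ]) → (Fin M → ℚ_[ℓ]) → Matrix (Fin M) (Fin M) ℚ_[ℓ] :=
    fun w₁ w₂ => vecMulVec w₁ w₂ * J'
  have ha1 : ∀ x y w, a (x + y) w = a x w + a y w := by
    intro x y w
    simp only [a]
    rw [add_vecMulVec, add_mul]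
  have ha2 : ∀ (c : ℚ_[ℓ]) x w, a (c • x) w = c • a x w := by
    intro c x w
    simp only [a]
    rw [smul_vecMulVec, smul_mul_assoc]
  have ha3 : ∀ x y w, a w (x + y) = a w x + a w y := by
    intro x y w
    simp only [a]
    rw [vecMulVec_add, add_mul]
  have ha4 : ∀ (c : ℚ_[ℓ]) x w, a w (c • x) = c • a w x := by
    intro c x w
    simp only [a]
    rw [vecMulVec_smul, smul_mul_assoc]
  let φ₂ : (Fin M → ℚ_[ℓ]) →ₗ[ℚ_[ℓ]] (Fin M → ℚ_[ℓ]) →ₗ[ℚ_[ℓ]] Matrix (Fin N) (Fin N) ℚ_[ℓ] :=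
    LinearMap.mk₂ ℚ_[ℓ] (fun w₁ w₂ => Θ (a w₁ w₂))
      (fun x y w => by rw [ha1, map_add]) (fun c x w => by rw [ha2, map_smul])
      (fun w x y => by rw [ha3, map_add]) (fun c w x => by rw [ha4, map_smul])
  let ψ : (Fin N → ℚ_[ℓ]) → (Fin N → ℚ_[ℓ]) → Matrix (Fin N) (Fin N) ℚ_[ℓ] →ₗ[ℚ_[ℓ]] ℚ_[ℓ] :=
    fun v₁ v₂ =>
      { toFun := fun B => v₁ ⬝ᵥ J *ᵥ (B *ᵥ v₂)
        map_add' := fun x y => by rw [add_mulVec, mulVec_add, dotProduct_add]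
        map_smul' := fun c x => by
          rw [smul_mulVec, mulVec_smul, dotProduct_smul, RingHom.id_apply] }
  have hψ : ∀ v₁ v₂ B, ψ v₁ v₂ B = v₁ ⬝ᵥ J *ᵥ (B *ᵥ v₂) := fun _ _ _ => rfl
  let φ : (Fin N → ℚ_[ℓ]) →ₗ[ℚ_[ℓ]] (Fin N → ℚ_[ℓ]) →ₗ[ℚ_[ℓ]] (Fin M → ℚ_[ℓ]) →ₗ[ℚ_[ℓ]]
      (Fin M → ℚ_[ℓ]) →ₗ[ℚ_[ℓ]] ℚ_[ℓ] :=
    LinearMap.mk₂ ℚ_[ℓ] (fun v₁ v₂ => φ₂.compr₂ (ψ v₁ v₂))
      (fun x y w => by
        ext i j
        simp only [LinearMap.compr₂_apply, LinearMap.add_apply, hψ, LinearMap.comp_apply,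
          add_dotProduct])
      (fun c x w => by
        ext i j
        simp only [LinearMap.compr₂_apply, LinearMap.smul_apply, hψ, LinearMap.comp_apply,
          smul_dotProduct])
      (fun w x y => by
        ext i j
        simp only [LinearMap.compr₂_apply, LinearMap.add_apply, hψ, LinearMap.comp_apply,
          mulVec_add, dotProduct_add])
      (fun c w x => by
        ext i j
        simp only [LinearMap.compr₂_apply, LinearMap.smul_apply, hψ, LinearMap.comp_apply,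
          mulVec_smul, dotProduct_smul])
  have hφ : ∀ v₁ v₂ w₁ w₂, φ v₁ v₂ w₁ w₂ = v₁ ⬝ᵥ J *ᵥ (Θ (a w₁ w₂) *ᵥ v₂) := fun _ _ _ _ => rfl
  obtain ⟨t, ht⟩ := hT φ (by
    intro g c d hc hd' v₁ v₂ w₁ w₂
    have hinv : ρ g⁻¹ * ρ g = 1 := by rw [← map_mul, inv_mul_cancel, map_one]
    have hinv' : ρ' g * ρ' g⁻¹ = 1 := by rw [← map_mul, mul_inv_cancel, map_one]
    have e1 : (ρ' g)ᵀ * J' = d • (J' * ρ' g⁻¹) := by
      have e2 : (ρ' g)ᵀ * J' * ρ' g = d • J' := hd'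
      calc (ρ' g)ᵀ * J' = (ρ' g)ᵀ * J' * ρ' g * ρ' g⁻¹ := by rw [mul_assoc, hinv', mul_one]
        _ = d • (J' * ρ' g⁻¹) := by rw [e2, smul_mul_assoc]
    have e3 : a (ρ' g *ᵥ w₁) (ρ' g *ᵥ w₂) = d • (ρ' g * a w₁ w₂ * ρ' g⁻¹) := by
      simp only [a]
      have e4 : vecMulVec (ρ' g *ᵥ w₁) (ρ' g *ᵥ w₂) = ρ' g * vecMulVec w₁ w₂ * (ρ' g)ᵀ := by
        rw [mul_vecMulVec, vecMulVec_mul, vecMul_transpose]
      rw [e4, mul_assoc, e1, mul_smul_comm]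
      congr 1
      noncomm_ring
    rw [hφ, hφ, e3, map_smul, h1, smul_mulVec, mulVec_smul, dotProduct_smul, smul_eq_mul]
    have e5 : (ρ g * Θ (a w₁ w₂) * ρ g⁻¹) *ᵥ (ρ g *ᵥ v₂) = ρ g *ᵥ (Θ (a w₁ w₂) *ᵥ v₂) := by
      rw [mulVec_mulVec, mulVec_mulVec, mul_assoc, hinv, mul_one]
    have e6 : ∀ x y : Fin N → ℚ_[ℓ], (ρ g *ᵥ x) ⬝ᵥ J *ᵥ (ρ g *ᵥ y) = c * (x ⬝ᵥ J *ᵥ y) := by
      intro x y
      have e7 : (ρ g)ᵀ * J * ρ g = c • J := hc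
      have e8 : ((ρ g)ᵀ * J * ρ g) *ᵥ y = c • (J *ᵥ y) := by rw [e7, smul_mulVec]
      calc (ρ g *ᵥ x) ⬝ᵥ J *ᵥ (ρ g *ᵥ y) = x ⬝ᵥ ((ρ g)ᵀ * J * ρ g) *ᵥ y := by
            rw [← mulVec_mulVec, ← mulVec_mulVec, dotProduct_mulVec x, vecMul_transpose]
        _ = c * (x ⬝ᵥ J *ᵥ y) := by rw [e8, dotProduct_smul, smul_eq_mul]
    rw [e5, e6]
    ring)
  have h3 : ∀ w₁ w₂, Θ (a w₁ w₂) = 0 := by
    intro w₁ w₂
    have h4 : J * Θ (a w₁ w₂) = (t * (w₁ ⬝ᵥ J' *ᵥ w₂)) • J := by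
      ext i j
      have h5 := ht (Pi.single i 1) (Pi.single j 1) w₁ w₂
      rw [hφ, mulVec_mulVec, single_one_dotProduct, mulVec_single_one, single_one_dotProduct,
        mulVec_single_one] at h5
      rw [Matrix.smul_apply, smul_eq_mul]
      simp only [Matrix.col_apply] at h5
      rw [h5]
      ring
    have hu : IsUnit J.det := isUnit_iff_ne_zero.2 hd
    have h5 : Θ (a w₁ w₂) = (t * (w₁ ⬝ᵥ J' *ᵥ w₂)) • (1 : Matrix (Fin N) (Fin N) ℚ_[ℓ]) := by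
      have h6 := congrArg (fun B => J⁻¹ * B) h4
      simp only [mul_smul_comm] at h6
      rwa [← mul_assoc, nonsing_inv_mul _ hu, one_mul] at h6
    have h6 := h2 (a w₁ w₂)
    rw [h5] at h6 ⊢
    rw [scalar_zero hN hd h6, zero_smul]
  intro A
  have hu' : IsUnit J'.det := isUnit_iff_ne_zero.2 hd'
  have h4 : A = (A * J'⁻¹) * J' := by rw [mul_assoc, nonsing_inv_mul _ hu', mul_one]
  have h5 : ∀ B : Matrix (Fin M) (Fin M) ℚ_[ℓ], Θ (B * J') = 0 := by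
    intro B
    have h6 : B = ∑ i, ∑ j, B i j • vecMulVec (Pi.single i 1) (Pi.single j 1) := by
      ext k l
      simp only [Matrix.sum_apply, Matrix.smul_apply, vecMulVec_apply, smul_eq_mul]
      rw [Finset.sum_eq_single k, Finset.sum_eq_single l]
      · simp
      · intro j _ hj
        rw [Pi.single_eq_of_ne (Ne.symm hj)]
        simp
      · intro h
        exact absurd (Finset.mem_univ l) h
      · intro i _ hi
        refine Finset.sum_eq_zero fun j _ => ?_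
        rw [Pi.single_eq_of_ne (Ne.symm hi)]
        simp
      · intro h
        exact absurd (Finset.mem_univ k) h
    rw [h6, Finset.sum_mul, map_sum]
    refine Finset.sum_eq_zero fun i _ => ?_
    rw [Finset.sum_mul, map_sum]
    refine Finset.sum_eq_zero fun j _ => ?_
    rw [smul_mul_assoc, map_smul]
    have h7 : Θ (vecMulVec (Pi.single i 1) (Pi.single j 1) * J') = 0 := h3 _ _
    rw [h7, smul_zero]
  rw [h4]
  exact h5 _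

end tate

end Pool.Agent.R932.PO
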