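import Pool.Agent.R932.PO.App

/-!
# Project PO: kinds of systems, one system
-/

set_option autoImplicit false
set_option linter.unusedSectionVars false
set_option linter.style.haveILetI false

open Matrix Polynomial Filter Topology NumberField IsDedekindDomain
open Pool.Agent.Y142.ZO Pool.Agent.Y142.ZI Pool.Agent.Y142.ZS
open Pool.Agent.Y142.ZD (DistPow NR Tame S_TAME)
open Pool.Agent.R932.OP Pool.Agent.R932.EV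

namespace Pool.Agent.R932.PO

/-- symplectic, orthogonal of odd rank, orthogonal of even rank -/
inductive Kind : Type
  | sym | odd | even

/-- rank and form are of this kind -/
def Fits (κ : Kind) {F : Type} [Field F] {N : ℕ} (J : Matrix (Fin N) (Fin N) F) : Prop :=
  match κ with
  | .sym => Jᵀ = -J ∧ 0 < N
  | .odd => Jᵀ = J ∧ Odd N ∧ 5 ≤ N
  | .even => Jᵀ = J ∧ Even N ∧ 8 ≤ N

/-- the prime number is suitable for this kind -/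
def Allows (κ : Kind) (N ℓ : ℕ) [Fact ℓ.Prime] (J : Matrix (Fin N) (Fin N) ℚ_[ℓ]) : Prop :=
  match κ with
  | .sym => ℓ ≠ 2
  | .odd => ¬ ℓ ∣ N - 1
  | .even => ¬ ℓ ∣ (N - 2) * (N - 4) ∧ Even (Padic.valuation J.det)

section
variable {K : Type} [Field K] [NumberField K] {Γ : Type} [Group Γ] [TopologicalSpace Γ]

/-- a system of one of the three kinds -/
def Sys (s : GK K →* Γ) (κ : Kind) (N ℓ : ℕ) [Fact ℓ.Prime]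
    (ρ : Γ →* Matrix (Fin N) (Fin N) ℚ_[ℓ]) (J : Matrix (Fin N) (Fin N) ℚ_[ℓ])
    (S : Set (HeightOneSpectrum (𝓞 K))) (P : HeightOneSpectrum (𝓞 K) → ℚ[X])
    (q : HeightOneSpectrum (𝓞 K) → ℚ) : Prop :=
  Continuous ρ ∧ Fits κ J ∧ J.det ≠ 0 ∧
    (∀ γ, ∃ c : ℚ_[ℓ], (ρ γ)ᵀ * J * ρ γ = c • J ∧ (Jᵀ = J → c = 1)) ∧
    ∀ v ∉ S, (ℓ : 𝓞 K) ∉ v.asIdeal → ∀ σ : GK K, IsFrobenius v σ →
      (ρ (s σ⁻¹)).charpoly = (P v).map (algebraMap ℚ ℚ_[ℓ]) ∧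
        (ρ (s σ⁻¹))ᵀ * J * ρ (s σ⁻¹) = (q v : ℚ_[ℓ]) • J

end

theorem Fits.isForm {κ : Kind} {F : Type} [Field F] {N : ℕ} {J : Matrix (Fin N) (Fin N) F}
    (h : Fits κ J) (hd : J.det ≠ 0) : IsForm J := by
  cases κ with
  | sym => exact ⟨Or.inr h.1, hd⟩
  | odd => exact ⟨Or.inl ⟨h.1, h.2.2⟩, hd⟩
  | even => exact ⟨Or.inl ⟨h.1, by have := h.2.2; omega⟩, hd⟩

theorem Fits.pos {κ : Kind} {F : Type} [Field F] {N : ℕ} {J : Matrix (Fin N) (Fin N) F}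
    (h : Fits κ J) : 0 < N := by
  cases κ with
  | sym => exact h.2
  | odd => have := h.2.2; omega
  | even => have := h.2.2; omega

theorem Fits.symm {κ : Kind} {F : Type} [Field F] {N : ℕ} {J : Matrix (Fin N) (Fin N) F}
    (h : Fits κ J) : Jᵀ = J ∨ Jᵀ = -J := by
  cases κ with
  | sym => exact Or.inr h.1
  | odd => exact Or.inl h.1
  | even => exact Or.inl h.1

theorem Allows.ne_two {κ : Kind} {N ℓ : ℕ} [Fact ℓ.Prime] {J : Matrix (Fin N) (Fin N) ℚ_[ℓ]}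
    (hf : Fits κ J) (h : Allows κ N ℓ J) : ℓ ≠ 2 := by
  cases κ with
  | sym => exact h
  | odd =>
    rintro rfl
    obtain ⟨j, hj⟩ := hf.2.1
    exact h ⟨j, by omega⟩
  | even =>
    rintro rfl
    obtain ⟨j, hj⟩ := hf.2.1
    have := hf.2.2
    refine h.1 (Dvd.dvd.mul_right ⟨j - 1, by omega⟩ _)

section
variable {K : Type} [Field K] [NumberField K] {N : ℕ} {S : Set (HeightOneSpectrum (𝓞 K))}
  {P : HeightOneSpectrum (𝓞 K) → ℚ[X]} {q : HeightOneSpectrum (𝓞 K) → ℚ}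
  {Γ : Type} [Group Γ] [TopologicalSpace Γ] [IsTopologicalGroup Γ] [CompactSpace Γ]
  {s : GK K →* Γ} {κ : Kind}

theorem skew_sp {F : Type} [Field F] {N : ℕ} {B X : Matrix (Fin N) (Fin N) F} (hB : Bᵀ = B) :
    Skew B X ↔ SpLie B X := by
  unfold Skew SpLie
  rw [transpose_mul, hB, ← add_eq_zero_iff_eq_neg]

theorem Sys.toSp {ℓ : ℕ} [Fact ℓ.Prime] {ρ : Γ →* Matrix (Fin N) (Fin N) ℚ_[ℓ]}
    {J : Matrix (Fin N) (Fin N) ℚ_[ℓ]} (hs : Continuous s) (h : Sys s .sym N ℓ ρ J S P q) :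
    SpSys K N ℓ (ρ.comp s) J S P q :=
  ⟨h.1.comp hs, h.2.1.1, h.2.2.1, fun g => by
    obtain ⟨c, hc, -⟩ := h.2.2.2.1 (s g)
    exact ⟨c, hc⟩, fun v hv hvℓ σ hσ => h.2.2.2.2 v hv hvℓ σ hσ⟩

theorem Sys.toOrth {ℓ : ℕ} [Fact ℓ.Prime] {ρ : Γ →* Matrix (Fin N) (Fin N) ℚ_[ℓ]}
    {J : Matrix (Fin N) (Fin N) ℚ_[ℓ]} (hs : Continuous s) (h : Sys s κ N ℓ ρ J S P q)
    (hJ : Jᵀ = J) : Orthogonal K N ℓ (ρ.comp s) J S P :=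
  ⟨h.1.comp hs, hJ, h.2.2.1, fun g => by
    obtain ⟨c, hc, hc1⟩ := h.2.2.2.1 (s g)
    rw [hc1 hJ, one_smul] at hc
    exact hc, fun v hv hvℓ σ hσ => (h.2.2.2.2 v hv hvℓ σ hσ).1⟩

theorem Sys.isom {ℓ : ℕ} [Fact ℓ.Prime] {ρ : Γ →* Matrix (Fin N) (Fin N) ℚ_[ℓ]}
    {J : Matrix (Fin N) (Fin N) ℚ_[ℓ]} (h : Sys s κ N ℓ ρ J S P q) (hJ : Jᵀ = J) (g : Γ) :
    Isom J (ρ g) := by
  obtain ⟨c, hc, hc1⟩ := h.2.2.2.1 g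
  rw [hc1 hJ, one_smul] at hc
  exact hc

/-- one system: density one -/
theorem one_dens (hs : Continuous s) (hS : S.Finite)
    (ρ : ∀ (ℓ : ℕ) [Fact ℓ.Prime], Γ →* Matrix (Fin N) (Fin N) ℚ_[ℓ])
    (J : ∀ (ℓ : ℕ) [Fact ℓ.Prime], Matrix (Fin N) (Fin N) ℚ_[ℓ])
    (hsys : ∀ (ℓ : ℕ) [Fact ℓ.Prime], Sys s κ N ℓ (ρ ℓ) (J ℓ) S P q)
    (ℓ₀ : ℕ) [hℓ₀ : Fact ℓ₀.Prime] (hal : Allows κ N ℓ₀ (J ℓ₀))
    (hfull : ∀ X, SpLie (J ℓ₀) X → IsTangent ℓ₀ ((ρ ℓ₀).comp s) X) :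
    Y142.ZI.DensityZero {ℓ | ∃ _ : Fact ℓ.Prime,
      ¬ ∀ X, SpLie (J ℓ) X → IsTangent ℓ ((ρ ℓ).comp s) X} := by
  cases κ with
  | sym =>
    exact sym_one (hsys ℓ₀).2.1.pos hS (fun ℓ _ => (ρ ℓ).comp s) J (fun ℓ _ => (hsys ℓ).toSp hs) ℓ₀
      hal hfull
  | odd =>
    have hJ : ∀ (ℓ : ℕ) [Fact ℓ.Prime], (J ℓ)ᵀ = J ℓ := fun ℓ _ => (hsys ℓ).2.1.1
    refine Y142.ZI.DensityZero.mono (orth_one (hsys ℓ₀).2.1.2.1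
      (by have := (hsys ℓ₀).2.1.2.2; omega) hS (fun ℓ _ => (ρ ℓ).comp s) J
      (fun ℓ _ => (hsys ℓ).toOrth hs (hJ ℓ)) ℓ₀ hal fun X hX => hfull X ((skew_sp (hJ ℓ₀)).1 hX)) ?_
    rintro ℓ ⟨hp, hno⟩
    exact ⟨hp, fun h => hno fun X hX => h X ((skew_sp (hJ ℓ)).2 hX)⟩
  | even =>
    have hJ : ∀ (ℓ : ℕ) [Fact ℓ.Prime], (J ℓ)ᵀ = J ℓ := fun ℓ _ => (hsys ℓ).2.1.1
    refine Y142.ZI.DensityZero.mono (orthE_one (hsys ℓ₀).2.1.2.1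
      (hsys ℓ₀).2.1.2.2 hS (fun ℓ _ => (ρ ℓ).comp s) J
      (fun ℓ _ => (hsys ℓ).toOrth hs (hJ ℓ)) ℓ₀ hal.1 (fun X hX => hfull X ((skew_sp (hJ ℓ₀)).1 hX))
      hal.2) ?_
    rintro ℓ ⟨hp, hno⟩
    exact ⟨hp, fun h => hno fun X hX => h X ((skew_sp (hJ ℓ)).2 hX)⟩

/-- one system: every prime -/
theorem one_every (hs : Continuous s) (hS : S.Finite)
    (ρ : ∀ (ℓ : ℕ) [Fact ℓ.Prime], Γ →* Matrix (Fin N) (Fin N) ℚ_[ℓ])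
    (J : ∀ (ℓ : ℕ) [Fact ℓ.Prime], Matrix (Fin N) (Fin N) ℚ_[ℓ])
    (hsys : ∀ (ℓ : ℕ) [Fact ℓ.Prime], Sys s κ N ℓ (ρ ℓ) (J ℓ) S P q)
    (ℓ₀ : ℕ) [hℓ₀ : Fact ℓ₀.Prime] (hal : Allows κ N ℓ₀ (J ℓ₀))
    (hfull : ∀ X, SpLie (J ℓ₀) X → IsTangent ℓ₀ ((ρ ℓ₀).comp s) X)
    (ℓ : ℕ) [hℓ : Fact ℓ.Prime] (hss : SS (ρ ℓ)) (hsc : SC (ρ ℓ)) :
    ∀ X, SpLie (J ℓ) X → IsTangent ℓ (ρ ℓ) X := by
  have h2 := Allows.ne_two (hsys ℓ₀).2.1 hal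
  cases κ with
  | sym =>
    exact sp_every (hsys ℓ₀).2.1.pos hS s ρ J (fun ℓ _ => (hsys ℓ).1)
      (fun ℓ _ g => by
        obtain ⟨c, hc, -⟩ := (hsys ℓ).2.2.2.1 g
        exact ⟨c, hc⟩) (fun ℓ _ => (hsys ℓ).toSp hs) ℓ₀ h2 hfull ℓ hss hsc
  | odd =>
    have hJ : ∀ (ℓ : ℕ) [Fact ℓ.Prime], (J ℓ)ᵀ = J ℓ := fun ℓ _ => (hsys ℓ).2.1.1
    have h := so_odd_every (hsys ℓ₀).2.1.2.1 (by have := (hsys ℓ₀).2.1.2.2; omega) hS s ρ J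
      (fun ℓ _ => (hsys ℓ).1) (fun ℓ _ g => (hsys ℓ).isom (hJ ℓ) g)
      (fun ℓ _ => (hsys ℓ).toOrth hs (hJ ℓ)) ℓ₀ h2
      (fun X hX => hfull X ((skew_sp (hJ ℓ₀)).1 hX)) ℓ (strong_of_ss (ρ ℓ) hss hsc)
    exact fun X hX => h X ((skew_sp (hJ ℓ)).2 hX)
  | even =>
    have hJ : ∀ (ℓ : ℕ) [Fact ℓ.Prime], (J ℓ)ᵀ = J ℓ := fun ℓ _ => (hsys ℓ).2.1.1
    have h := so_even_every (hsys ℓ₀).2.1.2.1 (hsys ℓ₀).2.1.2.2 hS s ρ J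
      (fun ℓ _ => (hsys ℓ).1) (fun ℓ _ g => (hsys ℓ).isom (hJ ℓ) g)
      (fun ℓ _ => (hsys ℓ).toOrth hs (hJ ℓ)) ℓ₀ hal.1
      (fun X hX => hfull X ((skew_sp (hJ ℓ₀)).1 hX)) hal.2 ℓ hss hsc
    exact fun X hX => h X ((skew_sp (hJ ℓ)).2 hX)

end

end Pool.Agent.R932.PO
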