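import Pool.Agent.R932.PO.Gour
import Pool.Agent.R932.Tan

/-!
# Project PO: semi-invariant multilinear forms are killed by the full Lie algebra
-/

set_option autoImplicit false
set_option linter.unusedSectionVars false
set_option linter.style.haveILetI false

open Matrix Filter Topology
open Pool.Agent.Y142.ZO Pool.Agent.Y142.ZI Pool.Agent.Y142.ZS

namespace Pool.Agent.R932.PO

section cont
variable {F : Type} [NormedField F] {k : ℕ} {M : Fin k → ℕ}

theorem cont_mult (φ : MultilinearMap F (fun t : Fin k => Fin (M t) → F) F) :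
    Continuous fun v : (∀ t, Fin (M t) → F) => φ v := by
  classical
  have h1 : ∀ v : (∀ t, Fin (M t) → F), φ v =
      ∑ r : (∀ t, Fin (M t)), (∏ t, v t (r t)) * φ (fun t => Pi.single (r t) 1) := by
    intro v
    have h2 : v = fun t => ∑ j, v t j • (Pi.single j (1 : F) : Fin (M t) → F) := by
      funext t
      exact (pi_eq_sum_univ' (v t))
    conv_lhs => rw [h2]
    rw [MultilinearMap.map_sum]
    refine Finset.sum_congr rfl fun r _ => ?_
    rw [MultilinearMap.map_smul_univ, smul_eq_mul]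
  have h3 : (fun v : (∀ t, Fin (M t) → F) => φ v) = fun v =>
      ∑ r : (∀ t, Fin (M t)), (∏ t, v t (r t)) * φ (fun t => Pi.single (r t) 1) := funext h1
  rw [h3]
  refine continuous_finsetSum _ fun r _ => ?_
  refine Continuous.mul (continuous_finsetProd _ fun t _ => ?_) continuous_const
  exact (continuous_apply (r t)).comp (continuous_apply t)

/-- the derivative of a multilinear form -/
theorem deriv_mult (φ : MultilinearMap F (fun t : Fin k => Fin (M t) → F) F) {c : ℕ → F}
    (hc0 : ∀ n, c n ≠ 0) (hc : Tendsto c atTop (𝓝 0))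
    {g : ℕ → ∀ t, Matrix (Fin (M t)) (Fin (M t)) F} {X : ∀ t, Matrix (Fin (M t)) (Fin (M t)) F}
    (hg : ∀ t, Tendsto (fun n => (c n)⁻¹ • (g n t - 1)) atTop (𝓝 (X t))) (v : ∀ t, Fin (M t) → F) :
    Tendsto (fun n => (c n)⁻¹ * (φ (fun t => g n t *ᵥ v t) - φ v)) atTop
      (𝓝 (∑ t, φ (Function.update v t (X t *ᵥ v t)))) := by
  classical
  have hg1 : ∀ t, Tendsto (fun n => g n t *ᵥ v t) atTop (𝓝 (v t)) := by
    intro t
    have h1 : Tendsto (fun n => (c n) • ((c n)⁻¹ • (g n t - 1))) atTop (𝓝 ((0 : F) • X t)) :=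
      hc.smul (hg t)
    rw [zero_smul] at h1
    have h2 : Tendsto (fun n => g n t) atTop (𝓝 1) := by
      have h3 := h1.add_const (1 : Matrix (Fin (M t)) (Fin (M t)) F)
      rw [zero_add] at h3
      refine h3.congr fun n => ?_
      rw [smul_smul, mul_inv_cancel₀ (hc0 n), one_smul, sub_add_cancel]
    have h4 : Continuous fun A : Matrix (Fin (M t)) (Fin (M t)) F => A *ᵥ v t :=
      Continuous.matrix_mulVec continuous_id continuous_const
    have h5 := (h4.tendsto 1).comp h2
    rw [one_mulVec] at h5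
    exact h5
  have hY : ∀ t, Tendsto (fun n => ((c n)⁻¹ • (g n t - 1)) *ᵥ v t) atTop (𝓝 (X t *ᵥ v t)) := by
    intro t
    have h4 : Continuous fun A : Matrix (Fin (M t)) (Fin (M t)) F => A *ᵥ v t :=
      Continuous.matrix_mulVec continuous_id continuous_const
    exact (h4.tendsto _).comp (hg t)
  let w : ℕ → Fin k → ∀ t, Fin (M t) → F := fun n i j =>
    if j < i then g n j *ᵥ v j else if j = i then ((c n)⁻¹ • (g n j - 1)) *ᵥ v j else v j
  have h1 : ∀ n, (c n)⁻¹ * (φ (fun t => g n t *ᵥ v t) - φ v) = ∑ i, φ (w n i) := by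
    intro n
    have h2 := φ.map_piecewise_sub_map_piecewise (fun t => g n t *ᵥ v t) v v Finset.univ
    rw [Finset.piecewise_univ, Finset.piecewise_univ] at h2
    rw [h2, Finset.mul_sum]
    refine Finset.sum_congr rfl fun i _ => ?_
    have h3 : (fun j => if j ∈ Finset.univ then if j < i then g n j *ᵥ v j else
        if j = i then g n j *ᵥ v j - v j else v j else v j) =
        Function.update (w n i) i ((c n) • (w n i i)) := by
      funext j
      by_cases hj : j = i
      · subst hj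
        rw [Function.update_self, if_pos (Finset.mem_univ _)]
        simp only [w]
        rw [if_neg (lt_irrefl j), if_pos trivial, if_neg (lt_irrefl j), if_pos trivial, smul_mulVec,
          smul_smul, mul_inv_cancel₀ (hc0 n), one_smul, sub_mulVec, one_mulVec]
      · rw [Function.update_of_ne hj, if_pos (Finset.mem_univ _)]
        simp only [w]
        rw [if_neg hj, if_neg hj]
    rw [h3, MultilinearMap.map_update_smul, Function.update_eq_self, smul_eq_mul, ← mul_assoc,
      inv_mul_cancel₀ (hc0 n), one_mul]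
  have h2 : ∀ i, Tendsto (fun n => φ (w n i)) atTop (𝓝 (φ (Function.update v i (X i *ᵥ v i)))) := by
    intro i
    refine ((cont_mult φ).tendsto _).comp (tendsto_pi_nhds.2 fun j => ?_)
    by_cases hj : j < i
    · have h3 : (fun n => w n i j) = fun n => g n j *ᵥ v j := by
        funext n
        simp only [w]
        rw [if_pos hj]
      rw [h3, Function.update_of_ne hj.ne]
      exact hg1 j
    · by_cases hji : j = i
      · subst hji
        have h3 : (fun n => w n j j) = fun n => ((c n)⁻¹ • (g n j - 1)) *ᵥ v j := by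
          funext n
          simp only [w]
          rw [if_neg hj, if_pos trivial]
        rw [h3, Function.update_self]
        exact hY j
      · have h3 : (fun n => w n i j) = fun _ => v j := by
          funext n
          simp only [w]
          rw [if_neg hj, if_neg hji]
        rw [h3, Function.update_of_ne hji]
        exact tendsto_const_nhds
  exact (tendsto_finsetSum _ fun i _ => h2 i).congr fun n => (h1 n).symm

end cont

section alg
variable {F : Type} [Field F] {k : ℕ} {M : Fin k → ℕ}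

/-- the derivation given by a family of matrices -/
def der (φ : MultilinearMap F (fun t : Fin k => Fin (M t) → F) F)
    (X : ∀ t, Matrix (Fin (M t)) (Fin (M t)) F) (v : ∀ t, Fin (M t) → F) : F :=
  ∑ t, φ (Function.update v t (X t *ᵥ v t))

theorem der_add (φ : MultilinearMap F (fun t : Fin k => Fin (M t) → F) F)
    (X Y : ∀ t, Matrix (Fin (M t)) (Fin (M t)) F) (v : ∀ t, Fin (M t) → F) :
    der φ (X + Y) v = der φ X v + der φ Y v := by
  unfold der
  rw [← Finset.sum_add_distrib]
  refine Finset.sum_congr rfl fun t _ => ?_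
  rw [Pi.add_apply, add_mulVec, φ.map_update_add]

theorem der_smul (φ : MultilinearMap F (fun t : Fin k => Fin (M t) → F) F) (c : F)
    (X : ∀ t, Matrix (Fin (M t)) (Fin (M t)) F) (v : ∀ t, Fin (M t) → F) :
    der φ (c • X) v = c * der φ X v := by
  unfold der
  rw [Finset.mul_sum]
  refine Finset.sum_congr rfl fun t _ => ?_
  rw [Pi.smul_apply, smul_mulVec, φ.map_update_smul, smul_eq_mul]

theorem der_bracket (φ : MultilinearMap F (fun t : Fin k => Fin (M t) → F) F)
    (X Y : ∀ t, Matrix (Fin (M t)) (Fin (M t)) F) {a b : F} (hX : ∀ v, der φ X v = a * φ v)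
    (hY : ∀ v, der φ Y v = b * φ v) (v : ∀ t, Fin (M t) → F) :
    der φ (fun t => X t * Y t - Y t * X t) v = 0 := by
  classical
  have key : ∀ (X Y : ∀ t, Matrix (Fin (M t)) (Fin (M t)) F),
      ∑ t, der φ Y (Function.update v t (X t *ᵥ v t)) =
      (∑ t, φ (Function.update v t ((Y t * X t) *ᵥ v t))) +
      ∑ t, ∑ s ∈ Finset.univ.erase t,
        φ (Function.update (Function.update v t (X t *ᵥ v t)) s (Y s *ᵥ v s)) := by
    intro X Y
    rw [← Finset.sum_add_distrib]
    refine Finset.sum_congr rfl fun t _ => ?_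
    unfold der
    rw [← Finset.add_sum_erase _ _ (Finset.mem_univ t)]
    congr 1
    · rw [Function.update_self, Function.update_idem, mulVec_mulVec]
    · refine Finset.sum_congr rfl fun s hs => ?_
      rw [Function.update_of_ne (Finset.ne_of_mem_erase hs)]
  have h1 := key X Y
  have h2 := key Y X
  have e1 : ∑ t, der φ Y (Function.update v t (X t *ᵥ v t)) = b * (a * φ v) := by
    rw [← hX v]
    unfold der
    rw [Finset.mul_sum]
    refine Finset.sum_congr rfl fun t _ => ?_
    exact hY _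
  have e2 : ∑ t, der φ X (Function.update v t (Y t *ᵥ v t)) = a * (b * φ v) := by
    rw [← hY v]
    unfold der
    rw [Finset.mul_sum]
    refine Finset.sum_congr rfl fun t _ => ?_
    exact hX _
  have e3 : ∑ t, ∑ s ∈ Finset.univ.erase t,
        φ (Function.update (Function.update v t (X t *ᵥ v t)) s (Y s *ᵥ v s)) =
      ∑ t, ∑ s ∈ Finset.univ.erase t,
        φ (Function.update (Function.update v t (Y t *ᵥ v t)) s (X s *ᵥ v s)) := by
    rw [Finset.sum_comm' (t' := Finset.univ) (s' := fun s => Finset.univ.erase s)]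
    · refine Finset.sum_congr rfl fun s _ => Finset.sum_congr rfl fun t ht => ?_
      rw [Function.update_comm (Finset.ne_of_mem_erase ht)]
    · intro t s
      simp only [Finset.mem_univ, Finset.mem_erase, true_and, and_true, ne_comm]
  have e4 : der φ (fun t => X t * Y t - Y t * X t) v =
      (∑ t, φ (Function.update v t ((X t * Y t) *ᵥ v t))) -
      ∑ t, φ (Function.update v t ((Y t * X t) *ᵥ v t)) := by
    unfold der
    rw [← Finset.sum_sub_distrib]
    refine Finset.sum_congr rfl fun t _ => ?_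
    rw [sub_mulVec, φ.map_update_sub]
  rw [e4]
  rw [e1, e3] at h1
  rw [e2] at h2
  linear_combination h1 - h2

end alg

section top
variable {ℓ : ℕ} [hℓ : Fact ℓ.Prime] {ι : Type} [Fintype ι] [DecidableEq ι] {N : ι → ℕ}
  {G : Type} [Group G] [TopologicalSpace G] [IsTopologicalGroup G] [CompactSpace G]
  {ρ : ∀ i, G →* Matrix (Fin (N i)) (Fin (N i)) ℚ_[ℓ]}
  {J : ∀ i, Matrix (Fin (N i)) (Fin (N i)) ℚ_[ℓ]}

/-- joint tangent vectors act on semi-invariant forms as scalars -/
theorem semi_scalar (hρ : ∀ i, Continuous (ρ i)) {k : ℕ} {a : Fin k → ι}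
    (φ : MultilinearMap ℚ_[ℓ] (fun t : Fin k => Fin (N (a t)) → ℚ_[ℓ]) ℚ_[ℓ]) {U : Subgroup G}
    (hU : IsOpen (U : Set G)) {χ : G → ℚ_[ℓ]}
    (hφ : ∀ σ ∈ U, ∀ v, φ (fun t => ρ (a t) σ *ᵥ v t) = χ σ * φ v)
    {X : ∀ i, Matrix (Fin (N i)) (Fin (N i)) ℚ_[ℓ]} (hX : JTan ℓ ρ X) :
    ∃ c : ℚ_[ℓ], ∀ v, der φ (fun t => X (a t)) v = c * φ v := by
  obtain ⟨σ, hσ⟩ := hX
  haveI : ∀ i, T2Space (Matrix (Fin (N i)) (Fin (N i)) ℚ_[ℓ]) := fun i =>
    inferInstanceAs (T2Space (Fin (N i) → Fin (N i) → ℚ_[ℓ]))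
  let R : G →* (∀ i, Matrix (Fin (N i)) (Fin (N i)) ℚ_[ℓ]) := MonoidHom.pi ρ
  have hR : Continuous R := continuous_pi hρ
  have h1 : Tendsto (fun n => R (σ n)) atTop (𝓝 1) :=
    tendsto_pi_nhds.2 fun i => tendsto_one (hσ i)
  have h2 := eventually_mem hR hU h1
  have hℓ1 : ‖(ℓ : ℚ_[ℓ])‖ < 1 := Padic.norm_p_lt_one
  have hp : Tendsto (fun n : ℕ => (ℓ : ℚ_[ℓ]) ^ n) atTop (𝓝 0) :=
    tendsto_pow_atTop_nhds_zero_of_norm_lt_one hℓ1
  have hp0 : ∀ n : ℕ, (ℓ : ℚ_[ℓ]) ^ n ≠ 0 := fun n => pow_ne_zero _ (by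
    exact_mod_cast (Fact.out : ℓ.Prime).ne_zero)
  have h3 : ∀ v, Tendsto (fun n : ℕ => ((ℓ : ℚ_[ℓ]) ^ n)⁻¹ *
      (φ (fun t => ρ (a t) (σ n) *ᵥ v t) - φ v)) atTop (𝓝 (der φ (fun t => X (a t)) v)) := by
    intro v
    exact deriv_mult φ hp0 hp (g := fun n t => ρ (a t) (σ n)) (fun t => hσ (a t)) v
  have h4 : ∀ n, ∃ χ' : ℚ_[ℓ], (∃ u ∈ U, R u = R (σ n)) →
      ∀ v, φ (fun t => ρ (a t) (σ n) *ᵥ v t) = χ' * φ v := by
    intro n
    by_cases h : ∃ u ∈ U, R u = R (σ n)
    · obtain ⟨u, hu, huρ⟩ := h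
      refine ⟨χ u, fun _ v => ?_⟩
      rw [← hφ u hu v]
      congr 1
      funext t
      have h5 : ρ (a t) u = ρ (a t) (σ n) := congrFun huρ (a t)
      rw [h5]
    · exact ⟨1, fun h' => absurd h' h⟩
  choose χ' hχ' using h4
  by_cases h0 : ∃ v, φ v ≠ 0
  · obtain ⟨v₀, hv₀⟩ := h0
    have h5 : Tendsto (fun n : ℕ => ((ℓ : ℚ_[ℓ]) ^ n)⁻¹ * (χ' n - 1)) atTop
        (𝓝 (der φ (fun t => X (a t)) v₀ / φ v₀)) := by
      have h6 := (h3 v₀).div_const (φ v₀)
      refine h6.congr' ?_
      filter_upwards [h2] with n hn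
      rw [hχ' n hn v₀]
      field_simp
    refine ⟨der φ (fun t => X (a t)) v₀ / φ v₀, fun v => ?_⟩
    have h6 := h5.mul_const (φ v)
    refine tendsto_nhds_unique ((h3 v).congr' ?_) h6
    filter_upwards [h2] with n hn
    rw [hχ' n hn v]
    ring
  · push Not at h0
    refine ⟨0, fun v => ?_⟩
    unfold der
    rw [zero_mul]
    exact Finset.sum_eq_zero fun t _ => h0 _

/-- **semi-invariant forms are killed by the full Lie algebra** -/
theorem semi_killed (hρ : ∀ i, Continuous (ρ i)) (hJ : ∀ i, IsForm (J i))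
    (hfull : ∀ X, (∀ i, SpLie (J i) (X i)) → JTan ℓ ρ X) {k : ℕ} {a : Fin k → ι}
    (φ : MultilinearMap ℚ_[ℓ] (fun t : Fin k => Fin (N (a t)) → ℚ_[ℓ]) ℚ_[ℓ]) {U : Subgroup G}
    (hU : IsOpen (U : Set G)) {χ : G → ℚ_[ℓ]}
    (hφ : ∀ σ ∈ U, ∀ v, φ (fun t => ρ (a t) σ *ᵥ v t) = χ σ * φ v)
    {X : ∀ i, Matrix (Fin (N i)) (Fin (N i)) ℚ_[ℓ]} (hX : ∀ i, SpLie (J i) (X i))
    (v : ∀ t, Fin (N (a t)) → ℚ_[ℓ]) : der φ (fun t => X (a t)) v = 0 := by
  let A : Submodule ℚ_[ℓ] (∀ i, Matrix (Fin (N i)) (Fin (N i)) ℚ_[ℓ]) :=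
    { carrier := {X | ∀ v, der φ (fun t => X (a t)) v = 0}
      zero_mem' := by
        intro v
        have h1 := der_smul φ 0 (fun t => (0 : ∀ i, Matrix (Fin (N i)) (Fin (N i)) ℚ_[ℓ]) (a t)) v
        rw [zero_smul, zero_mul] at h1
        exact h1
      add_mem' := by
        intro X Y hX hY v
        have h1 := der_add φ (fun t => X (a t)) (fun t => Y (a t)) v
        rw [hX v, hY v, add_zero] at h1
        exact h1
      smul_mem' := by
        intro c X hX v
        have h1 := der_smul φ c (fun t => X (a t)) v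
        rw [hX v, mul_zero] at h1
        exact h1 }
  have hA : ∀ X, X ∈ A ↔ ∀ v, der φ (fun t => X (a t)) v = 0 := fun _ => Iff.rfl
  have h1 : ∀ (i : ι) (Z : Matrix (Fin (N i)) (Fin (N i)) ℚ_[ℓ]), Z ∈ brs (J i) →
      Pi.single i Z ∈ A := by
    intro i Z hZ
    unfold brs at hZ
    induction hZ using Submodule.span_induction with
    | mem Z hZ =>
      obtain ⟨B, C, hB, hC, rfl⟩ := hZ
      have hsp : ∀ B, SpLie (J i) B → ∀ j, SpLie (J j)
          ((Pi.single i B : ∀ i, Matrix (Fin (N i)) (Fin (N i)) ℚ_[ℓ]) j) := by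
        intro B hB j
        by_cases hj : j = i
        · subst hj
          rw [Pi.single_eq_same]
          exact hB
        · rw [Pi.single_eq_of_ne hj]
          unfold SpLie
          rw [transpose_zero, zero_mul, mul_zero, add_zero]
      obtain ⟨b, hb⟩ := semi_scalar hρ φ hU hφ (hfull _ (hsp B hB))
      obtain ⟨c, hc⟩ := semi_scalar hρ φ hU hφ (hfull _ (hsp C hC))
      rw [hA]
      intro v
      have h2 := der_bracket φ _ _ hb hc v
      have hs : ∀ j, (Pi.single i (B * C - C * B) :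
          ∀ i, Matrix (Fin (N i)) (Fin (N i)) ℚ_[ℓ]) j =
          (Pi.single i B : ∀ i, Matrix (Fin (N i)) (Fin (N i)) ℚ_[ℓ]) j *
            (Pi.single i C : ∀ i, Matrix (Fin (N i)) (Fin (N i)) ℚ_[ℓ]) j -
          (Pi.single i C : ∀ i, Matrix (Fin (N i)) (Fin (N i)) ℚ_[ℓ]) j *
            (Pi.single i B : ∀ i, Matrix (Fin (N i)) (Fin (N i)) ℚ_[ℓ]) j := by
        intro j
        by_cases hj : j = i
        · subst hj
          rw [Pi.single_eq_same, Pi.single_eq_same, Pi.single_eq_same]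
        · rw [Pi.single_eq_of_ne hj, Pi.single_eq_of_ne hj, Pi.single_eq_of_ne hj, mul_zero,
            sub_zero]
      refine Eq.trans ?_ h2
      congr 1
      funext t
      exact hs (a t)
    | zero =>
      rw [Pi.single_zero]
      exact A.zero_mem
    | add Y Z _ _ hY hZ =>
      rw [Pi.single_add]
      exact A.add_mem hY hZ
    | smul c Z _ hZ =>
      rw [Pi.single_smul]
      exact A.smul_mem c hZ
  have h2 : X = ∑ i, Pi.single i (X i) := by
    funext i
    rw [Finset.sum_apply, Finset.sum_eq_single i]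
    · rw [Pi.single_eq_same]
    · intro j _ hj
      rw [Pi.single_eq_of_ne (Ne.symm hj)]
    · intro h
      exact absurd (Finset.mem_univ i) h
  have h3 : X ∈ A := by
    rw [h2]
    exact A.sum_mem fun i _ => h1 i _ (perf (hJ i) (hX i))
  exact h3 v

end top

end Pool.Agent.R932.PO
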