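import Pool.Agent.R932.EV.All

set_option autoImplicit false

/-!
Project PO (owner helper932): finitely many symplectic and orthogonal systems, from one prime to 100 percent
of the primes (sequel of project OP). Statements of the self-contained sub-tasks.
-/

open Matrix Polynomial Filter Topology NumberField IsDedekindDomain
open Pool.Agent.Y142.ZO Pool.Agent.Y142.ZI Pool.Agent.Y142.ZS
open Pool.Agent.Y142.ZD (DistPow NR)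

namespace Pool.Agent.R932.PO

/-- joint tangent vectors of finitely many representations -/
def JTan (ℓ : ℕ) [Fact ℓ.Prime] {ι : Type} {N : ι → ℕ} {G : Type} [Group G]
    (ρ : ∀ i, G →* Matrix (Fin (N i)) (Fin (N i)) ℚ_[ℓ])
    (X : ∀ i, Matrix (Fin (N i)) (Fin (N i)) ℚ_[ℓ]) : Prop :=
  ∃ σ : ℕ → G, ∀ i, Tendsto (fun n : ℕ => ((ℓ : ℚ_[ℓ]) ^ n)⁻¹ • (ρ i (σ n) - 1)) atTop (𝓝 (X i))

/-- symmetric of size at least five, or alternating; nondegenerate -/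
def IsForm {F : Type} [Field F] {N : ℕ} (J : Matrix (Fin N) (Fin N) F) : Prop :=
  ((Jᵀ = J ∧ 5 ≤ N) ∨ Jᵀ = -J) ∧ J.det ≠ 0

/-- task JLIE: the joint tangent vectors form a Lie algebra, stable under conjugation -/
def S_JLIE : Prop := ∀ (ℓ : ℕ) [Fact ℓ.Prime] (ι : Type) [Fintype ι] (N : ι → ℕ) (G : Type) [Group G]
  (ρ : ∀ i, G →* Matrix (Fin (N i)) (Fin (N i)) ℚ_[ℓ]),
  ∃ 𝔤 : Submodule ℚ_[ℓ] (∀ i, Matrix (Fin (N i)) (Fin (N i)) ℚ_[ℓ]),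
    (∀ X, X ∈ 𝔤 ↔ JTan ℓ ρ X) ∧
    (∀ X ∈ 𝔤, ∀ Y ∈ 𝔤, (fun i => X i * Y i - Y i * X i) ∈ 𝔤) ∧
    (∀ g : G, ∀ X ∈ 𝔤, (fun i => ρ i g * X i * ρ i g⁻¹) ∈ 𝔤)

/-- task JLIFT: tangent vectors of one representation are components of joint tangent vectors -/
def S_JLIFT : Prop := ∀ (ℓ : ℕ) [Fact ℓ.Prime] (ι : Type) [Fintype ι] (N : ι → ℕ) (G : Type)
  [Group G] [TopologicalSpace G] [IsTopologicalGroup G] [CompactSpace G]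
  (ρ : ∀ i, G →* Matrix (Fin (N i)) (Fin (N i)) ℚ_[ℓ]), (∀ i, Continuous (ρ i)) →
  ∀ (i : ι) (X : Matrix (Fin (N i)) (Fin (N i)) ℚ_[ℓ]), IsTangent ℓ (ρ i) X →
    ∃ Y, JTan ℓ ρ Y ∧ Y i = X

/-- task GOUR (Goursat, Kolchin, Ribet) -/
def S_GOUR : Prop := ∀ (F : Type) [Field F] [CharZero F] (ι : Type) [Fintype ι] [DecidableEq ι]
  (N : ι → ℕ) (J : ∀ i, Matrix (Fin (N i)) (Fin (N i)) F), (∀ i, IsForm (J i)) →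
  ∀ 𝔤 : Submodule F (∀ i, Matrix (Fin (N i)) (Fin (N i)) F),
    (∀ X ∈ 𝔤, ∀ Y ∈ 𝔤, (fun i => X i * Y i - Y i * X i) ∈ 𝔤) →
    (∀ i X, SpLie (J i) X → ∃ Y ∈ 𝔤, Y i = X) →
    (∀ i j, i ≠ j → ∀ X, SpLie (J i) X → ∃ Y ∈ 𝔤, Y i = X ∧ Y j = 0) →
    ∀ i X, SpLie (J i) X → Pi.single i X ∈ 𝔤

/-- task PAIR: either the projection to two factors is full, or there is an equivariant linear
map between the matrix algebras -/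
def S_PAIR : Prop := ∀ (ℓ : ℕ) [Fact ℓ.Prime] (ι : Type) [Fintype ι] (N : ι → ℕ) (G : Type)
  [Group G] [TopologicalSpace G] [IsTopologicalGroup G] [CompactSpace G]
  (ρ : ∀ i, G →* Matrix (Fin (N i)) (Fin (N i)) ℚ_[ℓ]), (∀ i, Continuous (ρ i)) →
  ∀ (J : ∀ i, Matrix (Fin (N i)) (Fin (N i)) ℚ_[ℓ]), (∀ i, IsForm (J i)) →
  (∀ i g, ∃ c, Sim (J i) (ρ i g) c) → (∀ i X, SpLie (J i) X → IsTangent ℓ (ρ i) X) →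
  ∀ i j, i ≠ j →
    (∀ X, SpLie (J i) X → ∃ Y, JTan ℓ ρ Y ∧ Y i = X ∧ Y j = 0) ∨
    ∃ Θ : Matrix (Fin (N j)) (Fin (N j)) ℚ_[ℓ] →ₗ[ℚ_[ℓ]] Matrix (Fin (N i)) (Fin (N i)) ℚ_[ℓ],
      (∀ g A, Θ (ρ j g * A * ρ j g⁻¹) = ρ i g * Θ A * ρ i g⁻¹) ∧ (∀ A, SpLie (J i) (Θ A)) ∧
      ∃ A, Θ A ≠ 0

/-- task EQV: an equivariant linear map as in PAIR is impossible if a Frobenius element has an
independent root -/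
def S_EQV : Prop := ∀ (ℓ : ℕ) [Fact ℓ.Prime] (N M : ℕ) (G : Type) [Group G] [TopologicalSpace G]
  [IsTopologicalGroup G] [CompactSpace G] (ρ : G →* Matrix (Fin N) (Fin N) ℚ_[ℓ])
  (ρ' : G →* Matrix (Fin M) (Fin M) ℚ_[ℓ]), Continuous ρ →
  ∀ (J : Matrix (Fin N) (Fin N) ℚ_[ℓ]), IsForm J → (∀ g, ∃ c, Sim J (ρ g) c) →
  (∀ X, SpLie J X → IsTangent ℓ ρ X) →
  ∀ (γ : G) (P R : ℚ[X]) (q : ℚ), (ρ γ).charpoly = P.map (algebraMap ℚ ℚ_[ℓ]) →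
    Sim J (ρ γ) (q : ℚ_[ℓ]) → (ρ' γ).charpoly = R.map (algebraMap ℚ ℚ_[ℓ]) →
  ∀ x : ℂˣ, aeval (x : ℂ) P = 0 → (∀ m : ℕ, 0 < m →
      x ^ m ∉ Subgroup.closure {y : ℂˣ | aeval (y : ℂ) R = 0 ∨ (y : ℂ) = (q : ℂ)}) →
  ∀ Θ : Matrix (Fin M) (Fin M) ℚ_[ℓ] →ₗ[ℚ_[ℓ]] Matrix (Fin N) (Fin N) ℚ_[ℓ],
    (∀ g A, Θ (ρ' g * A * ρ' g⁻¹) = ρ g * Θ A * ρ g⁻¹) → (∀ A, SpLie J (Θ A)) → ∀ A, Θ A = 0

/-- task FORM1U: unramified elements of the orthogonal Lie algebra in odd dimension -/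
def S_FORM1U : Prop := ∀ (ℓ : ℕ) [Fact ℓ.Prime], ℓ ≠ 2 → ∀ (m : ℕ)
  (B : Matrix (Fin (2 * m + 3)) (Fin (2 * m + 3)) ℚ_[ℓ]), Bᵀ = B → B.det ≠ 0 →
  ∃ u : ℚ_[ℓ], ‖u‖ = 1 ∧ ∀ (s : ℚ_[ℓ]) (A : Matrix (Fin m) (Fin m) ℚ_[ℓ]), s ≠ 0 →
    ∃ T : Matrix (Fin (2 * m + 3)) (Fin (2 * m + 3)) ℚ_[ℓ], Skew B T ∧
      T.charpoly = X * ((X ^ 2 - C (u * s ^ 2)) * A.charpoly * (-A).charpoly)

/-- all roots of `Q` are fixed by the automorphisms over the maximal unramified extension -/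
def Unram (ℓ : ℕ) [Fact ℓ.Prime] (Q : ℚ_[ℓ][X]) : Prop :=
  ∀ (τ : AlgebraicClosure ℚ_[ℓ] ≃ₐ[NR ℓ] AlgebraicClosure ℚ_[ℓ]) (x : AlgebraicClosure ℚ_[ℓ]),
    aeval x Q = 0 → τ x = x

/-- different roots of `Q` have different powers, and each automorphism over the maximal unramified
extension which moves the square root of the prime `ℓ` moves some root -/
def Ram (ℓ : ℕ) [Fact ℓ.Prime] (Q : ℚ_[ℓ][X]) : Prop :=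
  DistPow ℓ Q ∧
  ∀ (τ : AlgebraicClosure ℚ_[ℓ] ≃ₐ[NR ℓ] AlgebraicClosure ℚ_[ℓ]) (r : AlgebraicClosure ℚ_[ℓ]),
    r ^ 2 = algebraMap ℚ_[ℓ] (AlgebraicClosure ℚ_[ℓ]) (ℓ : ℚ_[ℓ]) → τ r ≠ r →
    ∃ x : AlgebraicClosure ℚ_[ℓ], aeval x Q = 0 ∧ τ x ≠ x

/-- the property `Con` of the characteristic polynomial of similitudes near a suitable tangent
vector -/
def LType (ℓ : ℕ) [Fact ℓ.Prime] {N : ℕ} (J : Matrix (Fin N) (Fin N) ℚ_[ℓ])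
    (Con : ℚ_[ℓ][X] → Prop) : Prop :=
  ∃ (T : Matrix (Fin N) (Fin N) ℚ_[ℓ]) (δ : ℝ) (k₀ : ℕ), SpLie J T ∧ 0 < δ ∧
    ∀ (k : ℕ) (g : Matrix (Fin N) (Fin N) ℚ_[ℓ]) (c : ℚ_[ℓ]), k₀ ≤ k → Sim J g c →
      (Jᵀ = J → c = 1) →
      (∀ a b, ‖((((ℓ : ℚ_[ℓ]) ^ k)⁻¹ • (g - 1)) - T) a b‖ < δ) → Con g.charpoly

/-- task LTS: ramified and unramified types in the symplectic case -/
def S_LTS : Prop := ∀ (ℓ : ℕ) [Fact ℓ.Prime], ℓ ≠ 2 → ∀ (N : ℕ), 0 < N →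
  ∀ J : Matrix (Fin N) (Fin N) ℚ_[ℓ], Jᵀ = -J → J.det ≠ 0 → LType ℓ J (Ram ℓ) ∧ LType ℓ J (Unram ℓ)

/-- task LTO: ramified and unramified types in the orthogonal case, odd dimension -/
def S_LTO : Prop := ∀ (ℓ : ℕ) [Fact ℓ.Prime], ℓ ≠ 2 → ∀ (N : ℕ), Odd N → 3 ≤ N →
  ∀ J : Matrix (Fin N) (Fin N) ℚ_[ℓ], Jᵀ = J → J.det ≠ 0 → LType ℓ J (Ram ℓ) ∧ LType ℓ J (Unram ℓ)

/-- task LTE: ramified and unramified types in the orthogonal case, even dimension -/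
def S_LTE : Prop := ∀ (ℓ : ℕ) [Fact ℓ.Prime], ℓ ≠ 2 → ∀ (N : ℕ), Even N → 6 ≤ N →
  ∀ J : Matrix (Fin N) (Fin N) ℚ_[ℓ], Jᵀ = J → J.det ≠ 0 → Even (Padic.valuation J.det) →
    LType ℓ J (Ram ℓ) ∧ LType ℓ J (Unram ℓ)

/-- task JOPEN: full joint Lie algebra implies open image -/
def S_JOPEN : Prop := ∀ (ℓ : ℕ) [Fact ℓ.Prime] (ι : Type) [Fintype ι] (N : ι → ℕ) (G : Type)
  [Group G] [TopologicalSpace G] [IsTopologicalGroup G] [CompactSpace G]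
  (ρ : ∀ i, G →* Matrix (Fin (N i)) (Fin (N i)) ℚ_[ℓ]), (∀ i, Continuous (ρ i)) →
  ∀ (J : ∀ i, Matrix (Fin (N i)) (Fin (N i)) ℚ_[ℓ]), (∀ i, (J i)ᵀ = J i ∨ (J i)ᵀ = -(J i)) →
  (∀ i, (J i).det ≠ 0) → (∀ i g, ∃ c, Sim (J i) (ρ i g) c) →
  (∀ X : ∀ i, Matrix (Fin (N i)) (Fin (N i)) ℚ_[ℓ], (∀ i, SpLie (J i) (X i)) → JTan ℓ ρ X) →
  ∃ ε : ℝ, 0 < ε ∧ ∀ g : ∀ i, Matrix (Fin (N i)) (Fin (N i)) ℚ_[ℓ],
    (∀ i, (g i)ᵀ * J i * g i = J i) → (∀ i a b, ‖(g i - 1) a b‖ < ε) → ∃ σ, ∀ i, ρ i σ = g i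

end Pool.Agent.R932.PO
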