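import Pool.Agent.R932.PO.Main

/-!
# Project PO: several systems, from one prime to 100 percent of the primes
-/

set_option autoImplicit false
set_option linter.unusedSectionVars false
set_option linter.style.haveILetI false

open Matrix Polynomial Filter Topology NumberField IsDedekindDomain
open Pool.Agent.Y142.ZO Pool.Agent.Y142.ZI Pool.Agent.Y142.ZS
open Pool.Agent.R932.OP Pool.Agent.R932.EV

namespace Pool.Agent.R932.PO

theorem dens_bdd {A : Set ℕ} {b : ℕ} (hA : ∀ ℓ ∈ A, ℓ ≤ b) : Y142.ZI.DensityZero A := by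
  have h1 : Tendsto (fun n : ℕ => ((b + 1 : ℕ) : ℝ) / (Nat.primeCounting n : ℝ)) atTop (𝓝 0) := by
    refine Tendsto.div_atTop tendsto_const_nhds ?_
    exact tendsto_natCast_atTop_atTop.comp Nat.tendsto_primeCounting
  refine squeeze_zero (fun n => by positivity) (fun n => ?_) h1
  apply div_le_div_of_nonneg_right _ (Nat.cast_nonneg _)
  have h2 : Nat.card {ℓ : ℕ // ℓ ≤ n ∧ ℓ ∈ A} ≤ Nat.card (Fin (b + 1)) :=
    Nat.card_le_card_of_injective (fun x => (⟨x.1, Nat.lt_succ_of_le (hA _ x.2.2)⟩ : Fin (b + 1)))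
      (fun x y h => by
        apply Subtype.ext
        exact congrArg (fun z : Fin (b + 1) => z.1) h)
  rw [Nat.card_fin] at h2
  exact_mod_cast h2

theorem dens_iUnion {ι : Type} [Fintype ι] {A : ι → Set ℕ} (hA : ∀ i, Y142.ZI.DensityZero (A i)) :
    Y142.ZI.DensityZero {ℓ | ∃ i, ℓ ∈ A i} := by
  classical
  have h : ∀ s : Finset ι, Y142.ZI.DensityZero {ℓ | ∃ i ∈ s, ℓ ∈ A i} := by
    intro s
    induction s using Finset.induction_on with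
    | empty =>
      refine dens_bdd (b := 0) ?_
      rintro ℓ ⟨i, hi, -⟩
      exact absurd hi (Finset.notMem_empty i)
    | insert i s _ ih =>
      refine ((hA i).union ih).mono ?_
      rintro ℓ ⟨j, hj, hℓ⟩
      rcases Finset.mem_insert.1 hj with rfl | hj
      · exact Or.inl hℓ
      · exact Or.inr ⟨j, hj, hℓ⟩
  refine (h Finset.univ).mono ?_
  rintro ℓ ⟨i, hi⟩
  exact ⟨i, Finset.mem_univ i, hi⟩

section
variable {ℓ : ℕ} [hℓ : Fact ℓ.Prime] {ι : Type} [DecidableEq ι] {N : ι → ℕ}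
  {G : Type} [Group G] {ρ : ∀ i, G →* Matrix (Fin (N i)) (Fin (N i)) ℚ_[ℓ]}
  {J : ∀ i, Matrix (Fin (N i)) (Fin (N i)) ℚ_[ℓ]}

theorem one_of_joint (h : ∀ X, (∀ i, SpLie (J i) (X i)) → JTan ℓ ρ X) (i : ι)
    (X : Matrix (Fin (N i)) (Fin (N i)) ℚ_[ℓ]) (hX : SpLie (J i) X) : IsTangent ℓ (ρ i) X := by
  obtain ⟨σ, hσ⟩ := h (Pi.single i X) (by
    intro j
    by_cases hj : j = i
    · subst hj
      rw [Pi.single_eq_same]
      exact hX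
    · rw [Pi.single_eq_of_ne hj]
      unfold SpLie
      rw [transpose_zero, zero_mul, mul_zero, add_zero])
  refine ⟨σ, ?_⟩
  have h1 := hσ i
  rwa [Pi.single_eq_same] at h1

end

/-- the tasks of the project -/
structure Tasks : Prop where
  jlie : S_JLIE
  jlift : S_JLIFT
  gour : S_GOUR
  pair : S_PAIR
  eqv : S_EQV
  lts : S_LTS
  lto : S_LTO
  lte : S_LTE

section
variable {K : Type} [Field K] [NumberField K] {ι : Type} [Fintype ι] [DecidableEq ι] {N : ι → ℕ}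
  {S : Set (HeightOneSpectrum (𝓞 K))} {P : ι → HeightOneSpectrum (𝓞 K) → ℚ[X]}
  {q : ι → HeightOneSpectrum (𝓞 K) → ℚ}
  {Γ : Type} [Group Γ] [TopologicalSpace Γ] [IsTopologicalGroup Γ] [CompactSpace Γ]
  {s : GK K →* Γ} {κ : ι → Kind}

/-- **several systems: from one prime to 100 percent of the primes, and to all primes at which the
representations are semisimple with scalar commutants** -/
theorem several (H : Tasks) (hs : Continuous s) (hS : S.Finite)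
    (ρ : ∀ (i : ι) (ℓ : ℕ) [Fact ℓ.Prime], Γ →* Matrix (Fin (N i)) (Fin (N i)) ℚ_[ℓ])
    (J : ∀ (i : ι) (ℓ : ℕ) [Fact ℓ.Prime], Matrix (Fin (N i)) (Fin (N i)) ℚ_[ℓ])
    (hsys : ∀ (i : ι) (ℓ : ℕ) [Fact ℓ.Prime], Sys s (κ i) (N i) ℓ (ρ i ℓ) (J i ℓ) S (P i) (q i))
    (ℓ₀ : ℕ) [hℓ₀ : Fact ℓ₀.Prime] (hal : ∀ i, Allows (κ i) (N i) ℓ₀ (J i ℓ₀))
    (hfull : ∀ X, (∀ i, SpLie (J i ℓ₀) (X i)) → JTan ℓ₀ (fun i => (ρ i ℓ₀).comp s) X) :
    Y142.ZI.DensityZero {ℓ | ∃ _ : Fact ℓ.Prime,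
      ¬ ∀ X, (∀ i, SpLie (J i ℓ) (X i)) → JTan ℓ (fun i => (ρ i ℓ).comp s) X} ∧
    ∀ (ℓ : ℕ) [Fact ℓ.Prime], (∀ i, SS (ρ i ℓ)) → (∀ i, SC (ρ i ℓ)) →
      ∀ X, (∀ i, SpLie (J i ℓ) (X i)) → JTan ℓ (fun i => ρ i ℓ) X := by
  have hsim : ∀ (i : ι) (ℓ : ℕ) [Fact ℓ.Prime] (g : Γ), ∃ c, Sim (J i ℓ) (ρ i ℓ g) c := by
    intro i ℓ _ g
    obtain ⟨c, hc, -⟩ := (hsys i ℓ).2.2.2.1 g
    exact ⟨c, hc⟩
  have hform : ∀ (i : ι) (ℓ : ℕ) [Fact ℓ.Prime], IsForm (J i ℓ) := fun i ℓ _ =>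
    (hsys i ℓ).2.1.isForm (hsys i ℓ).2.2.1
  have hone : ∀ i X, SpLie (J i ℓ₀) X → IsTangent ℓ₀ ((ρ i ℓ₀).comp s) X :=
    fun i X hX => one_of_joint hfull i X hX
  have hplace : ∀ (T : Set (HeightOneSpectrum (𝓞 K))), T.Finite → ∀ i, ∃ v, v ∉ T ∧ v ∉ S ∧
      IndRoot (P i v) (∏ j ∈ Finset.univ.erase i, P j v) := by
    intro T hT i
    obtain ⟨v, h1, h2, -, h3⟩ := exists_place H.lts H.lto H.lte hs hS ℓ₀ (fun i => ρ i ℓ₀)
      (fun i => J i ℓ₀) (fun i => hsys i ℓ₀) hal hfull i hT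
    exact ⟨v, h1, h2, h3⟩
  have hroot : ∀ (ℓ : ℕ) [Fact ℓ.Prime] (i : ι) (v : HeightOneSpectrum (𝓞 K)), v ∉ S →
      (ℓ : 𝓞 K) ∉ v.asIdeal → IndRoot (P i v) (∏ j ∈ Finset.univ.erase i, P j v) →
      ∃ (σ : GK K) (P' : ι → ℚ[X]) (q' : ℚ),
        (∀ j, (ρ j ℓ (s σ)).charpoly = (P' j).map (algebraMap ℚ ℚ_[ℓ])) ∧
        Sim (J i ℓ) (ρ i ℓ (s σ)) (q' : ℚ_[ℓ]) ∧
        IndRoot (P' i) (∏ j ∈ Finset.univ.erase i, P' j) := by
    intro ℓ _ i v hvS hvℓ hind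
    obtain ⟨σ, hσ⟩ := Pool.Agent.W401.Frob.exists_frob v
    exact ⟨σ⁻¹, fun j => P j v, q i v, fun j => ((hsys j ℓ).2.2.2.2 v hvS hvℓ σ hσ).1,
      ((hsys i ℓ).2.2.2.2 v hvS hvℓ σ hσ).2, hind⟩
  constructor
  · have h1 := hplace ∅ Set.finite_empty
    choose v hvT hvS hind using h1
    have h2 : Y142.ZI.DensityZero {ℓ | ∃ i, ℓ ∈ ({ℓ | ∃ _ : Fact ℓ.Prime,
        ¬ ∀ X, SpLie (J i ℓ) X → IsTangent ℓ ((ρ i ℓ).comp s) X} ∪
        {ℓ | ℓ ≤ Ideal.absNorm (v i).asIdeal} : Set ℕ)} := by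
      refine dens_iUnion fun i => ?_
      exact (one_dens hs hS (fun ℓ _ => ρ i ℓ) (fun ℓ _ => J i ℓ) (fun ℓ _ => hsys i ℓ) ℓ₀ (hal i)
        (hone i)).union (dens_bdd fun ℓ hℓ => hℓ)
    refine h2.mono ?_
    rintro ℓ ⟨hp, hno⟩
    by_contra hcon
    apply hno
    have h3 : ∀ i, (∀ X, SpLie (J i ℓ) X → IsTangent ℓ ((ρ i ℓ).comp s) X) ∧
        Ideal.absNorm (v i).asIdeal < ℓ := by
      intro i
      constructor
      · by_contra h4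
        exact hcon ⟨i, Or.inl ⟨hp, h4⟩⟩
      · by_contra h4
        exact hcon ⟨i, Or.inr (not_lt.1 h4)⟩
    have hcont : ∀ i, Continuous ((ρ i ℓ).comp s) := fun i => (hsys i ℓ).1.comp hs
    refine joint_full H.jlie H.jlift H.gour H.pair (ρ := fun i => (ρ i ℓ).comp s) hcont
      (fun i => hform i ℓ) (fun i g => hsim i ℓ (s g)) (fun i => (h3 i).1) ?_
    refine pair_of_root H.eqv (ρ := fun i => (ρ i ℓ).comp s) hcont
      (fun i => hform i ℓ) (fun i g => hsim i ℓ (s g)) (fun i => (h3 i).1) ?_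
    intro i
    obtain ⟨σ, P', q', h4, h5, h6⟩ := hroot ℓ i (v i) (hvS i)
      (not_mem_of_lt (v i) hp.out (h3 i).2) (hind i)
    exact ⟨σ, P', q', h4, h5, h6⟩
  · intro ℓ hℓ hss hsc
    have h3 : ∀ i X, SpLie (J i ℓ) X → IsTangent ℓ (ρ i ℓ) X := fun i =>
      one_every hs hS (fun ℓ _ => ρ i ℓ) (fun ℓ _ => J i ℓ) (fun ℓ _ => hsys i ℓ) ℓ₀ (hal i)
        (hone i) ℓ (hss i) (hsc i)
    refine joint_full H.jlie H.jlift H.gour H.pair (ρ := fun i => ρ i ℓ) (fun i => (hsys i ℓ).1)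
      (fun i => hform i ℓ) (fun i g => hsim i ℓ g) h3 ?_
    refine pair_of_root H.eqv (ρ := fun i => ρ i ℓ) (fun i => (hsys i ℓ).1)
      (fun i => hform i ℓ) (fun i g => hsim i ℓ g) h3 ?_
    intro i
    obtain ⟨v, hvT, hvS, hind⟩ := hplace {v : HeightOneSpectrum (𝓞 K) | (ℓ : 𝓞 K) ∈ v.asIdeal}
      (finite_above ℓ hℓ.out) i
    obtain ⟨σ, P', q', h4, h5, h6⟩ := hroot ℓ i v hvS hvT hind
    exact ⟨s σ, P', q', h4, h5, h6⟩

end

end Pool.Agent.R932.PO
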